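import Pool.Agent.H.MP_6c077c_gt.Lz.Idx2
import Pool.Agent.H.MP_6c077c_gt.Ph.PClose

/-! Convex functions: pairs in the closure of the saddle pairs. -/

set_option autoImplicit false

namespace Pool.Schoen

open Filter Set
open scoped Topology RealInnerProductSpace ContDiff

variable {V : Type*} [NormedAddCommGroup V] [InnerProductSpace ℝ V] [FiniteDimensional ℝ V]

/-- At a pair in the closure of the saddle pairs the form is nonpositive on a plane. -/
theorem closure_sadPair {F φ : V → ℝ} (hF : ContDiff ℝ ∞ F) (hφ : ContDiff ℝ ∞ φ) {x : V} {μ : ℝ}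
    (h : (x, μ) ∈ closure (SadPair F φ)) :
    F x = 0 ∧ ∃ U : Submodule ℝ V, Module.finrank ℝ U = 2 ∧ ∀ u ∈ U, fderiv ℝ F x u = 0 ∧
      hess φ x u u + μ * hess F x u u ≤ 0 := by
  obtain ⟨z, hz, hlim⟩ := mem_closure_iff_seq_limit.1 h
  choose hz0 _ U hU2 hU using hz
  choose u hu v hv hu1 hv1 huv using fun k => exists_pair (U k) (hU2 k)
  have hS : IsCompact (Metric.sphere (0 : V) 1 ×ˢ Metric.sphere (0 : V) 1) :=
    (isCompact_sphere _ _).prod (isCompact_sphere _ _)
  obtain ⟨⟨u₀, v₀⟩, ⟨hu₀, hv₀⟩, ψ, hψ, hl⟩ := hS.tendsto_subseq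
    (x := fun k => (u k, v k)) fun k => ⟨by simpa using hu1 k, by simpa using hv1 k⟩
  have hzl : Tendsto (fun k => z (ψ k)) atTop (𝓝 (x, μ)) := hlim.comp hψ.tendsto_atTop
  have hxl : Tendsto (fun k => (z (ψ k)).1) atTop (𝓝 x) := (continuous_fst.tendsto _).comp hzl
  have hml : Tendsto (fun k => (z (ψ k)).2) atTop (𝓝 μ) := (continuous_snd.tendsto _).comp hzl
  have hul : Tendsto (fun k => u (ψ k)) atTop (𝓝 u₀) := (continuous_fst.tendsto _).comp hl
  have hvl : Tendsto (fun k => v (ψ k)) atTop (𝓝 v₀) := (continuous_snd.tendsto _).comp hl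
  have hx0 : F x = 0 := by
    have h1 : Tendsto (fun k => F (z (ψ k)).1) atTop (𝓝 (F x)) :=
      (hF.continuous.tendsto _).comp hxl
    have h2 : (fun k => F (z (ψ k)).1) = fun _ => (0 : ℝ) := funext fun k => hz0 _
    rw [h2] at h1
    exact tendsto_nhds_unique h1 tendsto_const_nhds
  have hu₀' : ‖u₀‖ = 1 := by simpa using hu₀
  have hv₀' : ‖v₀‖ = 1 := by simpa using hv₀
  have huv₀ : ⟪u₀, v₀⟫ = 0 :=
    tendsto_nhds_unique (hul.inner (𝕜 := ℝ) hvl) (by simp only [huv]; exact tendsto_const_nhds)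
  refine ⟨hx0, Submodule.span ℝ {u₀, v₀}, finrank_pair hu₀' hv₀' huv₀, ?_⟩
  intro w hw
  obtain ⟨s, t, rfl⟩ := Submodule.mem_span_pair.1 hw
  have hmem : ∀ k, s • u k + t • v k ∈ U k := fun k =>
    (U k).add_mem ((U k).smul_mem _ (hu k)) ((U k).smul_mem _ (hv k))
  have hwl : Tendsto (fun k => s • u (ψ k) + t • v (ψ k)) atTop (𝓝 (s • u₀ + t • v₀)) :=
    (hul.const_smul s).add (hvl.const_smul t)
  have hle : ∀ k, fderiv ℝ F (z k).1 (s • u k + t • v k) = 0 ∧
      hess φ (z k).1 (s • u k + t • v k) (s • u k + t • v k) +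
        (z k).2 * hess F (z k).1 (s • u k + t • v k) (s • u k + t • v k) ≤ 0 := by
    intro k
    by_cases h0 : s • u k + t • v k = 0
    · rw [h0]
      simp [hess]
    · exact ⟨(hU k _ (hmem k) h0).1, (hU k _ (hmem k) h0).2.le⟩
  constructor
  · have hcn : Continuous fun y : V × V => fderiv ℝ F y.1 y.2 :=
      ((hF.continuous_fderiv (by simp)).comp continuous_fst).clm_apply continuous_snd
    have h1 := (hcn.tendsto (x, s • u₀ + t • v₀)).comp (hxl.prodMk_nhds hwl)
    refine tendsto_nhds_unique h1 ?_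
    have h2 : ((fun y : V × V => fderiv ℝ F y.1 y.2) ∘
        fun k => ((z (ψ k)).1, s • u (ψ k) + t • v (ψ k))) = fun _ => (0 : ℝ) :=
      funext fun k => (hle _).1
    rw [h2]
    exact tendsto_const_nhds
  · have hcn : ∀ {G : V → ℝ}, ContDiff ℝ ∞ G →
        Continuous fun y : V × V => fderiv ℝ (fderiv ℝ G) y.1 y.2 y.2 := fun {G} hG =>
      ((((hG.fderiv_right (m := 1) (by norm_cast)).continuous_fderiv
        (by simp)).comp continuous_fst).clm_apply continuous_snd).clm_apply continuous_snd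
    have h1 := ((hcn hφ).tendsto (x, s • u₀ + t • v₀)).comp (hxl.prodMk_nhds hwl)
    have h2 := ((hcn hF).tendsto (x, s • u₀ + t • v₀)).comp (hxl.prodMk_nhds hwl)
    exact le_of_tendsto' (h1.add (hml.mul h2)) fun k => (hle _).2

end Pool.Schoen
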