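import Pool.Agent.H.MP_6c077c_gt.Ph.PDefs

/-! Room theorem: definitions. -/

set_option autoImplicit false

namespace Pool.Schoen

open Filter Set
open scoped Topology RealInnerProductSpace ContDiff

variable {V : Type*} [NormedAddCommGroup V] [InnerProductSpace ℝ V]

/-- A smooth uniformly convex function. -/
structure UConv (φ : V → ℝ) (η : ℝ) : Prop where
  smooth : ContDiff ℝ ∞ φ
  pos : 0 < η
  conv : ∀ x y, φ x + fderiv ℝ φ x (y - x) + η * ‖y - x‖ ^ 2 ≤ φ y

theorem UConv.fderiv_ne {φ : V → ℝ} {η : ℝ} (hφ : UConv φ η) {c : ℝ} {q x : V} (hq : φ q < c)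
    (hx : c ≤ φ x) : fderiv ℝ φ x ≠ 0 := by
  intro h
  have h1 := hφ.conv x q
  rw [h] at h1
  have h2 : 0 ≤ η * ‖q - x‖ ^ 2 := mul_nonneg hφ.pos.le (sq_nonneg _)
  have h3 : (0 : V →L[ℝ] ℝ) (q - x) = 0 := rfl
  rw [h3] at h1
  linarith

theorem UConv.sub_const {φ : V → ℝ} {η : ℝ} (hφ : UConv φ η) (s : ℝ) :
    UConv (fun x => φ x - s) η := by
  refine ⟨hφ.smooth.sub contDiff_const, hφ.pos, fun x y => ?_⟩
  have h1 := hφ.conv x y
  have h2 : fderiv ℝ (fun x => φ x - s) x = fderiv ℝ φ x := fderiv_sub_const s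
  rw [h2]
  linarith

/-- Convexity in the form used for sublevel sets. -/
theorem UConv.convexOn {φ : V → ℝ} {η : ℝ} (hφ : UConv φ η) : ConvexOn ℝ univ φ := by
  refine ⟨convex_univ, fun x _ y _ a b ha hb hab => ?_⟩
  set z := a • x + b • y with hz
  have h1 := hφ.conv z x
  have h2 := hφ.conv z y
  have h3 : 0 ≤ η * ‖x - z‖ ^ 2 := mul_nonneg hφ.pos.le (sq_nonneg _)
  have h4 : 0 ≤ η * ‖y - z‖ ^ 2 := mul_nonneg hφ.pos.le (sq_nonneg _)
  have h5 : a • (x - z) + b • (y - z) = 0 := by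
    have : a • (x - z) + b • (y - z) = (a • x + b • y) - (a + b) • z := by
      rw [smul_sub, smul_sub, add_smul]
      abel
    rw [this, hab, one_smul, ← hz, sub_self]
  have h6 : a * fderiv ℝ φ z (x - z) + b * fderiv ℝ φ z (y - z) = 0 := by
    have h7 := congrArg (fderiv ℝ φ z) h5
    rw [map_add, map_smul, map_smul, map_zero] at h7
    simpa only [smul_eq_mul] using h7
  have h8 : φ z = a * φ z + b * φ z := by rw [← add_mul, hab, one_mul]
  have h9 := mul_le_mul_of_nonneg_left h1 ha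
  have h10 := mul_le_mul_of_nonneg_left h2 hb
  simp only [smul_eq_mul]
  nlinarith

end Pool.Schoen
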