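import Pool.Agent.H.MP_6c077c_gt.Lz.Defs
import Pool.Agent.H.MP_6c077c_gt.Hx.WinC

/-! Room theorem: maxima over balls (erosion of the body). -/

set_option autoImplicit false

namespace Pool.Schoen

open Filter Set
open scoped Topology RealInnerProductSpace ContDiff

variable {V : Type*} [NormedAddCommGroup V] [InnerProductSpace ℝ V] [FiniteDimensional ℝ V]

/-- The maximum of `k` over the ball of radius `r` about `x`. -/
noncomputable def ero (k : V → ℝ) (r : ℝ) (x : V) : ℝ :=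
  sSup ((fun u : V => k (x + r • u)) '' Metric.closedBall (0 : V) 1)

/-- PROOF. As `win_continuous` (`IsCompact.continuous_sSup`). -/
theorem ero_continuous {k : V → ℝ} (hk : Continuous k) :
    Continuous fun p : ℝ × V => ero k p.1 p.2 := by
  unfold ero
  refine IsCompact.continuous_sSup (f := fun (p : ℝ × V) (u : V) => k (p.2 + p.1 • u))
    (isCompact_closedBall (0 : V) 1) ?_
  have : Continuous fun q : (ℝ × V) × V => k (q.1.2 + q.1.1 • q.2) := by fun_prop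
  exact this

theorem ero_zero (k : V → ℝ) (x : V) : ero k 0 x = k x := by
  unfold ero
  have h : (fun u : V => k (x + (0 : ℝ) • u)) '' Metric.closedBall (0 : V) 1 = {k x} := by
    ext y
    constructor
    · rintro ⟨u, -, rfl⟩
      simp
    · rintro rfl
      exact ⟨0, by simp, by simp⟩
  rw [h, csSup_singleton]

/-- the maximum is attained in the closed unit ball -/
theorem Ero_max {k : V → ℝ} (hk : Continuous k) (r : ℝ) (x : V) :
    ∃ u ∈ Metric.closedBall (0 : V) 1, k (x + r • u) = ero k r x ∧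
      ∀ u' ∈ Metric.closedBall (0 : V) 1, k (x + r • u') ≤ ero k r x := by
  have hc : ContinuousOn (fun u : V => k (x + r • u)) (Metric.closedBall (0 : V) 1) := by
    fun_prop
  obtain ⟨u, hu, h1, h2⟩ := (isCompact_closedBall (0 : V) 1).exists_sSup_image_eq_and_ge
    ⟨0, Metric.mem_closedBall_self zero_le_one⟩ hc
  refine ⟨u, hu, h1.symm, fun u' hu' => ?_⟩
  unfold ero
  rw [h1]
  exact h2 u' hu'

/-- the maximum is an upper bound -/
theorem Ero_ge {k : V → ℝ} (hk : Continuous k) {r : ℝ} {u : V} (hu : ‖u‖ ≤ r) (x : V) :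
    k (x + u) ≤ ero k r x := by
  obtain ⟨v, -, -, h2⟩ := Ero_max hk r x
  rcases ((norm_nonneg u).trans hu).eq_or_lt with h | h
  · have h3 : u = 0 := norm_le_zero_iff.1 (hu.trans h.symm.le)
    have := h2 0 (Metric.mem_closedBall_self zero_le_one)
    rw [smul_zero] at this
    rwa [h3]
  · have := h2 (r⁻¹ • u) ?_
    · rwa [smul_smul, mul_inv_cancel₀ h.ne', one_smul] at this
    · rw [mem_closedBall_zero_iff, norm_smul, Real.norm_eq_abs, abs_of_pos (inv_pos.2 h),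
        inv_mul_le_iff₀ h, mul_one]
      exact hu

theorem ero_attained {k : V → ℝ} (hk : Continuous k) {r : ℝ} (hr : 0 ≤ r) (x : V) :
    ∃ u : V, ‖u‖ ≤ r ∧ k (x + u) = ero k r x := by
  obtain ⟨u, hu, h1, -⟩ := Ero_max hk r x
  refine ⟨r • u, ?_, h1⟩
  rw [mem_closedBall_zero_iff] at hu
  rw [norm_smul, Real.norm_eq_abs, abs_of_nonneg hr]
  nlinarith

/-- PROOF. Compactness: the supremum is attained and an upper bound. -/
theorem ero_le_iff {k : V → ℝ} (hk : Continuous k) {r : ℝ} (hr : 0 ≤ r) (x : V) (c : ℝ) :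
    ero k r x ≤ c ↔ ∀ u : V, ‖u‖ ≤ r → k (x + u) ≤ c := by
  constructor
  · intro h u hu
    exact (Ero_ge hk hu x).trans h
  · intro h
    obtain ⟨u, hu, h1⟩ := ero_attained hk hr x
    rw [← h1]
    exact h u hu

/-- PROOF. As `win_descC` (`Hx/WinC.lean`, compactness by `IsCompact.induction_on` over the ball), but
for a maximum: for every `u₀` in the unit ball there are a neighbourhood of `u₀` and `c > 0` such that
eventually `k (y + s w' + r u) ≤ ero k r y - c s` for all `u` near `u₀`: if `k (x + r₀ u₀) = 0` from `Desc1`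
at `x + r₀ u₀` and `k (y + r u) ≤ ero k r y`; if `k (x + r₀ u₀) < 0` from continuity (the left side is near
`k (x + r₀ u₀)`, the right side near `0`). -/
theorem ero_desc {k : V → ℝ} (hk : Continuous k) {r₀ : ℝ} (hr : 0 ≤ r₀) {x w : V}
    (hz : ero k r₀ x = 0) (hw : ∀ u : V, ‖u‖ ≤ r₀ → k (x + u) = 0 → Desc1 k (x + u) w)
    {l : Filter ℝ} (hl : l ≤ 𝓝 r₀) (hl' : ∀ᶠ r in l, 0 ≤ r) :
    Desc (fun r y => ero k r y) l x w := by
  set L : Filter (ℝ × (V × (V × ℝ))) := l ×ˢ (𝓝 x ×ˢ (𝓝 w ×ˢ 𝓝[>] (0 : ℝ))) with hL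
  suffices h : ∃ c : ℝ, 0 < c ∧ ∀ᶠ q : ℝ × (V × (V × ℝ)) in L,
      ∀ u ∈ Metric.closedBall (0 : V) 1,
      k (q.2.1 + q.2.2.2 • q.2.2.1 + q.1 • u) ≤ ero k q.1 q.2.1 - c * q.2.2.2 by
    obtain ⟨c, hc, h⟩ := h
    refine ⟨c, hc, ?_⟩
    filter_upwards [h] with q hq
    obtain ⟨u, hu, h1, -⟩ := Ero_max hk q.1 (q.2.1 + q.2.2.2 • q.2.2.1)
    have h2 := hq u hu
    rw [h1] at h2
    exact h2
  refine (isCompact_closedBall (0 : V) 1).induction_on (p := fun S : Set V => ∃ c : ℝ, 0 < c ∧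
      ∀ᶠ q : ℝ × (V × (V × ℝ)) in L, ∀ u ∈ S,
      k (q.2.1 + q.2.2.2 • q.2.2.1 + q.1 • u) ≤ ero k q.1 q.2.1 - c * q.2.2.2) ?_ ?_ ?_ ?_
  · exact ⟨1, one_pos, Filter.Eventually.of_forall fun q u hu => absurd hu (notMem_empty u)⟩
  · rintro S T hST ⟨c, hc, h⟩
    exact ⟨c, hc, h.mono fun q hq u hu => hq u (hST hu)⟩
  · rintro S T ⟨c, hc, h⟩ ⟨c', hc', h'⟩
    refine ⟨min c c', lt_min hc hc', ?_⟩
    filter_upwards [h, h', DescC_pos l x w] with q hq hq' hpos u hu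
    rcases hu with hu | hu
    · have h2 := hq u hu
      have h3 := mul_le_mul_of_nonneg_right (min_le_left c c') hpos.le
      linarith
    · have h2 := hq' u hu
      have h3 := mul_le_mul_of_nonneg_right (min_le_right c c') hpos.le
      linarith
  intro u₀ hu₀
  have hu₀' : ‖u₀‖ ≤ 1 := mem_closedBall_zero_iff.1 hu₀
  have hσ₀ : ‖r₀ • u₀‖ ≤ r₀ := by
    rw [norm_smul, Real.norm_eq_abs, abs_of_nonneg hr]
    nlinarith
  set LU : Filter ((ℝ × (V × (V × ℝ))) × V) := L ×ˢ 𝓝[Metric.closedBall (0 : V) 1] u₀ with hLU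
  suffices h : ∃ c : ℝ, 0 < c ∧ ∀ᶠ z : (ℝ × (V × (V × ℝ))) × V in LU,
      k (z.1.2.1 + z.1.2.2.2 • z.1.2.2.1 + z.1.1 • z.2) ≤
        ero k z.1.1 z.1.2.1 - c * z.1.2.2.2 by
    obtain ⟨c, hc, h⟩ := h
    obtain ⟨pa, hpa, pb, hpb, h1⟩ := Filter.eventually_prod_iff.1 h
    exact ⟨{u | pb u}, hpb, c, hc, hpa.mono fun q hq u hu => h1 hq hu⟩
  have T1 : Tendsto (fun z : (ℝ × (V × (V × ℝ))) × V => z.1.1) LU (𝓝 r₀) :=
    (tendsto_fst.mono_right hl).comp (tendsto_fst (f := L))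
  have T2 : Tendsto (fun z : (ℝ × (V × (V × ℝ))) × V => z.1.2.1) LU (𝓝 x) :=
    (tendsto_fst.comp (tendsto_snd (f := l))).comp (tendsto_fst (f := L))
  have T3 : Tendsto (fun z : (ℝ × (V × (V × ℝ))) × V => z.1.2.2.1) LU (𝓝 w) :=
    (DescC_dir l x w).comp tendsto_fst
  have T4' : Tendsto (fun z : (ℝ × (V × (V × ℝ))) × V => z.1.2.2.2) LU (𝓝[>] 0) :=
    (DescC_time l x w).comp tendsto_fst
  have T4 : Tendsto (fun z : (ℝ × (V × (V × ℝ))) × V => z.1.2.2.2) LU (𝓝 0) :=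
    T4'.mono_right nhdsWithin_le_nhds
  have T5 : Tendsto (fun z : (ℝ × (V × (V × ℝ))) × V => z.2) LU (𝓝 u₀) :=
    tendsto_snd.mono_right nhdsWithin_le_nhds
  have T6 : ∀ᶠ z : (ℝ × (V × (V × ℝ))) × V in LU, z.2 ∈ Metric.closedBall (0 : V) 1 :=
    tendsto_snd.eventually self_mem_nhdsWithin
  have T7 : ∀ᶠ z : (ℝ × (V × (V × ℝ))) × V in LU, 0 ≤ z.1.1 :=
    (tendsto_fst.comp (tendsto_fst (f := L))).eventually hl'
  by_cases hk0 : k (x + r₀ • u₀) = 0
  swap
  · -- not a contact point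
    have h1 : k (x + r₀ • u₀) < 0 := by
      refine lt_of_le_of_ne ?_ hk0
      rw [← hz]
      exact Ero_ge hk hσ₀ x
    have c0 : Tendsto (fun z : (ℝ × (V × (V × ℝ))) × V => ((z.1.1, z.1.2.1) : ℝ × V)) LU
        (𝓝 (r₀, x)) := T1.prodMk_nhds T2
    have c3 : Tendsto (fun p : ℝ × V => ero k p.1 p.2) (𝓝 (r₀, x)) (𝓝 (ero k r₀ x)) :=
      (ero_continuous hk).tendsto (r₀, x)
    have c1 : Tendsto (fun z : (ℝ × (V × (V × ℝ))) × V =>
        ero k z.1.1 z.1.2.1 - 1 * z.1.2.2.2) LU (𝓝 0) := by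
      have h2 := (c3.comp c0).sub (T4.const_mul 1)
      rw [hz, mul_zero, sub_zero] at h2
      exact h2
    have c2 : Tendsto (fun z : (ℝ × (V × (V × ℝ))) × V =>
        k (z.1.2.1 + z.1.2.2.2 • z.1.2.2.1 + z.1.1 • z.2)) LU (𝓝 (k (x + r₀ • u₀))) := by
      have h2 := (T2.add (T4.smul T3)).add (T1.smul T5)
      rw [zero_smul, add_zero] at h2
      exact (hk.tendsto _).comp h2
    exact ⟨1, one_pos, (c2.eventually_lt c1 h1).mono fun z hz => hz.le⟩
  obtain ⟨c, hc, hc'⟩ := hw _ hσ₀ hk0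
  refine ⟨c, hc, ?_⟩
  have hall : Tendsto (fun z : (ℝ × (V × (V × ℝ))) × V =>
      (((), (z.1.2.1 + z.1.1 • z.2, (z.1.2.2.1, z.1.2.2.2))) : Unit × (V × (V × ℝ)))) LU
      (⊤ ×ˢ (𝓝 (x + r₀ • u₀) ×ˢ (𝓝 w ×ˢ 𝓝[>] (0 : ℝ)))) :=
    tendsto_top.prodMk ((T2.add (T1.smul T5)).prodMk (T3.prodMk T4'))
  filter_upwards [hall.eventually hc', T6, T7] with z hq h6 h7
  have h5 : ‖z.1.1 • z.2‖ ≤ z.1.1 := by
    rw [mem_closedBall_zero_iff] at h6
    rw [norm_smul, Real.norm_eq_abs, abs_of_nonneg h7]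
    nlinarith
  have h8 := Ero_ge hk h5 z.1.2.1
  have h9 : z.1.2.1 + z.1.2.2.2 • z.1.2.2.1 + z.1.1 • z.2 =
      z.1.2.1 + z.1.1 • z.2 + z.1.2.2.2 • z.1.2.2.1 := by abel
  rw [h9]
  exact hq.trans (by linarith)

/-- PROOF. The zero set of `k` is compact and `Desc1 k z w` is an open condition on `z` (for fixed `w`),
so there is `δ₀ > 0` such that for every zero `z₀` there is `w` with `Desc1 k z w` for all zeros `z` with
`‖z - z₀‖ ≤ 2 δ₀` (Lebesgue number; by contradiction with sequences or `lebesgue_number_lemma`). For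
`ero k r x = 0`, `r ≤ δ₀`, take a zero `z₀ = x + u₀`; all contacts `x + u` are within `2 δ₀` of `z₀`; `ero_desc`.
`Hom.of_family` on `[0, δ]`. -/
theorem ero_hom {k : V → ℝ} (hk : Good k) (hb : Bornology.IsBounded {x | k x ≤ 0}) :
    ∃ δ₀ : ℝ, 0 < δ₀ ∧ ∀ δ : ℝ, 0 < δ → δ < δ₀ →
      Hom k (ero k δ) ∧ Bornology.IsBounded {x | ero k δ x ≤ 0} := by
  have hZ : IsCompact {x | k x = 0} :=
    Metric.isCompact_of_isClosed_isBounded (isClosed_singleton.preimage hk.cont) hk.bdd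
  obtain ⟨δ, hδ, hL⟩ := lebesgue_number_lemma_of_metric (c := fun w : V => {y | Desc1 k y w}) hZ
    (fun w => isOpen_iff_mem_nhds.2 fun y hy => Desc.near hy)
    (fun z hz => by
      obtain ⟨w, hw⟩ := hk.desc z hz
      exact mem_iUnion.2 ⟨w, hw⟩)
  refine ⟨δ / 2, by positivity, fun r hr0 hr1 => ?_⟩
  have hle : ∀ (t : ℝ), 0 ≤ t → ∀ x, k x ≤ ero k t x := by
    intro t ht x
    have := Ero_ge hk.cont (r := t) (u := 0) (by rw [norm_zero]; exact ht) x
    rwa [add_zero] at this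
  refine ⟨?_, hb.subset fun x hx => (hle r hr0.le x).trans hx⟩
  obtain ⟨R, hR⟩ := hb.subset_closedBall (0 : V)
  have h := Hom.of_family hr0.le (fun t => ero k t) (ero_continuous hk.cont).continuousOn
    ⟨R, fun t ht x hx => ?_⟩ fun t ht x hx => ?_
  · have h1 : ero k 0 = k := funext fun x => ero_zero k x
    rwa [h1] at h
  · have h1 : x ∈ {x | k x ≤ 0} := (hle t ht.1 x).trans hx.le
    exact mem_closedBall_zero_iff.1 (hR h1)
  · obtain ⟨u₀, hu₀, h1⟩ := ero_attained hk.cont ht.1 x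
    rw [hx] at h1
    obtain ⟨w, hw⟩ := hL (x + u₀) h1
    refine ⟨w, ero_desc hk.cont ht.1 hx (fun u hu h2 => hw ?_) nhdsWithin_le_nhds ?_⟩
    · rw [Metric.mem_ball, dist_eq_norm, add_sub_add_left_eq_sub]
      have := norm_sub_le u u₀
      linarith [ht.2]
    · filter_upwards [self_mem_nhdsWithin] with s hs
      exact hs.1

end Pool.Schoen
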