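import Pool.Agent.H.MP_6c077c_gt.Lz.LineDef
import Pool.Agent.H.MP_6c077c_gt.Lz.Ero

/-! Room theorem: erosion of a body which is convex in one direction. -/

set_option autoImplicit false

namespace Pool.Schoen

open Filter Set
open scoped Topology RealInnerProductSpace ContDiff

section aux

variable {V : Type*} [NormedAddCommGroup V] [InnerProductSpace ℝ V]

/-- A functional which is not positive on an open half space. -/
private theorem Erode_functional {L : V →L[ℝ] ℝ} {u : V} (hu : u ≠ 0)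
    (h : ∀ w, ⟪u, w⟫ < 0 → L w ≤ 0) : ∃ c : ℝ, 0 ≤ c ∧ ∀ w, L w = c * ⟪u, w⟫ := by
  have hn : 0 < ⟪u, u⟫ := by
    rw [real_inner_self_eq_norm_sq]
    have : 0 < ‖u‖ := norm_pos_iff.2 hu
    positivity
  have key : ∀ w, ⟪u, w⟫ = 0 → L w ≤ 0 := by
    intro w hw
    by_contra hc
    push Not at hc
    have ha : 0 < |L u| + 1 := by positivity
    set ε := L w / (2 * (|L u| + 1)) with hε
    have hε0 : 0 < ε := by positivity
    have h1 := h (w - ε • u) (by
      rw [inner_sub_right, inner_smul_right, hw]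
      have := mul_pos hε0 hn
      linarith)
    rw [map_sub, map_smul, smul_eq_mul] at h1
    have h2 : ε * L u ≤ L w / 2 := by
      calc ε * L u ≤ ε * (|L u| + 1) := by
            refine mul_le_mul_of_nonneg_left ?_ hε0.le
            linarith [le_abs_self (L u)]
        _ = L w / 2 := by
            rw [hε]
            field_simp
    linarith
  have hz : ∀ w, ⟪u, w⟫ = 0 → L w = 0 := by
    intro w hw
    refine le_antisymm (key w hw) ?_
    have h1 := key (-w) (by rw [inner_neg_right, hw, neg_zero])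
    rw [map_neg] at h1
    linarith
  refine ⟨L u / ⟪u, u⟫, ?_, fun w => ?_⟩
  · have h1 := h (-u) (by rw [inner_neg_right]; linarith)
    rw [map_neg] at h1
    exact div_nonneg (by linarith) hn.le
  · have h1 := hz (w - (⟪u, w⟫ / ⟪u, u⟫) • u) (by
      rw [inner_sub_right, inner_smul_right, div_mul_cancel₀ _ hn.ne', sub_self])
    rw [map_sub, map_smul, smul_eq_mul] at h1
    have h2 : L w = ⟪u, w⟫ / ⟪u, u⟫ * L u := by linarith
    rw [h2]
    ring

/-- Nonpositive values along a ray. -/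
private theorem Erode_slope {G : V → ℝ} {y w : V} (hG : DifferentiableAt ℝ G y) (h0 : G y = 0)
    (h : ∀ᶠ s in 𝓝[>] (0 : ℝ), G (y + s • w) ≤ 0) : fderiv ℝ G y w ≤ 0 := by
  have hl : HasDerivAt (fun s : ℝ => G (y + s • w)) (fderiv ℝ G y w) 0 := by
    have h1 : HasDerivAt (fun s : ℝ => y + s • w) w 0 := by
      simpa using ((hasDerivAt_id (0 : ℝ)).smul_const w).const_add y
    have h2 : HasFDerivAt G (fderiv ℝ G y) (y + (0 : ℝ) • w) := by
      rw [zero_smul, add_zero]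
      exact hG.hasFDerivAt
    exact h2.comp_hasDerivAt (0 : ℝ) h1
  refine le_of_tendsto hl.tendsto_slope_zero_right ?_
  filter_upwards [h, self_mem_nhdsWithin] with s h1 h2
  have h2 : 0 < s := h2
  rw [zero_add, zero_smul, add_zero, h0, sub_zero, smul_eq_mul]
  exact mul_nonpos_of_nonneg_of_nonpos (inv_pos.2 h2).le h1

/-- The ball of radius `δ` about `x` lies in `{k ≤ 0}`. -/
private def Erode_in (k : V → ℝ) (δ : ℝ) (x : V) : Prop := ∀ u : V, ‖u‖ ≤ δ → k (x + u) ≤ 0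

private theorem Erode_ray (y w : V) : Tendsto (fun s : ℝ => y + s • w) (𝓝[>] 0) (𝓝 y) := by
  have h1 : Continuous fun s : ℝ => y + s • w := by fun_prop
  have h2 := h1.tendsto 0
  simp only [zero_smul, add_zero] at h2
  exact h2.mono_left nhdsWithin_le_nhds

private theorem Erode_mult {k G : V → ℝ} {δ : ℝ} {x u : V} (hδ : 0 < δ) (hx : Erode_in k δ x)
    (hu : ‖u‖ = δ) (hG : DifferentiableAt ℝ G (x + u)) (h0 : G (x + u) = 0)
    (hle : ∀ᶠ z in 𝓝 (x + u), G z ≤ k z) (hne : fderiv ℝ G (x + u) ≠ 0) :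
    ∃ c : ℝ, 0 < c ∧ ∀ w, fderiv ℝ G (x + u) w = c * ⟪u, w⟫ := by
  have hu0 : u ≠ 0 := by
    rintro rfl
    rw [norm_zero] at hu
    exact hδ.ne hu
  obtain ⟨c, hc, h⟩ : ∃ c : ℝ, 0 ≤ c ∧ ∀ w, fderiv ℝ G (x + u) w = c * ⟪u, w⟫ := by
    refine Erode_functional hu0 fun w hw => Erode_slope hG h0 ?_
    have hsmall : ∀ᶠ s : ℝ in 𝓝[>] 0, s * ‖w‖ ^ 2 < -(2 * ⟪u, w⟫) := by
      have h1 : Tendsto (fun s : ℝ => s * ‖w‖ ^ 2) (𝓝[>] 0) (𝓝 0) := by
        have h2 : Continuous fun s : ℝ => s * ‖w‖ ^ 2 := by fun_prop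
        have h3 := h2.tendsto 0
        simp only [zero_mul] at h3
        exact h3.mono_left nhdsWithin_le_nhds
      exact h1.eventually (gt_mem_nhds (by linarith))
    filter_upwards [(Erode_ray (x + u) w).eventually hle, self_mem_nhdsWithin, hsmall] with s h1 h2 h3
    have h2 : 0 < s := h2
    refine h1.trans ?_
    rw [add_assoc]
    refine hx _ ?_
    have h4 : ‖u + s • w‖ ^ 2 ≤ δ ^ 2 := by
      rw [norm_add_sq_real, inner_smul_right, norm_smul, Real.norm_eq_abs, mul_pow, sq_abs, hu]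
      nlinarith
    exact (sq_le_sq₀ (norm_nonneg _) hδ.le).1 h4
  refine ⟨c, lt_of_le_of_ne hc ?_, h⟩
  rintro rfl
  apply hne
  ext w
  rw [h w, zero_mul]
  rfl

/-- The data. -/
private structure ErodeD (F ψ k : V → ℝ) (η δ C : ℝ) (v : V) : Prop where
  hF : ContDiff ℝ ∞ F
  hne : ∀ x, F x = 0 → fderiv ℝ F x ≠ 0
  hψ : UConv ψ η
  hψr : ∀ x, ψ x = 0 → fderiv ℝ ψ x ≠ 0
  hk : Good k
  hloc : ∀ x, k x = 0 → k =ᶠ[𝓝 x] fun y => max (F y) (ψ y)
  hconv : ∀ (x : V) (r t : ℝ), 0 ≤ r → r ≤ t → k x ≤ 0 → k (x + t • v) ≤ 0 → k (x + r • v) ≤ 0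
  hδ : 0 < δ
  tay : ∀ x w, F x = 0 → ‖w‖ ≤ 2 * δ → F (x + w) ≤ fderiv ℝ F x w + C * ‖w‖ ^ 2
  low : ∀ x, F x = 0 → 2 * C * δ < ‖fderiv ℝ F x‖
  hv : v ≠ 0

variable {F ψ k : V → ℝ} {η δ C : ℝ} {v : V}

private theorem ErodeD.flip (D : ErodeD F ψ k η δ C v) : ErodeD F ψ k η δ C (-v) := by
  refine { D with hconv := ?_, hv := neg_ne_zero.2 D.hv }
  intro x r t hr hrt h0 h1
  have h2 := D.hconv (x + t • -v) (t - r) t (by linarith) (by linarith) h1 (by
    have e : x + t • -v + t • v = x := by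
      rw [smul_neg]
      abel
    rw [e]
    exact h0)
  have e : x + t • -v + (t - r) • v = x + r • -v := by
    rw [smul_neg, smul_neg, sub_smul]
    abel
  rwa [e] at h2

private theorem ErodeD.norm (D : ErodeD F ψ k η δ C v) {x u : V} (hx : Erode_in k δ x)
    (hu : ‖u‖ ≤ δ) (hz : k (x + u) = 0) : ‖u‖ = δ := by
  by_contra hne
  have hlt : ‖u‖ < δ := lt_of_le_of_ne hu hne
  obtain ⟨z, hz0, hzd⟩ := Metric.mem_closure_iff.1 (D.hk.zero_closure hz) (δ - ‖u‖) (by linarith)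
  have h2 : ‖z - x‖ ≤ δ := by
    have e : z - x = u + (z - (x + u)) := by abel
    rw [e]
    rw [dist_comm, dist_eq_norm] at hzd
    exact (norm_add_le _ _).trans (by linarith)
  have h3 := hx (z - x) h2
  rw [add_sub_cancel] at h3
  exact absurd h3 (not_le.2 hz0)

private theorem ErodeD.le (D : ErodeD F ψ k η δ C v) {y : V} (hz : k y = 0) :
    (∀ᶠ z in 𝓝 y, F z ≤ k z) ∧ (∀ᶠ z in 𝓝 y, ψ z ≤ k z) ∧ max (F y) (ψ y) = 0 := by
  have h := D.hloc y hz
  refine ⟨?_, ?_, ?_⟩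
  · filter_upwards [h] with z hz
    rw [hz]
    exact le_max_left _ _
  · filter_upwards [h] with z hz
    rw [hz]
    exact le_max_right _ _
  · have h1 := h.self_of_nhds
    rw [hz] at h1
    exact h1.symm

private theorem ErodeD.multF (D : ErodeD F ψ k η δ C v) {x u : V} (hx : Erode_in k δ x)
    (hu : ‖u‖ ≤ δ) (hz : k (x + u) = 0) (h0 : F (x + u) = 0) :
    ∃ c : ℝ, 0 < c ∧ ∀ w, fderiv ℝ F (x + u) w = c * ⟪u, w⟫ :=
  Erode_mult D.hδ hx (D.norm hx hu hz) ((D.hF.differentiable (by simp)) _) h0 (D.le hz).1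
    (D.hne _ h0)

private theorem ErodeD.multψ (D : ErodeD F ψ k η δ C v) {x u : V} (hx : Erode_in k δ x)
    (hu : ‖u‖ ≤ δ) (hz : k (x + u) = 0) (h0 : ψ (x + u) = 0) :
    ∃ c : ℝ, 0 < c ∧ ∀ w, fderiv ℝ ψ (x + u) w = c * ⟪u, w⟫ :=
  Erode_mult D.hδ hx (D.norm hx hu hz) ((D.hψ.smooth.differentiable (by simp)) _) h0
    (D.le hz).2.1 (D.hψr _ h0)

/-- Steps (1) and (2). -/
private theorem ErodeD.desc (D : ErodeD F ψ k η δ C v) {x u w : V} (hx : Erode_in k δ x)
    (hu : ‖u‖ ≤ δ) (hz : k (x + u) = 0) (hw : ⟪u, w⟫ < 0) : Desc1 k (x + u) w := by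
  obtain ⟨-, -, hm⟩ := D.le hz
  have hloc := D.hloc _ hz
  have hFc : ContDiffAt ℝ 1 F (x + u) := (D.hF.of_le (by norm_cast)).contDiffAt
  have hψc : ContDiffAt ℝ 1 ψ (x + u) := (D.hψ.smooth.of_le (by norm_cast)).contDiffAt
  have d1 : F (x + u) = 0 → Desc1 F (x + u) w := fun h0 => by
    obtain ⟨c, hc, h⟩ := D.multF hx hu hz h0
    refine desc1_smooth hFc ?_
    rw [h]
    exact mul_neg_of_pos_of_neg hc hw
  have d2 : ψ (x + u) = 0 → Desc1 ψ (x + u) w := fun h0 => by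
    obtain ⟨c, hc, h⟩ := D.multψ hx hu hz h0
    refine desc1_smooth hψc ?_
    rw [h]
    exact mul_neg_of_pos_of_neg hc hw
  have hmax : Desc1 (fun y => max (F y) (ψ y)) (x + u) w := by
    have hF0 : F (x + u) ≤ 0 := hm ▸ le_max_left _ _
    have hψ0 : ψ (x + u) ≤ 0 := hm ▸ le_max_right _ _
    rcases hF0.eq_or_lt with h1 | h1 <;> rcases hψ0.eq_or_lt with h2 | h2
    · exact desc1_max (d1 h1) (d2 h2)
    · exact desc1_max_left D.hF.continuous.continuousAt D.hψ.smooth.continuous.continuousAt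
        (d1 h1) (by rw [h1]; exact h2)
    · exact desc1_max_right D.hF.continuous.continuousAt D.hψ.smooth.continuous.continuousAt
        (d2 h2) (by rw [h2]; exact h1)
    · exact absurd hm (max_lt h1 h2).ne
  exact hmax.congr (hloc.mono fun y hy => hy.symm)

/-- Step (3). -/
private theorem ErodeD.unique (D : ErodeD F ψ k η δ C v) {x u u' : V} (hx : Erode_in k δ x)
    (hu : ‖u‖ ≤ δ) (hz : k (x + u) = 0) (h0 : F (x + u) = 0) (hu' : ‖u'‖ ≤ δ)
    (hz' : k (x + u') = 0) (h0' : F (x + u') = 0) : u = u' := by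
  by_contra hne
  obtain ⟨c, hc, h⟩ := D.multF hx hu hz h0
  have hn := D.norm hx hu hz
  have hn' := D.norm hx hu' hz'
  have hd : 0 < ‖u' - u‖ := norm_pos_iff.2 (sub_ne_zero.2 (Ne.symm hne))
  have h1 := D.tay (x + u) (u' - u) h0 (by
    refine (norm_sub_le _ _).trans ?_
    rw [hn, hn']
    linarith)
  have e : x + u + (u' - u) = x + u' := by abel
  rw [e, h0', h] at h1
  have h2 : ⟪u, u' - u⟫ = -(‖u' - u‖ ^ 2 / 2) := by
    rw [norm_sub_sq_real, inner_sub_right, real_inner_self_eq_norm_sq, hn, hn',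
      real_inner_comm u u']
    ring
  rw [h2] at h1
  have h3 : 0 < ‖u' - u‖ ^ 2 := by positivity
  have h4 : c ≤ 2 * C := by
    by_contra hcon
    push Not at hcon
    nlinarith
  have h5 : ‖fderiv ℝ F (x + u)‖ ≤ c * δ := by
    refine ContinuousLinearMap.opNorm_le_bound _ (mul_nonneg hc.le D.hδ.le) fun w => ?_
    rw [h w, norm_mul, Real.norm_of_nonneg hc.le, mul_assoc]
    refine mul_le_mul_of_nonneg_left ?_ hc.le
    rw [← hn]
    exact abs_real_inner_le_norm u w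
  have h6 := D.low _ h0
  have h7 := mul_le_mul_of_nonneg_right h4 D.hδ.le
  linarith

/-- The half of step (4) and step (5) for one direction. -/
private theorem ErodeD.one (D : ErodeD F ψ k η δ C v) {x u : V} (hx : Erode_in k δ x)
    (hu : ‖u‖ ≤ δ) (hz : k (x + u) = 0) {ℓ : ℝ} (hℓ : 0 < ℓ) (hh : k (x + u + ℓ • v) ≤ 0) :
    ⟪u, v⟫ ≤ 0 ∧ (F (x + u) ≠ 0 → ⟪u, v⟫ < 0) ∧ (ψ (x + u) = 0 → ⟪u, v⟫ < 0) := by
  obtain ⟨l1, l2, hm⟩ := D.le hz
  have hray : ∀ᶠ s in 𝓝[>] (0 : ℝ), k (x + u + s • v) ≤ 0 := by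
    filter_upwards [Ioc_mem_nhdsGT hℓ] with s hs
    exact D.hconv _ s ℓ hs.1.le hs.2 hz.le hh
  have hψ : ψ (x + u) = 0 → ⟪u, v⟫ < 0 := by
    intro h0
    obtain ⟨c, hc, h⟩ := D.multψ hx hu hz h0
    obtain ⟨s, h1, h3⟩ := ((hray.and ((Erode_ray (x + u) v).eventually l2)).and
      self_mem_nhdsWithin).exists
    have h3 : 0 < s := h3
    have h4 := D.hψ.conv (x + u) (x + u + s • v)
    rw [add_sub_cancel_left, h0, map_smul, h, smul_eq_mul] at h4
    have h5 : ψ (x + u + s • v) ≤ 0 := h1.2.trans h1.1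
    have h6 : 0 < η * ‖s • v‖ ^ 2 := by
      have : 0 < ‖s • v‖ := norm_pos_iff.2 (smul_ne_zero h3.ne' D.hv)
      have := D.hψ.pos
      positivity
    have h7 : s * c * ⟪u, v⟫ < 0 := by nlinarith
    by_contra hcon
    have h8 := mul_nonneg (mul_nonneg h3.le hc.le) (not_lt.1 hcon)
    linarith
  have hor : F (x + u) ≠ 0 → ψ (x + u) = 0 := by
    intro hF
    rcases max_choice (F (x + u)) (ψ (x + u)) with h | h
    · rw [hm] at h
      exact absurd h.symm hF
    · rw [hm] at h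
      exact h.symm
  refine ⟨?_, fun h => hψ (hor h), hψ⟩
  by_cases h0 : F (x + u) = 0
  · obtain ⟨c, hc, h⟩ := D.multF hx hu hz h0
    have h1 := Erode_slope ((D.hF.differentiable (by simp)) _) h0 (w := v) (by
      filter_upwards [hray, (Erode_ray (x + u) v).eventually l1] with s h1 h2
      exact h2.trans h1)
    rw [h] at h1
    exact nonpos_of_mul_nonpos_right h1 hc
  · exact (hψ (hor h0)).le

private theorem ErodeD.mem (D : ErodeD F ψ k η δ C v) {x : V} {r t : ℝ} (hr : 0 ≤ r) (hrt : r ≤ t)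
    (h0 : Erode_in k δ x) (h1 : Erode_in k δ (x + t • v)) : Erode_in k δ (x + r • v) := by
  intro u hu
  have e1 : x + t • v + u = x + u + t • v := by abel
  have e2 : x + r • v + u = x + u + r • v := by abel
  have h2 := h1 u hu
  rw [e1] at h2
  rw [e2]
  exact D.hconv _ r t hr hrt (h0 u hu) h2

/-- Step (4). -/
private theorem ErodeD.between (D : ErodeD F ψ k η δ C v) {x : V} {r t : ℝ} (hr : 0 < r)
    (hrt : r < t) (h0 : Erode_in k δ x) (h1 : Erode_in k δ (x + t • v)) {u : V} (hu : ‖u‖ ≤ δ)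
    (hz : k (x + r • v + u) = 0) :
    ⟪u, v⟫ = 0 ∧ F (x + r • v + u) = 0 ∧ (k (x + u) = 0 ∨ k (x + t • v + u) = 0) := by
  have hx := D.mem hr.le hrt.le h0 h1
  have e1 : x + r • v + u + (t - r) • v = x + t • v + u := by
    rw [sub_smul]
    abel
  have e2 : x + r • v + u + r • -v = x + u := by
    rw [smul_neg]
    abel
  have a1 := D.one hx hu hz (ℓ := t - r) (by linarith) (by rw [e1]; exact h1 u hu)
  have a2 := D.flip.one hx hu hz (ℓ := r) hr (by rw [e2]; exact h0 u hu)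
  rw [inner_neg_right] at a2
  have hv0 : ⟪u, v⟫ = 0 := by linarith [a1.1, a2.1]
  have hF0 : F (x + r • v + u) = 0 := by
    by_contra hcon
    have := a1.2.1 hcon
    linarith
  refine ⟨hv0, hF0, ?_⟩
  by_contra hcon
  push Not at hcon
  have b1 : k (x + u) < 0 := lt_of_le_of_ne (h0 u hu) hcon.1
  have b2 : k (x + t • v + u) < 0 := lt_of_le_of_ne (h1 u hu) hcon.2
  obtain ⟨c, hc, h⟩ := D.multF hx hu hz hF0
  have h2 := Erode_slope ((D.hF.differentiable (by simp)) (x + r • v + u)) hF0 (w := u) (by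
    have c1 := (D.hk.cont.tendsto _).comp (Erode_ray (x + u) u)
    have c2 := (D.hk.cont.tendsto _).comp (Erode_ray (x + t • v + u) u)
    filter_upwards [c1.eventually (gt_mem_nhds b1), c2.eventually (gt_mem_nhds b2),
      (Erode_ray (x + r • v + u) u).eventually (D.le hz).1] with s s1 s2 s3
    simp only [Function.comp_apply] at s1 s2
    refine s3.trans ?_
    have e3 : x + r • v + u + s • u = x + u + s • u + r • v := by abel
    have e4 : x + t • v + u + s • u = x + u + s • u + t • v := by abel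
    rw [e4] at s2
    rw [e3]
    exact D.hconv _ r t hr.le hrt.le s1.le s2.le)
  rw [h, real_inner_self_eq_norm_sq, D.norm hx hu hz] at h2
  have := D.hδ
  have : 0 < c * δ ^ 2 := by positivity
  linarith

end aux

variable {V : Type*} [NormedAddCommGroup V] [InnerProductSpace ℝ V] [FiniteDimensional ℝ V]

/-- Step (5) and the choice of the direction at an end point. -/
private theorem ErodeD.side {F ψ k : V → ℝ} {η δ C : ℝ} {v : V} (D : ErodeD F ψ k η δ C v) {x : V}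
    {ℓ : ℝ} (hℓ : 0 < ℓ) (h0 : Erode_in k δ x) (h1 : Erode_in k δ (x + ℓ • v)) {u₀ : V}
    (hu₀ : ‖u₀‖ ≤ δ) (hz₀ : k (x + u₀) = 0) (hF₀ : F (x + u₀) = 0) (hv₀ : ⟪u₀, v⟫ = 0) :
    ∃ a : ℝ, 0 ≤ a ∧ ∀ u, ‖u‖ ≤ δ → k (x + u) = 0 → Desc1 k (x + u) (-u₀ + a • v) := by
  have hn₀ := D.norm h0 hu₀ hz₀
  have hother : ∀ u, ‖u‖ ≤ δ → k (x + u) = 0 → u ≠ u₀ → ⟪u, v⟫ < 0 := by
    intro u hu hz hne
    have e : x + ℓ • v + u = x + u + ℓ • v := by abel
    refine (D.one h0 hu hz hℓ (by rw [← e]; exact h1 u hu)).2.1 fun hF => hne ?_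
    exact D.unique h0 hu hz hF hu₀ hz₀ hF₀
  suffices h : ∃ a : ℝ, 0 ≤ a ∧ ∀ u, ‖u‖ ≤ δ → k (x + u) = 0 → ⟪u, -u₀ + a • v⟫ < 0 by
    obtain ⟨a, ha, h⟩ := h
    exact ⟨a, ha, fun u hu hz => D.desc h0 hu hz (h u hu hz)⟩
  have : ProperSpace V := FiniteDimensional.proper ℝ V
  set S : Set V := Metric.closedBall 0 δ ∩ {u | k (x + u) = 0 ∧ ⟪u, u₀⟫ ≤ 0} with hS
  have hSc : IsCompact S := by
    refine (isCompact_closedBall (0 : V) δ).inter_right (IsClosed.inter ?_ ?_)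
    · exact isClosed_eq (D.hk.cont.comp (continuous_const.add continuous_id)) continuous_const
    · have hc1 : Continuous fun u : V => ⟪u, u₀⟫ := continuous_id.inner continuous_const
      exact isClosed_le hc1 continuous_const
  have hδ := D.hδ
  have hSu : ∀ u ∈ S, ‖u‖ ≤ δ ∧ k (x + u) = 0 ∧ ⟪u, u₀⟫ ≤ 0 := fun u hu =>
    ⟨mem_closedBall_zero_iff.1 hu.1, hu.2⟩
  have hSne : ∀ u ∈ S, u ≠ u₀ := by
    rintro u hu rfl
    have h2 := (hSu u hu).2.2
    rw [real_inner_self_eq_norm_sq, hn₀] at h2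
    have : 0 < δ ^ 2 := by positivity
    linarith
  have hin : ∀ (a : ℝ) (u : V), ⟪u, -u₀ + a • v⟫ = -⟪u, u₀⟫ + a * ⟪u, v⟫ := by
    intro a u
    rw [inner_add_right, inner_neg_right, inner_smul_right]
  have hle : ∀ u, ‖u‖ ≤ δ → k (x + u) = 0 → ⟪u, v⟫ ≤ 0 := by
    intro u hu hz
    by_cases h : u = u₀
    · rw [h, hv₀]
    · exact (hother u hu hz h).le
  rcases S.eq_empty_or_nonempty with hE | hE
  · refine ⟨0, le_rfl, fun u hu hz => ?_⟩
    rw [hin, zero_mul, add_zero, neg_lt_zero]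
    by_contra hcon
    have hm : u ∈ S := ⟨mem_closedBall_zero_iff.2 hu, hz, not_lt.1 hcon⟩
    rw [hE] at hm
    exact hm
  · have hcv : Continuous fun u : V => ⟪u, v⟫ := continuous_id.inner continuous_const
    obtain ⟨u₁, hu₁, hmax⟩ := hSc.exists_isMaxOn hE hcv.continuousOn
    obtain ⟨b1, b2, b3⟩ := hSu u₁ hu₁
    have hm := hother u₁ b1 b2 (hSne u₁ hu₁)
    set m := -⟪u₁, v⟫ with hmd
    have hm0 : 0 < m := by linarith
    refine ⟨(δ ^ 2 + 1) / m, by positivity, fun u hu hz => ?_⟩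
    rw [hin]
    by_cases hc : ⟪u, u₀⟫ ≤ 0
    · have h2 : ⟪u, v⟫ ≤ -m := by
        have h3 : ⟪u, v⟫ ≤ ⟪u₁, v⟫ := hmax ⟨mem_closedBall_zero_iff.2 hu, hz, hc⟩
        linarith
      have h3 : (δ ^ 2 + 1) / m * ⟪u, v⟫ ≤ (δ ^ 2 + 1) / m * -m :=
        mul_le_mul_of_nonneg_left h2 (by positivity)
      have h4 : (δ ^ 2 + 1) / m * -m = -(δ ^ 2 + 1) := by
        field_simp
      have h5 : -⟪u, u₀⟫ ≤ δ ^ 2 := by
        have h6 := (abs_le.1 (abs_real_inner_le_norm u u₀)).1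
        have h7 : ‖u‖ * ‖u₀‖ ≤ δ * δ := mul_le_mul hu hu₀ (norm_nonneg _) hδ.le
        nlinarith
      linarith
    · have h2 : (δ ^ 2 + 1) / m * ⟪u, v⟫ ≤ 0 :=
        mul_nonpos_of_nonneg_of_nonpos (by positivity) (hle u hu hz)
      push Not at hc
      linarith

/-- The window property. -/
private theorem ErodeD.win {F ψ k : V → ℝ} {η δ C : ℝ} {v : V} (D : ErodeD F ψ k η δ C v)
    (hK : Good (ero k δ)) : WinV (ero k δ) v := by
  have hδ := D.hδ
  have hin : ∀ x, ero k δ x ≤ 0 ↔ Erode_in k δ x := fun x => ero_le_iff D.hk.cont hδ.le x 0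
  have hdesc : ∀ x w, ero k δ x = 0 → (∀ u : V, ‖u‖ ≤ δ → k (x + u) = 0 → Desc1 k (x + u) w) →
      Desc1 (ero k δ) x w := by
    intro x w hz hw
    exact (ero_desc D.hk.cont hδ.le hz hw (l := pure δ) (pure_le_nhds δ)
      (eventually_pure.2 hδ.le)).static le_rfl
  intro x t ht hpos
  set Z : Set ℝ := Icc (-t) t ∩ {s | ero k δ (x + s • v) = 0} with hZ
  have hcl : ∀ c : V, Continuous fun s : ℝ => x + s • v + c := fun c => by fun_prop
  have hZc : IsCompact Z := by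
    refine isCompact_Icc.inter_right (isClosed_eq (hK.cont.comp ?_) continuous_const)
    have := hcl 0
    simpa using this
  rcases Z.eq_empty_or_nonempty with hE | hE
  · refine ⟨0, fun s hs hz => ?_⟩
    have hm : s ∈ Z := ⟨abs_le.1 hs, hz⟩
    rw [hE] at hm
    exact absurd hm (notMem_empty s)
  obtain ⟨α, hα, hα'⟩ := hZc.exists_isLeast hE
  obtain ⟨β, hβ, hβ'⟩ := hZc.exists_isGreatest hE
  have hαβ : α ≤ β := hα' hβ
  rcases hαβ.eq_or_lt with hab | hab
  · obtain ⟨w, hw⟩ := hK.desc _ hα.2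
    refine ⟨w, fun s hs hz => ⟨0, ?_, fun _ => le_rfl, fun _ => le_rfl⟩⟩
    have hm : s ∈ Z := ⟨abs_le.1 hs, hz⟩
    have h1 : s = α := le_antisymm (by rw [hab]; exact hβ' hm) (hα' hm)
    rw [h1, zero_smul, add_zero]
    exact hw
  have iα : Erode_in k δ (x + α • v) := (hin _).1 (le_of_eq hα.2)
  have iβ : Erode_in k δ (x + β • v) := (hin _).1 (le_of_eq hβ.2)
  have eab : ∀ a b : ℝ, x + a • v + (b - a) • v = x + b • v := fun a b => by
    rw [sub_smul]
    abel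
  have imem : ∀ s, α ≤ s → s ≤ β → Erode_in k δ (x + s • v) := by
    intro s h1 h2
    have h3 := D.mem (x := x + α • v) (r := s - α) (t := β - α) (by linarith) (by linarith) iα
      (by rw [eab]; exact iβ)
    rwa [eab] at h3
  have hzero : ∀ s, α ≤ s → s ≤ β → ero k δ (x + s • v) = 0 := by
    intro s h1 h2
    refine le_antisymm ((hin _).2 (imem s h1 h2)) (hpos s (abs_le.2 ⟨?_, ?_⟩))
    · linarith [hα.1.1]
    · linarith [hβ.1.2]
  -- step (4) between two points of the segment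
  have hbet : ∀ a r b : ℝ, α ≤ a → a < r → r < b → b ≤ β → ∀ u : V, ‖u‖ ≤ δ →
      k (x + r • v + u) = 0 → ⟪u, v⟫ = 0 ∧ F (x + r • v + u) = 0 ∧
        (k (x + a • v + u) = 0 ∨ k (x + b • v + u) = 0) := by
    intro a r b h1 h2 h3 h4 u hu hz
    have h5 := D.between (x := x + a • v) (r := r - a) (t := b - a) (by linarith) (by linarith)
      (imem a h1 (by linarith)) (by rw [eab]; exact imem b (by linarith) h4) hu
      (by rw [eab]; exact hz)
    rw [eab, eab] at h5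
    exact h5
  have hcont : ∀ s, α ≤ s → s ≤ β → ∃ u : V, ‖u‖ ≤ δ ∧ k (x + s • v + u) = 0 := by
    intro s h1 h2
    obtain ⟨u, hu, h3⟩ := ero_attained D.hk.cont hδ.le (x + s • v)
    exact ⟨u, hu, by rw [h3, hzero s h1 h2]⟩
  have huniq : ∀ s, α < s → s < β → ∀ u u' : V, ‖u‖ ≤ δ → k (x + s • v + u) = 0 →
      ‖u'‖ ≤ δ → k (x + s • v + u') = 0 → u = u' := by
    intro s h1 h2 u u' hu hz hu' hz'
    exact D.unique (imem s h1.le h2.le) hu hz (hbet α s β le_rfl h1 h2 le_rfl u hu hz).2.1 hu' hz'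
      (hbet α s β le_rfl h1 h2 le_rfl u' hu' hz').2.1
  have hclk : ∀ u : V, IsClosed {s : ℝ | k (x + s • v + u) = 0} := fun u =>
    isClosed_eq (D.hk.cont.comp (hcl u)) continuous_const
  -- the contact vector is constant
  have hconst : ∀ s s', α < s → s < s' → s' < β → ∀ u u' : V, ‖u‖ ≤ δ →
      k (x + s • v + u) = 0 → ‖u'‖ ≤ δ → k (x + s' • v + u') = 0 → u = u' := by
    intro s s' h1 h2 h3 u u' hu hz hu' hz'
    have hsub : Icc s s' ⊆ {r | k (x + r • v + u) = 0} ∪ {r | k (x + r • v + u') = 0} := by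
      intro r hr
      rcases hr.1.eq_or_lt with h4 | h4
      · left
        rw [← h4]
        exact hz
      rcases hr.2.eq_or_lt with h5 | h5
      · right
        rw [h5]
        exact hz'
      obtain ⟨u₂, hu₂, hz₂⟩ := hcont r (by linarith) (by linarith)
      rcases (hbet s r s' h1.le h4 h5 h3.le u₂ hu₂ hz₂).2.2 with h6 | h6
      · left
        rw [huniq s h1 (by linarith) u u₂ hu hz hu₂ h6]
        exact hz₂
      · right
        rw [huniq s' (by linarith) h3 u' u₂ hu' hz' hu₂ h6]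
        exact hz₂
    obtain ⟨r, hr, hr1, hr2⟩ := isPreconnected_closed_iff.1 (isPreconnected_Icc (a := s) (b := s'))
      _ _ (hclk u) (hclk u') hsub ⟨s, ⟨le_rfl, h2.le⟩, hz⟩ ⟨s', ⟨h2.le, le_rfl⟩, hz'⟩
    exact huniq r (by linarith [hr.1]) (by linarith [hr.2]) u u' hu hr1 hu' hr2
  obtain ⟨u₀, hu₀, hz₀⟩ := hcont ((α + β) / 2) (by linarith) (by linarith)
  have hall : ∀ s, α < s → s < β → k (x + s • v + u₀) = 0 := by
    intro s h1 h2
    obtain ⟨u, hu, hz⟩ := hcont s h1.le h2.le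
    have h3 : u = u₀ := by
      rcases lt_trichotomy s ((α + β) / 2) with h | h | h
      · exact hconst s _ h1 h (by linarith) u u₀ hu hz hu₀ hz₀
      · rw [h] at hz
        exact huniq _ (by linarith) (by linarith) u u₀ hu hz hu₀ hz₀
      · exact (hconst _ s (by linarith) h h2 u₀ u hu₀ hz₀ hu hz).symm
    rw [← h3]
    exact hz
  have hv₀ : ⟪u₀, v⟫ = 0 :=
    (hbet α _ β le_rfl (by linarith) (by linarith) le_rfl u₀ hu₀ hz₀).1
  -- the end points
  have hclos : Icc α β ⊆ {s : ℝ | k (x + s • v + u₀) = 0} ∩ {s : ℝ | F (x + s • v + u₀) = 0} := by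
    rw [← closure_Ioo hab.ne]
    refine closure_minimal ?_ ((hclk u₀).inter
      (isClosed_eq (D.hF.continuous.comp (hcl u₀)) continuous_const))
    intro s hs
    have h1 := hall s hs.1 hs.2
    exact ⟨h1, (hbet α s β le_rfl hs.1 hs.2 le_rfl u₀ hu₀ h1).2.1⟩
  refine ⟨-u₀, fun s hs hz => ?_⟩
  have hm : s ∈ Z := ⟨abs_le.1 hs, hz⟩
  rcases (hα' hm).eq_or_lt with h1 | h1
  · -- the lower end
    subst h1
    obtain ⟨a, ha, h2⟩ := D.side (x := x + α • v) (ℓ := β - α) (by linarith) iα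
      (by rw [eab]; exact iβ) hu₀ (hclos ⟨le_rfl, hαβ⟩).1 (hclos ⟨le_rfl, hαβ⟩).2 hv₀
    refine ⟨a, hdesc _ _ hz h2, fun h3 => ?_, fun _ => ha⟩
    linarith [hβ.1.2]
  rcases (hβ' hm).eq_or_lt with h2 | h2
  · -- the upper end
    have h3 := D.flip.side (x := x + s • v) (ℓ := s - α) (by linarith) (by rw [h2]; exact iβ)
      (by
        have e : x + s • v + (s - α) • -v = x + α • v := by
          rw [smul_neg, sub_smul]
          abel
        rw [e]
        exact iα) hu₀ (hclos ⟨h1.le, h2.le⟩).1 (hclos ⟨h1.le, h2.le⟩).2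
      (by rw [inner_neg_right, hv₀, neg_zero])
    obtain ⟨a, ha, h3⟩ := h3
    refine ⟨-a, hdesc _ _ hz ?_, fun _ => by linarith, fun h4 => ?_⟩
    · have e : -u₀ + -a • v = -u₀ + a • -v := by rw [neg_smul, smul_neg]
      rw [e]
      exact h3
    · linarith [hα.1.1]
  · -- in between
    refine ⟨0, hdesc _ _ hz ?_, fun _ => le_rfl, fun _ => le_rfl⟩
    intro u hu hzu
    have h3 : u = u₀ := huniq s h1 h2 u u₀ hu hzu hu₀ (hall s h1 h2)
    rw [h3, zero_smul, add_zero]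
    refine D.desc (imem s h1.le h2.le) hu₀ (hall s h1 h2) ?_
    rw [inner_neg_right, real_inner_self_eq_norm_sq,
      D.norm (imem s h1.le h2.le) hu₀ (hall s h1 h2)]
    have : 0 < δ ^ 2 := by positivity
    linarith

/-- Second order Taylor bound on a compact zero set. -/
private theorem Erode_taylor {F : V → ℝ} (hF : ContDiff ℝ ∞ F) (hM : IsCompact {x | F x = 0}) :
    ∃ C : ℝ, 0 < C ∧ ∀ x w : V, F x = 0 → ‖w‖ ≤ 2 →
      F (x + w) ≤ fderiv ℝ F x w + C * ‖w‖ ^ 2 := by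
  have : ProperSpace V := FiniteDimensional.proper ℝ V
  obtain ⟨R, hR⟩ := (Metric.isBounded_iff_subset_closedBall (0 : V)).1 hM.isBounded
  have hs : ContDiff ℝ ∞ (fderiv ℝ F) := hF.fderiv_right (m := ∞) (by simp)
  obtain ⟨C₀, hC₀⟩ := (isCompact_closedBall (0 : V) (R + 2)).exists_bound_of_continuousOn
    (hs.continuous_fderiv (by simp)).continuousOn
  refine ⟨|C₀| + 1, by positivity, fun x w hx hw => ?_⟩
  have hxR : ‖x‖ ≤ R := mem_closedBall_zero_iff.1 (hR hx)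
  have hsub : Metric.closedBall x ‖w‖ ⊆ Metric.closedBall (0 : V) (R + 2) := by
    intro y hy
    rw [Metric.mem_closedBall, dist_eq_norm] at hy
    rw [mem_closedBall_zero_iff]
    have e : y = x + (y - x) := by abel
    rw [e]
    exact (norm_add_le _ _).trans (by linarith)
  have hxK : x ∈ Metric.closedBall (0 : V) (R + 2) :=
    hsub (Metric.mem_closedBall_self (norm_nonneg w))
  have hlip : ∀ y ∈ Metric.closedBall x ‖w‖, ‖fderiv ℝ F y - fderiv ℝ F x‖ ≤ |C₀| * ‖w‖ := by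
    intro y hy
    have h2 := (convex_closedBall (0 : V) (R + 2)).norm_image_sub_le_of_norm_fderiv_le
      (f := fderiv ℝ F) (C := C₀) (𝕜 := ℝ)
      (fun z _ => (hs.differentiable (by simp)) z) (fun z hz => hC₀ z hz) hxK (hsub hy)
    rw [Metric.mem_closedBall, dist_eq_norm] at hy
    calc ‖fderiv ℝ F y - fderiv ℝ F x‖ ≤ C₀ * ‖y - x‖ := h2
      _ ≤ |C₀| * ‖y - x‖ := by gcongr; exact le_abs_self _
      _ ≤ |C₀| * ‖w‖ := by gcongr
  have h3 := (convex_closedBall x ‖w‖).norm_image_sub_le_of_norm_hasFDerivWithin_le'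
    (f := F) (f' := fderiv ℝ F) (φ := fderiv ℝ F x) (C := |C₀| * ‖w‖) (x := x) (y := x + w)
    (fun y _ => ((hF.differentiable (by simp)) y).hasFDerivAt.hasFDerivWithinAt) hlip
    (Metric.mem_closedBall_self (norm_nonneg w))
    (by simp [Metric.mem_closedBall, dist_eq_norm])
  rw [add_sub_cancel_left, Real.norm_eq_abs, hx] at h3
  have h4 := (abs_le.1 h3).2
  nlinarith [sq_nonneg ‖w‖]

/-- PROOF. `K = ero k δ` for small `δ` (`ero_hom`, file `Lz/Ero`), so `{K ≤ 0}` is the set of `x` with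
`closedBall x δ ⊆ {k ≤ 0}` (again convex in the direction `v`). `C x = {u | ‖u‖ ≤ δ, k (x + u) = 0}`.

(0) If `K x = 0` and `k` descends along `w` at all `x + u`, `u ∈ C x`, then `K` descends along `w` at `x`
(`ero_desc`).
(1) `u ∈ C x` has `‖u‖ = δ` (`Good.zero_closure`: zeros of `k` are limits of `{0 < k}`).
(2) `u ∈ C x`, `y = x + u`: if `F y = 0` then `∇F y = λ u`, `λ > 0` (`F ≤ max F ψ = k ≤ 0` on the ball near
`y`); the same for `ψ`. So `k` descends at `y` along every `w` with `⟪w, u⟫ < 0`.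
(3) `u ∈ C x` is unique if `F (x + u) = 0`, provided `δ * L < 1`, `L` a Lipschitz constant of the unit
normal on the compact set `{F = 0}` (`u = δ N (x + u)`).
(4) Let `K x₁ ≤ 0`, `K x₂ ≤ 0`, `x` strictly between on a line parallel to `v`, `u ∈ C x`. Then `⟪u, v⟫ = 0`
(`y ± h v` is in the body, and `∇ ∥ u`), `ψ (x + u) < 0` (uniform convexity, `x₁ + u`, `x₂ + u` are in
`{ψ ≤ 0}`), so `F (x + u) = 0`; and `u ∈ C x₁ ∪ C x₂`: otherwise `k < 0` at `x₁ + u`, `x₂ + u`, also at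
`x₁ + (1 + h) u`, `x₂ + (1 + h) u` for small `h > 0`, but `k (x + (1 + h) u) > 0`, against convexity in the
direction `v`. So on an open zero segment `(x₁, x₂)` of `K` (`K = 0` on it) `C` is one horizontal
vector `u*` (by (3) the closed sets `{C = {u₁}}`, `{C = {u₂}}` cover a connected interval), and `u* ∈ C x₁`,
`C x₂` for the end points.
(5) Other `u ∈ C x₁`: `⟪u, v⟫ ≤ 0` as `x₁ + u + h v` is in the body for `0 ≤ h ≤ ‖x₂ - x₁‖`, and not `0`: `F (x₁ + u) < 0`
by (3), so `ψ (x₁ + u) = 0`, `∇ψ ∥ u`, and `ψ (x₁ + u + h v) ≥ η h ^ 2 > 0`. At `x₂`: `⟪u, v⟫ > 0`.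
(6) `WinV`: in a window with `K ≥ 0` the zeros are an interval `[α, β]`; if `α = β` take `w` a descent
direction of `K` and `a = 0`; if `α < β` take `w = - u*`, `a = 0` in between, `a` large positive at `α` (`α < t`),
large negative at `β` (`β > - t`). -/
theorem erode (n : ℕ) (hn : Module.finrank ℝ V = n + 1) {F ψ : V → ℝ} {η : ℝ}
    (hF : ContDiff ℝ ∞ F) (hreg : ∀ x, F x = 0 → gradient F x ≠ 0)
    (hMc : IsCompact {x | F x = 0}) (hψ : UConv ψ η) (hψr : ∀ x, ψ x = 0 → fderiv ℝ ψ x ≠ 0)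
    {k : V → ℝ} (hk : Good k) (hb : Bornology.IsBounded {x | k x ≤ 0})
    (hloc : ∀ x, k x = 0 → k =ᶠ[𝓝 x] fun y => max (F y) (ψ y)) {v : V} (hv : ‖v‖ = 1)
    (hconv : ∀ (x : V) (r t : ℝ), 0 ≤ r → r ≤ t → k x ≤ 0 → k (x + t • v) ≤ 0 →
      k (x + r • v) ≤ 0) :
    ∃ K : V → ℝ, Hom k K ∧ Bornology.IsBounded {x | K x ≤ 0} ∧ WinV K v := by
  obtain ⟨δ₀, hδ₀, hero⟩ := ero_hom hk hb
  obtain ⟨C, hC, htay⟩ := Erode_taylor hF hMc
  have hne : ∀ x, F x = 0 → fderiv ℝ F x ≠ 0 := by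
    intro x hx h
    apply hreg x hx
    rw [gradient, h, map_zero]
  obtain ⟨m, hm, hlow⟩ : ∃ m : ℝ, 0 < m ∧ ∀ x, F x = 0 → m ≤ ‖fderiv ℝ F x‖ := by
    rcases ({x | F x = 0} : Set V).eq_empty_or_nonempty with hE | hE
    · refine ⟨1, one_pos, fun x hx => ?_⟩
      have hx' : x ∈ {x | F x = 0} := hx
      rw [hE] at hx'
      exact absurd hx' (notMem_empty x)
    · obtain ⟨x₀, hx₀, hmin⟩ := hMc.exists_isMinOn hE
        (hF.continuous_fderiv (by simp)).norm.continuousOn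
      exact ⟨‖fderiv ℝ F x₀‖, norm_pos_iff.2 (hne x₀ hx₀), fun x hx => hmin hx⟩
  obtain ⟨δ, h1, h2, h3, h4⟩ : ∃ δ : ℝ, 0 < δ ∧ δ < δ₀ ∧ δ ≤ 1 ∧ 2 * C * δ < m := by
    refine ⟨min (δ₀ / 2) (min 1 (m / (4 * C))), by positivity, ?_, ?_, ?_⟩
    · exact (min_le_left _ _).trans_lt (by linarith)
    · exact (min_le_right _ _).trans (min_le_left _ _)
    · have h5 : min (δ₀ / 2) (min 1 (m / (4 * C))) ≤ m / (4 * C) :=
        (min_le_right _ _).trans (min_le_right _ _)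
      calc 2 * C * min (δ₀ / 2) (min 1 (m / (4 * C))) ≤ 2 * C * (m / (4 * C)) :=
            mul_le_mul_of_nonneg_left h5 (by positivity)
        _ = m / 2 := by
            field_simp
            ring
        _ < m := by linarith
  obtain ⟨h5, h6⟩ := hero δ h1 h2
  have hv0 : v ≠ 0 := by
    rintro rfl
    rw [norm_zero] at hv
    exact zero_ne_one hv
  have D : ErodeD F ψ k η δ C v :=
    { hF := hF
      hne := hne
      hψ := hψ
      hψr := hψr
      hk := hk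
      hloc := hloc
      hconv := hconv
      hδ := h1
      tay := fun x w hx hw => htay x w hx (by linarith)
      low := fun x hx => h4.trans_le (hlow x hx)
      hv := hv0 }
  exact ⟨ero k δ, h5, h6, D.win h5.good_right⟩

end Pool.Schoen
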