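import Pool.Agent.H.MP_6c077c_gt.Lz.LineOut
import Pool.Agent.H.MP_6c077c_gt.PP.Ind
import Pool.Agent.H.MP_6c077c_gt.Gd.BaseProd
import Pool.Agent.H.MP_6c077c_gt.Hx.Core

/-! Room theorem: bodies with the window property in one direction. -/

set_option autoImplicit false

namespace Pool.Schoen

open Filter Set
open scoped Topology RealInnerProductSpace ContDiff

variable {V : Type*} [NormedAddCommGroup V] [InnerProductSpace ℝ V] [FiniteDimensional ℝ V]

/-- Windows reduce a body with the window property to a cylinder over a body in dimension three;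
Alexander's theorem. -/
theorem line_core (hdim : Module.finrank ℝ V = 4)
    (hA : ∀ e : V, ‖e‖ = 1 → ∀ F : (ℝ ∙ e)ᗮ → ℝ, Dom F → IsPreconnected {x | 0 < F x} → IsBall F)
    {K : V → ℝ} (hK : Good K) (hb : Bornology.IsBounded {x | K x ≤ 0}) (hs : PSides K) {v : V}
    (hv : ‖v‖ = 1) (hw : WinV K v) : IsBall K := by
  obtain ⟨R, hR0, hR⟩ := hb.exists_pos_norm_lt
  have hR' : ∀ x, K x ≤ 0 → ‖x‖ < R := fun x hx => hR x hx
  have hhom := line_hom hK hR0 hR' hv hw
  obtain ⟨hmg, hmb⟩ := winM_good hK hR0 hR' hv hw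
  have hS := hs.hom (by omega) hhom
  set m := winM K v R with hm
  have hv0 : v ≠ 0 := by
    intro h
    rw [h, norm_zero] at hv
    exact zero_ne_one hv
  have hdE : Module.finrank ℝ (ℝ ∙ v)ᗮ = 3 := by
    have h1 := Submodule.finrank_add_finrank_orthogonal (ℝ ∙ v)
    rw [finrank_span_singleton hv0] at h1
    omega
  have hmc := hmg.cont
  -- topology of the base
  have hmem : ∀ y : (ℝ ∙ v)ᗮ, m y ≤ 0 → cyl m 0 R ((y : V) + (0 : ℝ) • v) ≤ 0 := by
    intro y hy
    unfold cyl
    rw [hpr_coe hv, inner_hpr hv, sub_self, abs_zero]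
    exact max_le hy (by linarith)
  have hconn : IsConnected {y | m y ≤ 0} := by
    have h1 : hpr v '' {x | cyl m 0 R x ≤ 0} = {y | m y ≤ 0} := by
      ext y
      constructor
      · rintro ⟨x, hx, rfl⟩
        exact (le_max_left _ _).trans (show max (m (hpr v x)) (|⟪v, x⟫ - 0| - R) ≤ 0 from hx)
      · intro hy
        exact ⟨(y : V) + (0 : ℝ) • v, hmem y hy, hpr_coe hv y 0⟩
    rw [← h1]
    exact hS.conn.image _ (hprL v).continuous.continuousOn
  have hlift : LiftS {y | m y ≤ 0} := by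
    intro u hu hu1
    have hmap : ∀ x, cyl m 0 R x ≤ 0 → m (hpr v x) ≤ 0 := fun x hx => (le_max_left _ _).trans hx
    obtain ⟨g, hg, hg'⟩ := hS.lift (fun x => u (hpr v x))
      (hu.comp (hprL v).continuous.continuousOn fun x hx => hmap x hx)
      (fun x hx => hu1 _ (hmap x hx))
    refine ⟨fun y => g ((y : V) + (0 : ℝ) • v), ?_, fun y hy => ?_⟩
    · have hc1 : Continuous fun y : (ℝ ∙ v)ᗮ => (y : V) + (0 : ℝ) • v := by fun_prop
      exact hg.comp hc1.continuousOn fun y hy => hmem y hy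
    · have h2 := hg' _ (hmem y hy)
      rw [hpr_coe hv] at h2
      exact h2
  have hout : IsPreconnected {y | 0 ≤ m y} := cyl_out hv hmc hR0 hS.olift
  -- Alexander
  obtain ⟨G, hG, hmG, hGreg⟩ := good_smooth _ hmg
  have hGO : IsPreconnected {y | 0 < G y} := hx_outE (by omega) hmG hmb hout
  have hGD : Dom G := ⟨hG, hmG.bdd hmb, hGreg, hmG.isConnected hmb hconn, hmG.liftS hmb hlift⟩
  have hball : IsBall m := hmG.trans (hA v hv G hGD hGO)
  exact hhom.trans (isBall_cyl hv hball 0 hR0)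

end Pool.Schoen
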