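import Pool.Agent.H.MP_6c077c_gt.Lz.Defs

/-! Room theorem: the window property in one direction. -/

set_option autoImplicit false

namespace Pool.Schoen

open Filter Set
open scoped Topology RealInnerProductSpace ContDiff

variable {V : Type*} [NormedAddCommGroup V] [InnerProductSpace ℝ V]

/-- The window property in the direction `v`: if the window `{x + s • v : |s| ≤ t}` does not meet
`{K < 0}`, there is a direction `w` such that at every zero of `K` in the window `K` descends along
`w + a • v` for some `a`, where `a ≤ 0` at the upper end and `0 ≤ a` at the lower end. -/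
def WinV (K : V → ℝ) (v : V) : Prop :=
  ∀ (x : V) (t : ℝ), 0 ≤ t → (∀ s, |s| ≤ t → 0 ≤ K (x + s • v)) →
    ∃ w : V, ∀ s, |s| ≤ t → K (x + s • v) = 0 →
      ∃ a : ℝ, Desc1 K (x + s • v) (w + a • v) ∧ (s = t → a ≤ 0) ∧ (s = -t → 0 ≤ a)

end Pool.Schoen
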