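import Pool.Agent.H.MP_6c077c_gt.Lz.Win
import Pool.Agent.H.MP_6c077c_gt.Lz.LineDef
import Pool.Agent.H.MP_6c077c_gt.Gd.BaseAux

/-! Room theorem: a body with the window property is homotopic to a cylinder. -/

set_option autoImplicit false

namespace Pool.Schoen

open Filter Set
open scoped Topology RealInnerProductSpace ContDiff

variable {V : Type*} [NormedAddCommGroup V] [InnerProductSpace ℝ V]

/-- The minimum on a line of the direction `v`, as a function on the hyperplane. -/
noncomputable def winM (K : V → ℝ) (v : V) (R : ℝ) (y : (ℝ ∙ v)ᗮ) : ℝ := winV K v R (y : V)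

theorem LineHom_win {K : V → ℝ} (hK : Continuous K) {v : V} (hw : WinV K v) {t : ℝ} (ht : 0 ≤ t)
    {x : V} (hz : winV K v t x = 0) :
    ∃ w : V, ∀ σ : ℝ, |σ| ≤ t → K (x + σ • v) = 0 →
      ∃ a : ℝ, Desc1 K (x + σ • v) (w + a • v) ∧ (σ < t ∨ a ≤ 0) ∧ (-t < σ ∨ 0 ≤ a) := by
  obtain ⟨w, h⟩ := hw x t ht fun s hs => by rw [← hz]; exact winV_le hK v hs x
  refine ⟨w, fun σ hσ h0 => ?_⟩
  obtain ⟨a, h1, h2, h3⟩ := h σ hσ h0
  refine ⟨a, h1, ?_, ?_⟩
  · rcases eq_or_lt_of_le (abs_le.1 hσ).2 with h4 | h4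
    · exact Or.inr (h2 h4)
    · exact Or.inl h4
  · rcases eq_or_lt_of_le (abs_le.1 hσ).1 with h4 | h4
    · exact Or.inr (h3 h4.symm)
    · exact Or.inl h4

theorem LineHom_abs {v x : V} (hv : ‖v‖ = 1) : |⟪v, x⟫| ≤ ‖x‖ := by
  have := abs_real_inner_le_norm v x
  rwa [hv, one_mul] at this

theorem LineHom_in {v : V} (hv : ‖v‖ = 1) (x : V) (σ : ℝ) : ⟪v, x + σ • v⟫ = ⟪v, x⟫ + σ := by
  rw [inner_add_right, real_inner_smul_right, real_inner_self_eq_norm_sq, hv]
  ring

/-- The point on the line over the projection. -/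
theorem LineHom_pt {v : V} (hv : ‖v‖ = 1) (x : V) (τ : ℝ) :
    ((hpr v x : (ℝ ∙ v)ᗮ) : V) + τ • v = x + (τ - ⟪v, x⟫) • v := by
  have h := hpr_add hv x
  nth_rw 2 [← h]
  rw [sub_smul]
  abel

/-- First homotopy: windows. -/
theorem LineHom_1 {K : V → ℝ} (hK : Good K) {R : ℝ} (hR : ∀ x, K x ≤ 0 → ‖x‖ < R) {v : V}
    (hv : ‖v‖ = 1) (hw : WinV K v) {S : ℝ} (hS : 0 ≤ S) : Hom K (winV K v S) := by
  have h0 : (fun x => winV K v 0 x) = K := by
    funext x
    exact winV_zero K v x
  have key : Hom ((fun t x => winV K v t x) 0) ((fun t x => winV K v t x) S) := by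
    refine Hom.of_family hS (fun t x => winV K v t x) (winV_continuous hK.cont v).continuousOn
      ⟨R + S, ?_⟩ ?_
    · intro t ht x hx
      obtain ⟨σ, hσ, h1⟩ := winV_attained hK.cont v ht.1 x
      have hx' : winV K v t x = 0 := hx
      rw [hx'] at h1
      have h2 := hR _ h1.le
      have h3 : ‖x‖ ≤ ‖x + σ • v‖ + ‖σ • v‖ := by
        have := norm_sub_le (x + σ • v) (σ • v)
        rwa [add_sub_cancel_right] at this
      rw [norm_smul, hv, mul_one, Real.norm_eq_abs] at h3
      have h4 := hσ.trans ht.2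
      linarith
    · intro t ht x hx
      obtain ⟨w, h⟩ := LineHom_win hK.cont hw ht.1 hx
      refine ⟨w, winV_desc hK.cont ht.1 hx h nhdsWithin_le_nhds ?_⟩
      filter_upwards [self_mem_nhdsWithin] with s hs
      exact hs.1
  rwa [show (fun t x => winV K v t x) 0 = K from h0] at key

/-- Descent of the window minimum along a direction tilted towards the level zero, far from the
body in the direction of `v`. -/
theorem LineHom_tilt {K : V → ℝ} (hK : Good K) {R : ℝ} (hR0 : 0 < R)
    (hR : ∀ x, K x ≤ 0 → ‖x‖ < R) {v : V} (hv : ‖v‖ = 1) (hw : WinV K v) {S : ℝ} (hS : 0 < S)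
    {x : V} (hx : R ≤ |⟪v, x⟫|) (hz : winV K v S x = 0) :
    ∃ w : V, ⟪v, x⟫ * ⟪v, w⟫ < 0 ∧ Desc1 (winV K v S) x w := by
  obtain ⟨w, h⟩ := LineHom_win hK.cont hw hS.le hz
  set z := ⟪v, x⟫ with hz'
  have hz0 : z ≠ 0 := by
    intro h0
    rw [h0, abs_zero] at hx
    linarith
  have hz2 : 0 < z * z := mul_self_pos.2 hz0
  obtain ⟨b, hb⟩ : ∃ b : ℝ, b = (|z * ⟪v, w⟫| + 1) / (z * z) := ⟨_, rfl⟩
  have hb0 : 0 < b := by
    rw [hb]
    positivity
  have hbz : b * (z * z) = |z * ⟪v, w⟫| + 1 := by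
    rw [hb]
    field_simp
  refine ⟨w - (b * z) • v, ?_, ?_⟩
  · rw [inner_sub_right, real_inner_smul_right, real_inner_self_eq_norm_sq, hv]
    have h1 := le_abs_self (z * ⟪v, w⟫)
    nlinarith
  · have key : Desc (fun t y => winV K v t y) (𝓝[≥] S) x (w - (b * z) • v) := by
      refine winV_desc hK.cont hS.le hz ?_ nhdsWithin_le_nhds ?_
      · intro σ hσ h0
        obtain ⟨a, h1, h2, h3⟩ := h σ hσ h0
        refine ⟨a + b * z, ?_, ?_⟩
        · have e1 : w - (b * z) • v + (a + b * z) • v = w + a • v := by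
            rw [add_smul]
            abel
          rw [e1]
          exact h1
        · have h4 := hR _ h0.le
          have h5 := LineHom_abs (x := x + σ • v) hv
          rw [LineHom_in hv, ← hz'] at h5
          have h6 := abs_lt.1 (h5.trans_lt h4)
          rcases lt_or_gt_of_ne hz0 with hneg | hpos
          · rw [abs_of_neg hneg] at hx
            have hbz' : b * z ≤ 0 := (mul_neg_of_pos_of_neg hb0 hneg).le
            refine ⟨?_, ?_⟩
            · rcases h2 with h2 | h2
              · exact Or.inl h2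
              · exact Or.inr (by linarith)
            · left
              linarith [h6.1]
          · rw [abs_of_pos hpos] at hx
            have hbz' : 0 ≤ b * z := (mul_pos hb0 hpos).le
            refine ⟨?_, ?_⟩
            · left
              linarith [h6.2]
            · rcases h3 with h3 | h3
              · exact Or.inl h3
              · exact Or.inr (by linarith)
      · filter_upwards [self_mem_nhdsWithin] with s hs
        exact hS.le.trans hs
    exact key.static (t := S) (pure_le_nhdsWithin (le_refl S))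

/-- Second homotopy: the ends are cut off. -/
theorem LineHom_2 [FiniteDimensional ℝ V] {K : V → ℝ} (hK : Good K) {R : ℝ} (hR0 : 0 < R)
    (hR : ∀ x, K x ≤ 0 → ‖x‖ < R) {v : V} (hv : ‖v‖ = 1) (hw : WinV K v) {S : ℝ} (hS : 0 < S) :
    Hom (winV K v S) fun x => max (winV K v S x) (|⟪v, x⟫ - 0| - R) := by
  have hGg : Good (winV K v S) := (LineHom_1 hK hR hv hw hS.le).good_right
  have hGc := hGg.cont
  have hin : ∀ x, winV K v S x ≤ 0 → |⟪v, x⟫ - 0| < R + S := by
    intro x hx
    obtain ⟨σ, hσ, h1⟩ := winV_attained hK.cont v hS.le x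
    have h2 := hR _ (h1.trans_le hx)
    have h5 := LineHom_abs (x := x + σ • v) hv
    rw [LineHom_in hv] at h5
    have h6 := abs_lt.1 (h5.trans_lt h2)
    have h7 := abs_le.1 hσ
    rw [sub_zero, abs_lt]
    constructor <;> linarith
  have hacont : ∀ s : ℝ, Continuous fun x : V => |⟪v, x⟫ - 0| - s := BaseAux_acont v 0
  have h1 : Hom (winV K v S) fun x => max (winV K v S x) (|⟪v, x⟫ - 0| - (R + S)) := by
    refine Hom.of_eq_near' hGg (hGc.max (hacont _)) ?_ ?_
    · intro x hx
      have h2 : winV K v S x ≤ 0 := by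
        rcases hx with h | h
        · exact h.le
        · exact (le_max_left _ _).trans h.le
      have h3 := hin x h2
      have h4 : winV K v S x = 0 := by
        rcases hx with h | h
        · exact h
        · rcases max_choice (winV K v S x) (|⟪v, x⟫ - 0| - (R + S)) with h5 | h5
          · rw [h5] at h
            exact h
          · rw [h5] at h
            linarith
      filter_upwards [(hacont (R + S)).continuousAt.eventually_lt hGc.continuousAt
        (by rw [h4]; linarith)] with y hy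
      exact (max_eq_left hy.le).symm
    · intro x hx hx'
      rcases lt_or_gt_of_ne hx with h | h
      · have h3 := hin x h.le
        have h4 : max (winV K v S x) (|⟪v, x⟫ - 0| - (R + S)) < 0 := max_lt h (by linarith)
        exact mul_pos_of_neg_of_neg h h4
      · exact mul_pos h (lt_of_lt_of_le h (le_max_left _ _))
  have h2 : Hom ((fun s x => max (winV K v S x) (|⟪v, x⟫ - 0| - s)) R)
      ((fun s x => max (winV K v S x) (|⟪v, x⟫ - 0| - s)) (R + S)) := by
    refine Hom.of_family (by linarith) (fun s x => max (winV K v S x) (|⟪v, x⟫ - 0| - s)) ?_ ?_ ?_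
    · refine Continuous.continuousOn ?_
      exact (hGc.comp continuous_snd).max (by fun_prop)
    · have hb := (LineHom_1 hK hR hv hw hS.le).bdd
        ((Metric.isBounded_ball (x := (0 : V)) (r := R)).subset fun x hx => by
          rw [mem_ball_zero_iff]
          exact hR x hx)
      obtain ⟨R', hR'⟩ := hb.exists_norm_le
      exact ⟨R', fun t _ x hx => hR' x ((le_max_left (winV K v S x) (|⟪v, x⟫ - 0| - t)).trans
        (le_of_eq hx))⟩
    · intro t ht x hx
      have hx' : max (winV K v S x) (|⟪v, x⟫ - 0| - t) = 0 := hx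
      have hle1 : winV K v S x ≤ 0 := (le_max_left _ _).trans hx'.le
      have hle2 : |⟪v, x⟫ - 0| - t ≤ 0 := (le_max_right _ _).trans hx'.le
      have ht0 : 0 < t := hR0.trans_le ht.1
      have hfam : ∀ w, (⟪v, x⟫ - 0) * ⟪v, w⟫ < 0 →
          Desc (fun (s : ℝ) (y : V) => |⟪v, y⟫ - 0| - s) (𝓝[Icc R (R + S)] t) x w := by
        intro w hw0
        have h0 : ⟪v, x⟫ - 0 ≠ 0 := by
          intro h
          rw [h, zero_mul] at hw0
          exact lt_irrefl _ hw0
        have h := desc_add_const ((BaseAux_absh (c := 0) 0 h0 hw0).const (𝓝[Icc R (R + S)] t))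
          (fun s => -s)
        refine h.congr (Eventually.of_forall fun p => ?_)
        ring
      rcases eq_or_lt_of_le hle1 with hG0 | hGneg
      · rcases eq_or_lt_of_le hle2 with hz0 | hzneg
        · obtain ⟨w, h3, h4⟩ := LineHom_tilt hK hR0 hR hv hw hS
            (x := x) (by
              rw [sub_zero] at hz0
              linarith [ht.1]) hG0
          refine ⟨w, desc_max (h4.const _) (hfam w ?_)⟩
          rw [sub_zero]
          exact h3
        · obtain ⟨w, h4⟩ := hGg.desc x hG0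
          refine ⟨w, desc_max_left (H := fun _ => winV K v S)
            (K := fun s y => |⟪v, y⟫ - 0| - s) (h4.const _) ?_⟩
          have hc1 : Continuous fun p : ℝ × V => |⟪v, p.2⟫ - 0| - p.1 := by fun_prop
          have hc2 : Continuous fun p : ℝ × V => winV K v S p.2 := hGc.comp continuous_snd
          have h6 : ∀ᶠ p in 𝓝 (t, x), |⟪v, p.2⟫ - 0| - p.1 < winV K v S p.2 :=
            hc1.continuousAt.eventually_lt hc2.continuousAt (by
              show |⟪v, x⟫ - 0| - t < winV K v S x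
              rw [hG0]
              exact hzneg)
          rw [nhds_prod_eq] at h6
          exact (h6.filter_mono (Filter.prod_mono nhdsWithin_le_nhds le_rfl)).mono
            fun p hp => hp.le
      · have hz0 : |⟪v, x⟫ - 0| - t = 0 := by
          rcases max_choice (winV K v S x) (|⟪v, x⟫ - 0| - t) with h5 | h5
          · rw [h5] at hx'
            linarith
          · rw [h5] at hx'
            exact hx'
        have hne : ⟪v, x⟫ - 0 ≠ 0 := by
          intro h
          rw [h, abs_zero] at hz0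
          linarith
        refine ⟨-((⟪v, x⟫ - 0) • v), desc_max_right (H := fun _ => winV K v S)
            (K := fun s y => |⟪v, y⟫ - 0| - s) (hfam _ ?_) ?_⟩
        · rw [inner_neg_right, real_inner_smul_right, real_inner_self_eq_norm_sq, hv]
          nlinarith [mul_self_pos.2 hne]
        · have hc1 : Continuous fun p : ℝ × V => |⟪v, p.2⟫ - 0| - p.1 := by fun_prop
          have hc2 : Continuous fun p : ℝ × V => winV K v S p.2 := hGc.comp continuous_snd
          have h6 : ∀ᶠ p in 𝓝 (t, x), winV K v S p.2 < |⟪v, p.2⟫ - 0| - p.1 :=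
            hc2.continuousAt.eventually_lt hc1.continuousAt (by
              show winV K v S x < |⟪v, x⟫ - 0| - t
              rw [hz0]
              exact hGneg)
          rw [nhds_prod_eq] at h6
          exact (h6.filter_mono (Filter.prod_mono nhdsWithin_le_nhds le_rfl)).mono
            fun p hp => hp.le
  exact h1.trans h2.symm

/-- The window minimum and the minimum on the line. -/
theorem LineHom_eq [FiniteDimensional ℝ V] {K : V → ℝ} (hK : Continuous K) {R : ℝ} (hR0 : 0 < R)
    (hR : ∀ x, K x ≤ 0 → ‖x‖ < R) {v : V} (hv : ‖v‖ = 1) (ρ : ℝ) :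
    ∃ c : ℝ, 0 < c ∧ ∀ x, ‖x‖ ≤ ρ → |⟪v, x⟫| ≤ R + 1 →
      winV K v (2 * R + 1) x ≤ winM K v R (hpr v x) ∧
      (winV K v (2 * R + 1) x = winM K v R (hpr v x) ∨ c ≤ winV K v (2 * R + 1) x) := by
  obtain ⟨c, hc, hpos⟩ : ∃ c : ℝ, 0 < c ∧ ∀ p, ‖p‖ ≤ ρ + (2 * R + 1) → R ≤ |⟪v, p⟫| → c ≤ K p := by
    have hQ : IsCompact ({p : V | ‖p‖ ≤ ρ + (2 * R + 1)} ∩ {p | R ≤ |⟪v, p⟫|}) := by
      have hp : ProperSpace V := FiniteDimensional.proper ℝ V
      have h1 : IsCompact {p : V | ‖p‖ ≤ ρ + (2 * R + 1)} := by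
        have := isCompact_closedBall (0 : V) (ρ + (2 * R + 1))
        have e1 : Metric.closedBall (0 : V) (ρ + (2 * R + 1)) = {p : V | ‖p‖ ≤ ρ + (2 * R + 1)} := by
          ext p
          rw [mem_closedBall_zero_iff]
          rfl
        rwa [e1] at this
      refine h1.inter_right ?_
      exact isClosed_le continuous_const (by fun_prop)
    rcases (({p : V | ‖p‖ ≤ ρ + (2 * R + 1)} ∩ {p | R ≤ |⟪v, p⟫|})).eq_empty_or_nonempty with h | h
    · refine ⟨1, one_pos, fun p h1 h2 => ?_⟩
      have h3 : p ∈ ({p : V | ‖p‖ ≤ ρ + (2 * R + 1)} ∩ {p | R ≤ |⟪v, p⟫|}) := ⟨h1, h2⟩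
      rw [h] at h3
      exact absurd h3 (notMem_empty p)
    · obtain ⟨p0, hp0, hmin⟩ := hQ.exists_isMinOn h hK.continuousOn
      refine ⟨K p0, ?_, fun p h1 h2 => hmin ⟨h1, h2⟩⟩
      by_contra h3
      have h4 := hR p0 (not_lt.1 h3)
      have h5 := LineHom_abs (x := p0) hv
      have h6 : R ≤ |⟪v, p0⟫| := hp0.2
      linarith
  refine ⟨c, hc, fun x hx hz => ?_⟩
  have hS : (0 : ℝ) ≤ 2 * R + 1 := by linarith
  have hz' := abs_le.1 hz
  have h1 : winV K v (2 * R + 1) x ≤ winM K v R (hpr v x) := by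
    obtain ⟨τ, hτ, h2⟩ := winV_attained hK v hR0.le ((hpr v x : (ℝ ∙ v)ᗮ) : V)
    rw [LineHom_pt hv] at h2
    have h3 := winV_le hK v (t := 2 * R + 1) (σ := τ - ⟪v, x⟫) (by
      have h4 := abs_le.1 hτ
      rw [abs_le]
      constructor <;> linarith) x
    rw [h2] at h3
    exact h3
  refine ⟨h1, ?_⟩
  obtain ⟨σ, hσ, h2⟩ := winV_attained hK v hS x
  have hσ' := abs_le.1 hσ
  have h5 : ⟪v, x + σ • v⟫ = ⟪v, x⟫ + σ := LineHom_in hv x σ
  rcases le_or_gt |⟪v, x⟫ + σ| R with h3 | h3
  · left
    refine le_antisymm h1 ?_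
    have h4 := winV_le hK v (t := R) (σ := ⟪v, x⟫ + σ) h3 ((hpr v x : (ℝ ∙ v)ᗮ) : V)
    rw [LineHom_pt hv, add_sub_cancel_left, h2] at h4
    exact h4
  · right
    rw [← h2]
    refine hpos _ ?_ (by rw [h5]; exact h3.le)
    have h4 := norm_add_le x (σ • v)
    rw [norm_smul, hv, mul_one, Real.norm_eq_abs] at h4
    linarith

theorem winM_continuous {K : V → ℝ} (hK : Continuous K) (v : V) (R : ℝ) :
    Continuous (winM K v R) := by
  have h := (winV_continuous hK v).comp (f := fun y : (ℝ ∙ v)ᗮ => ((R, (y : V)) : ℝ × V))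
    (by fun_prop)
  exact h

theorem LineHom_norm {v : V} (y : (ℝ ∙ v)ᗮ) (τ : ℝ) : ‖y‖ ≤ ‖(y : V) + τ • v‖ := by
  have h1 : ⟪(y : V), τ • v⟫ = 0 := by
    rw [real_inner_smul_right, real_inner_comm, BaseDef_inner, mul_zero]
  have h2 := norm_add_sq_eq_norm_sq_add_norm_sq_of_inner_eq_zero (y : V) (τ • v) h1
  have h3 : ‖y‖ = ‖(y : V)‖ := rfl
  rw [h3]
  nlinarith [norm_nonneg (y : V), norm_nonneg ((y : V) + τ • v), norm_nonneg (τ • v)]

/-- The minimum on the lines is a good function. -/
theorem winM_good {K : V → ℝ} (hK : Good K) {R : ℝ} (hR0 : 0 < R)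
    (hR : ∀ x, K x ≤ 0 → ‖x‖ < R) {v : V} (hv : ‖v‖ = 1) (hw : WinV K v) :
    Good (winM K v R) ∧ Bornology.IsBounded {y | winM K v R y ≤ 0} := by
  have hbd : ∀ y : (ℝ ∙ v)ᗮ, winM K v R y ≤ 0 → ‖y‖ ≤ R := by
    intro y hy
    obtain ⟨τ, hτ, h1⟩ := winV_attained hK.cont v hR0.le (y : V)
    have h2 := hR _ (h1.trans_le hy)
    exact (LineHom_norm y τ).trans h2.le
  have hbd' : Bornology.IsBounded {y | winM K v R y ≤ 0} :=
    (Metric.isBounded_closedBall (x := (0 : (ℝ ∙ v)ᗮ)) (r := R)).subset fun y hy => by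
      rw [mem_closedBall_zero_iff]
      exact hbd y hy
  refine ⟨⟨winM_continuous hK.cont v R, hbd'.subset fun y hy => ?_, ?_⟩, hbd'⟩
  · have : winM K v R y = 0 := hy
    exact this.le
  · intro y hy
    obtain ⟨w, h⟩ := LineHom_win hK.cont hw hR0.le (x := (y : V)) hy
    refine ⟨hpr v w, ?_⟩
    have key : Desc (fun t y => winV K v t y) (𝓝[≥] R) (y : V) ((hpr v w : (ℝ ∙ v)ᗮ) : V) := by
      refine winV_desc hK.cont hR0.le hy ?_ nhdsWithin_le_nhds ?_
      · intro σ hσ h0
        obtain ⟨a, h1, -, -⟩ := h σ hσ h0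
        have h4 := hR _ h0.le
        have h5 := LineHom_abs (x := (y : V) + σ • v) hv
        rw [LineHom_in hv, BaseDef_inner, zero_add] at h5
        have h6 := abs_lt.1 (h5.trans_lt h4)
        refine ⟨a + ⟪v, w⟫, ?_, Or.inl h6.2, Or.inl h6.1⟩
        have e1 : ((hpr v w : (ℝ ∙ v)ᗮ) : V) + (a + ⟪v, w⟫) • v = w + a • v := by
          rw [LineHom_pt hv, add_sub_cancel_right]
        rw [e1]
        exact h1
      · filter_upwards [self_mem_nhdsWithin] with s hs
        exact hR0.le.trans hs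
    have h1 : Desc1 (winV K v R) (y : V) ((hpr v w : (ℝ ∙ v)ᗮ) : V) :=
      key.static (t := R) (pure_le_nhdsWithin (le_refl R))
    exact BaseAux_clm (H := fun _ : Unit => winV K v R) ((ℝ ∙ v)ᗮ.subtypeL) h1

/-- The body is homotopic to the cylinder over the minimum on the lines. -/
theorem line_hom [FiniteDimensional ℝ V] {K : V → ℝ} (hK : Good K) {R : ℝ} (hR0 : 0 < R)
    (hR : ∀ x, K x ≤ 0 → ‖x‖ < R) {v : V} (hv : ‖v‖ = 1) (hw : WinV K v) :
    Hom K (cyl (winM K v R) 0 R) := by
  have hS : 0 < 2 * R + 1 := by linarith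
  have h1 := (LineHom_1 hK hR hv hw hS.le).trans (LineHom_2 hK hR0 hR hv hw hS)
  refine h1.trans ?_
  have hmc := winM_continuous hK.cont v R
  have hgc : Continuous (cyl (winM K v R) 0 R) := by
    unfold cyl
    exact (hmc.comp (hprL v).continuous).max (BaseAux_acont v 0 R)
  have hGc : Continuous (winV K v (2 * R + 1)) := (LineHom_1 hK hR hv hw hS.le).good_right.cont
  have hvc : Continuous fun x : V => |⟪v, x⟫| := by fun_prop
  refine Hom.of_eq_near' h1.good_right hgc ?_ ?_
  · intro x hx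
    obtain ⟨c, hc, hall⟩ := LineHom_eq hK.cont hR0 hR hv (‖x‖ + 1)
    have hx2 : winV K v (2 * R + 1) x < c ∧ |⟪v, x⟫| < R + 1 := by
      rcases hx with h | h
      · have h2 : winV K v (2 * R + 1) x ≤ 0 := (le_max_left _ _).trans h.le
        have h3 : |⟪v, x⟫ - 0| - R ≤ 0 := (le_max_right _ _).trans h.le
        rw [sub_zero] at h3
        exact ⟨by linarith, by linarith⟩
      · have h' : max (winM K v R (hpr v x)) (|⟪v, x⟫ - 0| - R) = 0 := h
        have h2 : winM K v R (hpr v x) ≤ 0 := (le_max_left _ _).trans h'.le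
        have h3 : |⟪v, x⟫ - 0| - R ≤ 0 := (le_max_right _ _).trans h'.le
        rw [sub_zero] at h3
        have h4 := (hall x (by linarith) (by linarith)).1
        exact ⟨by linarith, by linarith⟩
    filter_upwards [hGc.continuousAt.eventually_lt_const hx2.1,
      hvc.continuousAt.eventually_lt_const hx2.2,
      continuous_norm.continuousAt.eventually_lt_const (lt_add_one ‖x‖)] with y hy1 hy2 hy3
    have h4 := (hall y hy3.le hy2.le).2
    rcases h4 with h4 | h4
    · show max (winV K v (2 * R + 1) y) (|⟪v, y⟫ - 0| - R) = _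
      rw [h4]
      rfl
    · linarith
  · intro x hx hx'
    obtain ⟨c, hc, hall⟩ := LineHom_eq hK.cont hR0 hR hv ‖x‖
    rcases le_or_gt |⟪v, x⟫| R with h | h
    · obtain ⟨h4, h5⟩ := hall x le_rfl (by linarith)
      rcases h5 with h5 | h5
      · have h6 : max (winV K v (2 * R + 1) x) (|⟪v, x⟫ - 0| - R) = cyl (winM K v R) 0 R x := by
          rw [h5]
          rfl
        rw [← h6]
        exact mul_self_pos.2 hx
      · exact mul_pos (lt_of_lt_of_le (hc.trans_le h5) (le_max_left _ _))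
          (lt_of_lt_of_le (hc.trans_le (h5.trans h4)) (le_max_left _ _))
    · have h7 : 0 < |⟪v, x⟫ - 0| - R := by
        rw [sub_zero]
        linarith
      exact mul_pos (lt_of_lt_of_le h7 (le_max_right _ _)) (lt_of_lt_of_le h7 (le_max_right _ _))

end Pool.Schoen
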