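import Pool.Agent.H.MP_6c077c_gt.Lz.LineHom
import Pool.Agent.H.MP_6c077c_gt.Gd.OutSlice

/-! Room theorem: the outside of the base of a cylinder is connected. -/

set_option autoImplicit false

namespace Pool.Schoen

open Filter Set
open scoped Topology RealInnerProductSpace ContDiff

variable {V : Type*} [NormedAddCommGroup V] [InnerProductSpace ℝ V]

/-- The phase: from `0` to `2 π` as the height goes from `-R` to `R`. -/
noncomputable def phs (v : V) (R : ℝ) (x : V) : ℝ :=
  Real.pi * (max (-R) (min ⟪v, x⟫ R) / R + 1)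

theorem phs_cont (v : V) (R : ℝ) : Continuous (phs v R) := by
  unfold phs
  fun_prop

theorem phs_low {v : V} {R : ℝ} (hR : 0 < R) {x : V} (hx : ⟪v, x⟫ ≤ -R) : phs v R x = 0 := by
  unfold phs
  rw [min_eq_left (by linarith), max_eq_left hx]
  field_simp
  ring

theorem phs_high {v : V} {R : ℝ} (hR : 0 < R) {x : V} (hx : R ≤ ⟪v, x⟫) :
    phs v R x = 2 * Real.pi := by
  unfold phs
  rw [min_eq_right hx, max_eq_right (by linarith)]
  field_simp
  ring

theorem phs_exp {v : V} {R : ℝ} (hR : 0 < R) {x : V} (hx : R ≤ |⟪v, x⟫|) :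
    Complex.exp (phs v R x * Complex.I) = 1 := by
  rcases le_total 0 ⟪v, x⟫ with h | h
  · rw [abs_of_nonneg h] at hx
    rw [phs_high hR hx]
    push_cast
    exact Complex.exp_two_pi_mul_I
  · rw [abs_of_nonpos h] at hx
    rw [phs_low hR (by linarith)]
    simp

/-- If the outside of a cylinder has the lifting property, the outside of its base is connected. -/
theorem cyl_out {v : V} (hv : ‖v‖ = 1) {m : (ℝ ∙ v)ᗮ → ℝ} (hm : Continuous m) {R : ℝ}
    (hR : 0 < R) (hl : LiftS {x | 0 ≤ cyl m 0 R x}) : IsPreconnected {y | 0 ≤ m y} := by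
  classical
  rw [isPreconnected_closed_iff]
  intro t t' ht ht' hcov hne hne'
  by_contra hdis
  obtain ⟨a, ha0, hat⟩ := hne
  obtain ⟨b, hb0, hbt⟩ := hne'
  have hnot : ∀ y : (ℝ ∙ v)ᗮ, 0 ≤ m y → y ∈ t → y ∈ t' → False := fun y h1 h2 h3 =>
    hdis ⟨y, h1, h2, h3⟩
  have hmem : ∀ x : V, 0 ≤ cyl m 0 R x ↔ 0 ≤ m (hpr v x) ∨ R ≤ |⟪v, x⟫| := by
    intro x
    unfold cyl
    rw [le_max_iff, sub_zero, sub_nonneg]
  have hpc : Continuous fun x : V => hpr v x := (hprL v).continuous
  have hmc : Continuous fun x : V => m (hpr v x) := hm.comp hpc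
  set w : V → ℂ := fun x => Complex.exp (phs v R x * Complex.I) with hw
  have hwc : Continuous w := by
    have := phs_cont v R
    fun_prop
  set u : V → ℂ := fun x => if hpr v x ∈ t then w x else 1 with hu
  -- the three closed pieces
  have hc1 : IsClosed {x : V | R ≤ |⟪v, x⟫|} := isClosed_le continuous_const (by fun_prop)
  have hc0 : IsClosed {x : V | 0 ≤ m (hpr v x)} := isClosed_le continuous_const hmc
  have hc2 : IsClosed ({x : V | 0 ≤ m (hpr v x)} ∩ {x | hpr v x ∈ t}) :=
    hc0.inter (ht.preimage hpc)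
  have hc3 : IsClosed ({x : V | 0 ≤ m (hpr v x)} ∩ {x | hpr v x ∈ t'}) :=
    hc0.inter (ht'.preimage hpc)
  have huc : ContinuousOn u {x | 0 ≤ cyl m 0 R x} := by
    have e1 : {x | 0 ≤ cyl m 0 R x} = {x : V | R ≤ |⟪v, x⟫|} ∪
        (({x : V | 0 ≤ m (hpr v x)} ∩ {x | hpr v x ∈ t}) ∪
          ({x : V | 0 ≤ m (hpr v x)} ∩ {x | hpr v x ∈ t'})) := by
      ext x
      simp only [mem_ofPred_eq, mem_union, mem_inter_iff]
      rw [hmem x]
      constructor
      · rintro (h | h)
        · rcases hcov h with h1 | h1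
          · exact Or.inr (Or.inl ⟨h, h1⟩)
          · exact Or.inr (Or.inr ⟨h, h1⟩)
        · exact Or.inl h
      · rintro (h | ⟨h, -⟩ | ⟨h, -⟩)
        · exact Or.inr h
        · exact Or.inl h
        · exact Or.inl h
    rw [e1]
    refine ContinuousOn.union_of_isClosed ?_ ?_ hc1 (hc2.union hc3)
    · refine (continuousOn_const (c := (1 : ℂ))).congr ?_
      intro x hx
      simp only [hu]
      split_ifs
      · exact phs_exp hR hx
      · rfl
    · refine ContinuousOn.union_of_isClosed ?_ ?_ hc2 hc3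
      · refine hwc.continuousOn.congr ?_
        rintro x ⟨-, hx⟩
        have hx2 : hpr v x ∈ t := hx
        simp only [hu]
        rw [if_pos hx2]
      · refine (continuousOn_const (c := (1 : ℂ))).congr ?_
        rintro x ⟨hx, hx'⟩
        simp only [hu]
        rw [if_neg fun h => hnot _ hx h hx']
  have hun : ∀ x ∈ {x | 0 ≤ cyl m 0 R x}, ‖u x‖ = 1 := by
    intro x _
    simp only [hu]
    split_ifs
    · exact Complex.norm_exp_ofReal_mul_I _
    · exact norm_one
  obtain ⟨g, hg, hug⟩ := hl u huc hun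
  -- the columns
  have hcol : ∀ y : (ℝ ∙ v)ᗮ, 0 ≤ m y → ∀ z : ℝ, 0 ≤ cyl m 0 R ((y : V) + z • v) := by
    intro y hy z
    rw [hmem, hpr_coe hv]
    exact Or.inl hy
  have hcolc : ∀ y : (ℝ ∙ v)ᗮ, 0 ≤ m y → Continuous fun z : ℝ => g ((y : V) + z • v) := by
    intro y hy
    have h1 : Continuous fun z : ℝ => (y : V) + z • v := by fun_prop
    exact hg.comp_continuous h1 fun z => hcol y hy z
  have hA : g ((a : V) + R • v) - 2 * Real.pi = g ((a : V) + (-R) • v) := by
    have h1 : ContinuousOn (fun z : ℝ => g ((a : V) + z • v) - phs v R ((a : V) + z • v)) univ := by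
      refine ((hcolc a ha0).sub ?_).continuousOn
      have h2 : Continuous fun z : ℝ => (a : V) + z • v := by fun_prop
      exact (phs_cont v R).comp h2
    have h2 := OutSlice_const' isPreconnected_univ h1 (fun z _ => by
      have h3 := hug _ (hcol a ha0 z)
      have h4 : u ((a : V) + z • v) = w ((a : V) + z • v) := by
        simp only [hu]
        rw [hpr_coe hv, if_pos hat]
      rw [h4] at h3
      simp only [hw] at h3
      push_cast
      rw [sub_mul, Complex.exp_sub, ← h3, div_self (Complex.exp_ne_zero _)])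
      (mem_univ R) (mem_univ (-R))
    rw [phs_high hR (by rw [inner_hpr hv]), phs_low hR (by rw [inner_hpr hv]), sub_zero] at h2
    exact h2
  have hB : g ((b : V) + R • v) = g ((b : V) + (-R) • v) := by
    refine OutSlice_const' (f := fun z : ℝ => g ((b : V) + z • v)) isPreconnected_univ
      (hcolc b hb0).continuousOn (fun z _ => ?_) (mem_univ R) (mem_univ (-R))
    have h3 := hug _ (hcol b hb0 z)
    have h4 : u ((b : V) + z • v) = 1 := by
      simp only [hu]
      rw [hpr_coe hv, if_neg fun h => hnot b hb0 h hbt]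
    rw [← h3, h4]
  have hrow : ∀ z : ℝ, R ≤ |z| → g ((a : V) + z • v) = g ((b : V) + z • v) := by
    intro z hz
    have hin : ∀ y : (ℝ ∙ v)ᗮ, R ≤ |⟪v, (y : V) + z • v⟫| := fun y => by
      rw [inner_hpr hv]
      exact hz
    have h1 : Continuous fun y : (ℝ ∙ v)ᗮ => (y : V) + z • v := by fun_prop
    have h2 : Continuous fun y : (ℝ ∙ v)ᗮ => g ((y : V) + z • v) :=
      hg.comp_continuous h1 fun y => (hmem _).2 (Or.inr (hin y))
    refine OutSlice_const' (f := fun y : (ℝ ∙ v)ᗮ => g ((y : V) + z • v)) isPreconnected_univ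
      h2.continuousOn (fun y _ => ?_) (mem_univ a) (mem_univ b)
    have h3 := hug _ ((hmem _).2 (Or.inr (hin y)))
    have h4 : u ((y : V) + z • v) = 1 := by
      simp only [hu]
      split_ifs
      · exact phs_exp hR (hin y)
      · rfl
    rw [← h3, h4]
  have h1 := hrow R (by rw [abs_of_pos hR])
  have h2 := hrow (-R) (by rw [abs_neg, abs_of_pos hR])
  have hpi := Real.pi_pos
  linarith

end Pool.Schoen
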