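import Pool.Agent.H.MP_6c077c_gt.Lz.Defs

/-! Room theorem: the index condition is stable. -/

set_option autoImplicit false

namespace Pool.Schoen

open Filter Set
open scoped Topology RealInnerProductSpace ContDiff

variable {V : Type*} [NormedAddCommGroup V] [InnerProductSpace ℝ V] [FiniteDimensional ℝ V]

/-- The derivative of a convex function in a direction is at most the increment. -/
theorem RoomIdx_le {V : Type*} [NormedAddCommGroup V] [InnerProductSpace ℝ V] {φ : V → ℝ}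
    (hφ : ContDiff ℝ ∞ φ) (hc : ConvexOn ℝ univ φ) (x y : V) :
    φ x + fderiv ℝ φ x (y - x) ≤ φ y := by
  have hline : ∀ t : ℝ, HasDerivAt (fun t : ℝ => x + t • (y - x)) (y - x) t := fun t => by
    simpa using ((hasDerivAt_id t).smul_const (y - x)).const_add x
  have hd : ∀ t : ℝ, HasDerivAt (fun t : ℝ => φ (x + t • (y - x)))
      (fderiv ℝ φ (x + t • (y - x)) (y - x)) t := fun t =>
    ((hφ.differentiable (by norm_num)) _).hasFDerivAt.comp_hasDerivAt t (hline t)
  have hconv : ConvexOn ℝ univ fun t : ℝ => φ (x + t • (y - x)) := by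
    refine ⟨convex_univ, fun s _ t _ a b ha hb hab => ?_⟩
    have h1 := hc.2 (mem_univ (x + s • (y - x))) (mem_univ (x + t • (y - x))) ha hb hab
    have h2 : x + (a • s + b • t) • (y - x) =
        a • (x + s • (y - x)) + b • (x + t • (y - x)) := by
      have h3 : a • (x + s • (y - x)) + b • (x + t • (y - x)) =
          (a + b) • x + (a • s + b • t) • (y - x) := by
        simp only [smul_eq_mul]
        module
      rw [h3, hab, one_smul]
    show φ (x + (a • s + b • t) • (y - x)) ≤ _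
    rw [h2]
    exact h1
  have h := hconv.le_slope_of_hasDerivAt (mem_univ 0) (mem_univ 1) zero_lt_one (hd 0)
  rw [slope_def_field] at h
  have e0 : x + (0 : ℝ) • (y - x) = x := by simp
  have e1 : x + (1 : ℝ) • (y - x) = y := by simp
  simp only [e0, e1, sub_zero, div_one] at h
  linarith

/-- The second derivative of a convex function is nonnegative. -/
theorem RoomIdx_hess {V : Type*} [NormedAddCommGroup V] [InnerProductSpace ℝ V] {φ : V → ℝ}
    (hφ : ContDiff ℝ ∞ φ) (hc : ConvexOn ℝ univ φ) (x u : V) : 0 ≤ hess φ x u u := by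
  have hline : ∀ t : ℝ, HasDerivAt (fun t : ℝ => x + t • u) u t := fun t => by
    simpa using ((hasDerivAt_id t).smul_const u).const_add x
  have hd : ∀ t : ℝ, HasDerivAt (fun t : ℝ => φ (x + t • u)) (fderiv ℝ φ (x + t • u) u) t :=
    fun t => ((hφ.differentiable (by norm_num)) _).hasFDerivAt.comp_hasDerivAt t (hline t)
  have hφ2 : Differentiable ℝ (fderiv ℝ φ) :=
    (hφ.fderiv_right (m := 1) (by norm_cast)).differentiable (by norm_num)
  have hd2 : HasDerivAt (fun t : ℝ => fderiv ℝ φ (x + t • u) u) (hess φ x u u) 0 := by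
    have h0 : HasFDerivAt (fderiv ℝ φ) (fderiv ℝ (fderiv ℝ φ) x) (x + (0 : ℝ) • u) := by
      rw [zero_smul, add_zero]
      exact (hφ2 x).hasFDerivAt
    have h1 := h0.comp_hasDerivAt (0 : ℝ) (hline 0)
    exact (h1.clm_apply (hasDerivAt_const (0 : ℝ) u)).congr_deriv (by simp [hess])
  have hconv : ConvexOn ℝ univ fun t : ℝ => φ (x + t • u) := by
    refine ⟨convex_univ, fun s _ t _ a b ha hb hab => ?_⟩
    have h1 := hc.2 (mem_univ (x + s • u)) (mem_univ (x + t • u)) ha hb hab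
    have h2 : x + (a • s + b • t) • u = a • (x + s • u) + b • (x + t • u) := by
      have h3 : a • (x + s • u) + b • (x + t • u) = (a + b) • x + (a • s + b • t) • u := by
        simp only [smul_eq_mul]
        module
      rw [h3, hab, one_smul]
    show φ (x + (a • s + b • t) • u) ≤ _
    rw [h2]
    exact h1
  have hm : Monotone fun t : ℝ => fderiv ℝ φ (x + t • u) u := by
    have h1 := hconv.monotoneOn_deriv fun t _ => (hd t).differentiableAt
    have h2 : deriv (fun t : ℝ => φ (x + t • u)) = fun t => fderiv ℝ φ (x + t • u) u :=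
      funext fun t => (hd t).deriv
    rw [h2] at h1
    exact monotoneOn_univ.1 h1
  rw [← hd2.deriv]
  exact hm.deriv_nonneg

/-- The condition on the saddles outside of the room. -/
def RoomSad (F φ : V → ℝ) : Prop :=
  ∀ x ∈ closure {x | F x = 0 ∧ TwoNeg F x}, 0 ≤ φ x → ∀ μ : ℝ, 0 < μ →
    (∀ v, fderiv ℝ φ x v = -(μ * fderiv ℝ F x v)) →
    ∀ U : Submodule ℝ V, Module.finrank ℝ U = 2 → (∀ u ∈ U, fderiv ℝ F x u = 0) →
      ∃ u ∈ U, 0 < hess φ x u u + μ * hess F x u u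

/-- Step (1). PROOF. Otherwise there are for every `k` (`ε = 1 / (k + 1)`) `η_k`, `a_k`, `x_k`, `μ_k` and `U_k`,
`U_k` spanned by an orthonormal pair, with `hess φ u u + 2 η_k ‖u‖ ^ 2 + μ_k hess F u u ≤ 0` on `U_k`. As
`hess φ x u u ≥ 0` (`φ` convex) this gives `hess F < 0` on `U_k`, so `TwoNeg F x_k`. Take a convergent
subsequence of `x_k` (compact `{F = 0}`), of the orthonormal pairs, and of `μ_k`: from
`∇φ x_k + 2 η_k x_k + a_k = - μ_k ∇F x_k` and `∇F ≠ 0` the `μ_k` are bounded and converge to `μ` with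
`∇φ x = - μ ∇F x`; `φ x ≥ 0 > φ q`, so `∇φ x ≠ 0` (a critical point of a convex function is a minimum) and
`μ > 0`. The limit pair spans `U`, `hess φ + μ hess F ≤ 0` on `U`: against `RoomSad`. -/
theorem room_index {F φ : V → ℝ} (hF : ContDiff ℝ ∞ F) (hb : Bornology.IsBounded {x | F x ≤ 0})
    (hreg : ∀ x, F x = 0 → gradient F x ≠ 0) (hφ : ContDiff ℝ ∞ φ) (hc : ConvexOn ℝ univ φ)
    (hq : ∃ q, φ q < 0) (hS : RoomSad F φ) :
    ∃ ε : ℝ, 0 < ε ∧ ∀ (η : ℝ) (a : V), 0 < η → η < ε → ‖a‖ < ε → ∀ x, F x = 0 →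
      -ε ≤ φ x → ∀ μ : ℝ, 0 < μ →
      (∀ v, fderiv ℝ φ x v + 2 * η * ⟪x, v⟫ + ⟪a, v⟫ = -(μ * fderiv ℝ F x v)) →
      ∀ U : Submodule ℝ V, Module.finrank ℝ U = 2 → (∀ u ∈ U, fderiv ℝ F x u = 0) →
        ∃ u ∈ U, 0 < hess φ x u u + 2 * η * ‖u‖ ^ 2 + μ * hess F x u u := by
  classical
  by_contra hcon
  push Not at hcon
  have hF1 : Continuous (fderiv ℝ F) := (hF.fderiv_right (m := 1) (by norm_cast)).continuous
  have hφ1 : Continuous (fderiv ℝ φ) := (hφ.fderiv_right (m := 1) (by norm_cast)).continuous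
  have hF2 : Continuous (fderiv ℝ (fderiv ℝ F)) :=
    ((hF.fderiv_right (m := 2) (by norm_cast)).fderiv_right (m := 1) (by norm_cast)).continuous
  have hφ2 : Continuous (fderiv ℝ (fderiv ℝ φ)) :=
    ((hφ.fderiv_right (m := 2) (by norm_cast)).fderiv_right (m := 1) (by norm_cast)).continuous
  have hstep : ∀ k : ℕ, ∃ (η : ℝ) (a x : V) (μ : ℝ) (p : V × V), 0 < η ∧ η < 1 / ((k : ℝ) + 1) ∧
      ‖a‖ < 1 / ((k : ℝ) + 1) ∧ F x = 0 ∧ -(1 / ((k : ℝ) + 1)) ≤ φ x ∧ 0 < μ ∧
      (∀ v, fderiv ℝ φ x v + 2 * η * ⟪x, v⟫ + ⟪a, v⟫ = -(μ * fderiv ℝ F x v)) ∧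
      ‖p.1‖ = 1 ∧ ‖p.2‖ = 1 ∧ ⟪p.1, p.2⟫ = 0 ∧
      ∀ s t : ℝ, fderiv ℝ F x (s • p.1 + t • p.2) = 0 ∧
        hess φ x (s • p.1 + t • p.2) (s • p.1 + t • p.2) + 2 * η * ‖s • p.1 + t • p.2‖ ^ 2 +
          μ * hess F x (s • p.1 + t • p.2) (s • p.1 + t • p.2) ≤ 0 := by
    intro k
    obtain ⟨η, a, h1, h2, h3, x, h4, h5, μ, h6, h7, U, h8, h9, h10⟩ :=
      hcon (1 / ((k : ℝ) + 1)) (by positivity)
    obtain ⟨b⟩ : Nonempty (OrthonormalBasis (Fin 2) ℝ U) :=
      ⟨(stdOrthonormalBasis ℝ U).reindex (finCongr h8)⟩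
    refine ⟨η, a, x, μ, ((b 0 : U), (b 1 : U)), h1, h2, h3, h4, h5, h6, h7, b.orthonormal.1 0,
      b.orthonormal.1 1, b.orthonormal.2 (by decide : (0 : Fin 2) ≠ 1), fun s t => ?_⟩
    have hmem : s • (b 0 : V) + t • (b 1 : V) ∈ U :=
      U.add_mem (U.smul_mem _ (b 0).2) (U.smul_mem _ (b 1).2)
    exact ⟨h9 _ hmem, h10 _ hmem⟩
  choose η a x μ p hη0 hη ha hx hφx hμ hid hp1 hp2 hp hUk using hstep
  -- compactness
  have hcF : IsCompact {x | F x = 0} :=
    Metric.isCompact_of_isClosed_isBounded (isClosed_eq hF.continuous continuous_const)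
      (hb.subset fun y hy => le_of_eq hy)
  have hcS : IsCompact (Metric.sphere (0 : V) 1) := isCompact_sphere 0 1
  obtain ⟨⟨x0, u0, v0⟩, -, ψ, hψ, hlim⟩ := (hcF.prod (hcS.prod hcS)).tendsto_subseq
    (x := fun k => (x k, (p k).1, (p k).2)) fun k =>
      ⟨hx k, mem_sphere_zero_iff_norm.2 (hp1 k), mem_sphere_zero_iff_norm.2 (hp2 k)⟩
  have hxl : Tendsto (fun k => x (ψ k)) atTop (𝓝 x0) := (continuous_fst.tendsto _).comp hlim
  have hul : Tendsto (fun k => (p (ψ k)).1) atTop (𝓝 u0) :=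
    ((continuous_fst.comp continuous_snd).tendsto _).comp hlim
  have hvl : Tendsto (fun k => (p (ψ k)).2) atTop (𝓝 v0) :=
    ((continuous_snd.comp continuous_snd).tendsto _).comp hlim
  have h1k : Tendsto (fun k => 1 / (((ψ k : ℕ) : ℝ) + 1)) atTop (𝓝 0) :=
    tendsto_one_div_add_atTop_nhds_zero_nat.comp hψ.tendsto_atTop
  have hηl : Tendsto (fun k => η (ψ k)) atTop (𝓝 0) :=
    squeeze_zero (fun k => (hη0 _).le) (fun k => (hη _).le) h1k
  have hal : Tendsto (fun k => a (ψ k)) atTop (𝓝 0) :=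
    squeeze_zero_norm (fun k => (ha _).le) h1k
  have hx0 : F x0 = 0 := by
    have h1 : Tendsto (fun k => F (x (ψ k))) atTop (𝓝 (F x0)) :=
      (hF.continuous.tendsto _).comp hxl
    have h2 : (fun k => F (x (ψ k))) = fun _ => (0 : ℝ) := funext fun k => hx _
    rw [h2] at h1
    exact (tendsto_nhds_unique h1 tendsto_const_nhds)
  have hφ0 : 0 ≤ φ x0 := by
    have h1 : Tendsto (fun k => φ (x (ψ k))) atTop (𝓝 (φ x0)) := (hφ.continuous.tendsto _).comp hxl
    have h2 := h1k.neg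
    rw [neg_zero] at h2
    exact le_of_tendsto_of_tendsto' h2 h1 fun k => hφx _
  -- the multipliers
  obtain ⟨w, hw⟩ : ∃ w, fderiv ℝ F x0 w ≠ 0 := by
    by_contra h
    push Not at h
    apply hreg x0 hx0
    have h1 : fderiv ℝ F x0 = 0 := by
      ext w
      exact h w
    rw [gradient, h1, map_zero]
  have hdF : ∀ {v : ℕ → V} {v' : V}, Tendsto v atTop (𝓝 v') →
      Tendsto (fun k => fderiv ℝ F (x (ψ k)) (v k)) atTop (𝓝 (fderiv ℝ F x0 v')) :=
    fun {v v'} hv => by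
      have hcn : Continuous fun z : V × V => fderiv ℝ F z.1 z.2 :=
        (hF1.comp continuous_fst).clm_apply continuous_snd
      exact (hcn.tendsto (x0, v')).comp (hxl.prodMk_nhds hv)
  have hdφ : ∀ {v : ℕ → V} {v' : V}, Tendsto v atTop (𝓝 v') →
      Tendsto (fun k => fderiv ℝ φ (x (ψ k)) (v k)) atTop (𝓝 (fderiv ℝ φ x0 v')) :=
    fun {v v'} hv => by
      have hcn : Continuous fun z : V × V => fderiv ℝ φ z.1 z.2 :=
        (hφ1.comp continuous_fst).clm_apply continuous_snd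
      exact (hcn.tendsto (x0, v')).comp (hxl.prodMk_nhds hv)
  have hnum : ∀ v : V, Tendsto (fun k => fderiv ℝ φ (x (ψ k)) v + 2 * η (ψ k) * ⟪x (ψ k), v⟫ +
      ⟪a (ψ k), v⟫) atTop (𝓝 (fderiv ℝ φ x0 v)) := by
    intro v
    have h1 := ((hdφ (tendsto_const_nhds (x := v))).add
      ((hηl.const_mul 2).mul (hxl.inner (𝕜 := ℝ) (tendsto_const_nhds (x := v))))).add
        (hal.inner (𝕜 := ℝ) (tendsto_const_nhds (x := v)))
    simpa using h1
  obtain ⟨m, hm⟩ : ∃ m, m = -(fderiv ℝ φ x0 w) / fderiv ℝ F x0 w := ⟨_, rfl⟩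
  have hμl : Tendsto (fun k => μ (ψ k)) atTop (𝓝 m) := by
    have h1 := ((hnum w).neg).div (hdF (tendsto_const_nhds (x := w))) hw
    rw [← hm] at h1
    refine h1.congr' ?_
    filter_upwards [(hdF (tendsto_const_nhds (x := w))).eventually_ne hw] with k hk
    show -(fderiv ℝ φ (x (ψ k)) w + 2 * η (ψ k) * ⟪x (ψ k), w⟫ + ⟪a (ψ k), w⟫) /
      fderiv ℝ F (x (ψ k)) w = μ (ψ k)
    rw [hid, neg_neg, mul_div_assoc, div_self hk, mul_one]
  have hid0 : ∀ v, fderiv ℝ φ x0 v = -(m * fderiv ℝ F x0 v) := by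
    intro v
    have h1 : Tendsto (fun k => -(μ (ψ k) * fderiv ℝ F (x (ψ k)) v)) atTop
        (𝓝 (-(m * fderiv ℝ F x0 v))) := (hμl.mul (hdF (tendsto_const_nhds (x := v)))).neg
    refine tendsto_nhds_unique (hnum v) (h1.congr fun k => (hid _ v).symm)
  have hm0 : 0 < m := by
    have h1 : 0 ≤ m := ge_of_tendsto' hμl fun k => (hμ _).le
    rcases h1.lt_or_eq with h | h
    · exact h
    · exfalso
      obtain ⟨q, hq'⟩ := hq
      have h2 := RoomIdx_le hφ hc x0 q
      rw [hid0, ← h, zero_mul, neg_zero, add_zero] at h2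
      linarith
  -- the closure
  have hcl : x0 ∈ closure {x | F x = 0 ∧ TwoNeg F x} := by
    refine mem_closure_of_tendsto hxl (Eventually.of_forall fun k => ⟨hx _, ?_⟩)
    have hli : LinearIndependent ℝ ![(p (ψ k)).1, (p (ψ k)).2] := by
      rw [LinearIndependent.pair_iff]
      intro s t hst
      have e11 : ⟪(p (ψ k)).1, (p (ψ k)).1⟫ = (1 : ℝ) := by
        rw [real_inner_self_eq_norm_sq, hp1, one_pow]
      have e22 : ⟪(p (ψ k)).2, (p (ψ k)).2⟫ = (1 : ℝ) := by
        rw [real_inner_self_eq_norm_sq, hp2, one_pow]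
      have e21 : ⟪(p (ψ k)).2, (p (ψ k)).1⟫ = (0 : ℝ) := by rw [real_inner_comm, hp]
      constructor
      · have h4 : ⟪(p (ψ k)).1, s • (p (ψ k)).1 + t • (p (ψ k)).2⟫ = 0 := by
          rw [hst, inner_zero_right]
        rw [inner_add_right, real_inner_smul_right, real_inner_smul_right, e11, hp] at h4
        linarith
      · have h4 : ⟪(p (ψ k)).2, s • (p (ψ k)).1 + t • (p (ψ k)).2⟫ = 0 := by
          rw [hst, inner_zero_right]
        rw [inner_add_right, real_inner_smul_right, real_inner_smul_right, e22, e21] at h4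
        linarith
    refine ⟨Submodule.span ℝ {(p (ψ k)).1, (p (ψ k)).2}, ?_, ?_⟩
    · have h4 := finrank_span_eq_card hli
      rw [Matrix.range_cons, Matrix.range_cons, Matrix.range_empty, Set.union_empty,
        Fintype.card_fin] at h4
      exact h4
    · intro u hu hu0
      obtain ⟨s, t, rfl⟩ := Submodule.mem_span_pair.1 hu
      obtain ⟨h1, h2⟩ := hUk (ψ k) s t
      refine ⟨h1, ?_⟩
      have h3 := RoomIdx_hess hφ hc (x (ψ k)) (s • (p (ψ k)).1 + t • (p (ψ k)).2)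
      have h4 : 0 < ‖s • (p (ψ k)).1 + t • (p (ψ k)).2‖ := norm_pos_iff.2 hu0
      have h5 : 0 < 2 * η (ψ k) * ‖s • (p (ψ k)).1 + t • (p (ψ k)).2‖ ^ 2 :=
        mul_pos (mul_pos two_pos (hη0 _)) (by positivity)
      have h6 : μ (ψ k) * hess F (x (ψ k)) (s • (p (ψ k)).1 + t • (p (ψ k)).2)
          (s • (p (ψ k)).1 + t • (p (ψ k)).2) < 0 := by linarith
      by_contra h7
      have h8 := mul_nonneg (hμ (ψ k)).le (not_lt.1 h7)
      have h9 : hess F (x (ψ k)) (s • (p (ψ k)).1 + t • (p (ψ k)).2)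
          (s • (p (ψ k)).1 + t • (p (ψ k)).2) = fderiv ℝ (fderiv ℝ F) (x (ψ k))
          (s • (p (ψ k)).1 + t • (p (ψ k)).2) (s • (p (ψ k)).1 + t • (p (ψ k)).2) := rfl
      rw [← h9] at h8
      linarith
  -- the limit plane
  have hu1 : ‖u0‖ = 1 := tendsto_nhds_unique hul.norm (by simp only [hp1]; exact tendsto_const_nhds)
  have hv1 : ‖v0‖ = 1 := tendsto_nhds_unique hvl.norm (by simp only [hp2]; exact tendsto_const_nhds)
  have huv : ⟪u0, v0⟫ = 0 :=
    tendsto_nhds_unique (hul.inner (𝕜 := ℝ) hvl) (by simp only [hp]; exact tendsto_const_nhds)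
  have hli : LinearIndependent ℝ ![u0, v0] := by
    rw [LinearIndependent.pair_iff]
    intro s t hst
    have e11 : ⟪u0, u0⟫ = (1 : ℝ) := by rw [real_inner_self_eq_norm_sq, hu1, one_pow]
    have e22 : ⟪v0, v0⟫ = (1 : ℝ) := by rw [real_inner_self_eq_norm_sq, hv1, one_pow]
    have e21 : ⟪v0, u0⟫ = (0 : ℝ) := by rw [real_inner_comm, huv]
    constructor
    · have h4 : ⟪u0, s • u0 + t • v0⟫ = 0 := by rw [hst, inner_zero_right]
      rw [inner_add_right, real_inner_smul_right, real_inner_smul_right, e11, huv] at h4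
      linarith
    · have h4 : ⟪v0, s • u0 + t • v0⟫ = 0 := by rw [hst, inner_zero_right]
      rw [inner_add_right, real_inner_smul_right, real_inner_smul_right, e22, e21] at h4
      linarith
  have hfin : Module.finrank ℝ (Submodule.span ℝ {u0, v0}) = 2 := by
    have h4 := finrank_span_eq_card hli
    rw [Matrix.range_cons, Matrix.range_cons, Matrix.range_empty, Set.union_empty,
      Fintype.card_fin] at h4
    exact h4
  have hst : ∀ s t : ℝ, Tendsto (fun k => s • (p (ψ k)).1 + t • (p (ψ k)).2) atTop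
      (𝓝 (s • u0 + t • v0)) := fun s t => (hul.const_smul s).add (hvl.const_smul t)
  obtain ⟨z, hz, hz'⟩ := hS x0 hcl hφ0 m hm0 hid0 (Submodule.span ℝ {u0, v0}) hfin (by
    intro u hu
    obtain ⟨s, t, rfl⟩ := Submodule.mem_span_pair.1 hu
    have h1 := hdF (hst s t)
    have h2 : (fun k => fderiv ℝ F (x (ψ k)) (s • (p (ψ k)).1 + t • (p (ψ k)).2)) =
        fun _ => (0 : ℝ) := funext fun k => (hUk _ s t).1
    rw [h2] at h1
    exact tendsto_nhds_unique h1 tendsto_const_nhds)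
  obtain ⟨s, t, rfl⟩ := Submodule.mem_span_pair.1 hz
  have e1 : Tendsto (fun k => hess φ (x (ψ k)) (s • (p (ψ k)).1 + t • (p (ψ k)).2)
      (s • (p (ψ k)).1 + t • (p (ψ k)).2)) atTop
      (𝓝 (hess φ x0 (s • u0 + t • v0) (s • u0 + t • v0))) := by
    have hcn : Continuous fun z : V × V => fderiv ℝ (fderiv ℝ φ) z.1 z.2 z.2 :=
      ((hφ2.comp continuous_fst).clm_apply continuous_snd).clm_apply continuous_snd
    exact (hcn.tendsto (x0, s • u0 + t • v0)).comp (hxl.prodMk_nhds (hst s t))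
  have e2 : Tendsto (fun k => hess F (x (ψ k)) (s • (p (ψ k)).1 + t • (p (ψ k)).2)
      (s • (p (ψ k)).1 + t • (p (ψ k)).2)) atTop
      (𝓝 (hess F x0 (s • u0 + t • v0) (s • u0 + t • v0))) := by
    have hcn : Continuous fun z : V × V => fderiv ℝ (fderiv ℝ F) z.1 z.2 z.2 :=
      ((hF2.comp continuous_fst).clm_apply continuous_snd).clm_apply continuous_snd
    exact (hcn.tendsto (x0, s • u0 + t • v0)).comp (hxl.prodMk_nhds (hst s t))
  have e3 : Tendsto (fun k => 2 * η (ψ k) * ‖s • (p (ψ k)).1 + t • (p (ψ k)).2‖ ^ 2) atTop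
      (𝓝 0) := by
    have h1 := (hηl.const_mul 2).mul ((hst s t).norm.pow 2)
    simpa using h1
  have h4 := (e1.add e3).add (hμl.mul e2)
  have h5 := le_of_tendsto' h4 fun k => (hUk (ψ k) s t).2
  rw [add_zero] at h5
  linarith

end Pool.Schoen
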