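import Pool.Agent.H.MP_6c077c_gt.Lz.Sard
import Pool.Agent.H.MP_6c077c_gt.Lz.RoomIdx
import Pool.Agent.H.MP_6c077c_gt.Ph.PIdx

/-! Room theorem: perturbation of the height. -/

set_option autoImplicit false

namespace Pool.Schoen

open Filter Set
open scoped Topology RealInnerProductSpace ContDiff

variable {V : Type*} [NormedAddCommGroup V] [InnerProductSpace ℝ V] [FiniteDimensional ℝ V]

/-- the perturbed height -/
noncomputable def perturbF (φ : V → ℝ) (η : ℝ) (a : V) (x : V) : ℝ := φ x + η * ‖x‖ ^ 2 + ⟪a, x⟫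

omit [FiniteDimensional ℝ V] in
theorem Perturb_smooth {φ : V → ℝ} (hφ : ContDiff ℝ ∞ φ) (η : ℝ) (a : V) :
    ContDiff ℝ ∞ (perturbF φ η a) :=
  (hφ.add (contDiff_const.mul (contDiff_id.norm_sq ℝ))).add (contDiff_const.inner ℝ contDiff_id)

omit [FiniteDimensional ℝ V] in
theorem Perturb_inner (w x : V) :
    HasFDerivAt (fun y : V => ⟪w, y⟫) (innerSL ℝ w) x := (innerSL ℝ w).hasFDerivAt

omit [FiniteDimensional ℝ V] in
theorem Perturb_fderiv {φ : V → ℝ} (hφ : ContDiff ℝ ∞ φ) (η : ℝ) (a x v : V) :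
    fderiv ℝ (perturbF φ η a) x v = fderiv ℝ φ x v + 2 * η * ⟪x, v⟫ + ⟪a, v⟫ := by
  have h1 : HasFDerivAt φ (fderiv ℝ φ x) x := ((hφ.differentiable (by simp)) x).hasFDerivAt
  have h2 : HasFDerivAt (fun y : V => ‖y‖ ^ 2) (2 • innerSL ℝ x) x :=
    (hasStrictFDerivAt_norm_sq x).hasFDerivAt
  have h3 := ((h1.add (h2.const_mul η)).add (Perturb_inner a x)).fderiv
  have h4 : fderiv ℝ (perturbF φ η a) x = fderiv ℝ φ x + η • (2 • innerSL ℝ x) + innerSL ℝ a := h3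
  rw [h4]
  simp only [_root_.add_apply, _root_.smul_apply, innerSL_apply_apply, smul_eq_mul, nsmul_eq_mul,
    Nat.cast_ofNat]
  ring

omit [FiniteDimensional ℝ V] in
theorem Perturb_hess {φ : V → ℝ} (hφ : ContDiff ℝ ∞ φ) (η : ℝ) (a x u w : V) :
    hess (perturbF φ η a) x u w = hess φ x u w + 2 * η * ⟪u, w⟫ := by
  have e1 : ∀ {G : V → ℝ}, ContDiff ℝ ∞ G →
      HasFDerivAt (fun y => fderiv ℝ G y w)
        ((ContinuousLinearMap.apply ℝ ℝ w).comp (fderiv ℝ (fderiv ℝ G) x)) x := by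
    intro G hG
    have h1 : HasFDerivAt (fderiv ℝ G) (fderiv ℝ (fderiv ℝ G) x) x :=
      (((hG.fderiv_right (m := 1) (by norm_cast)).differentiable (by simp)) x).hasFDerivAt
    exact (ContinuousLinearMap.apply ℝ ℝ w).hasFDerivAt.comp x h1
  have h1 := e1 (Perturb_smooth hφ η a)
  have h2 := e1 hφ
  have h3 : HasFDerivAt (fun y : V => ⟪y, w⟫) (innerSL ℝ w) x := by
    have h4 := Perturb_inner w x
    have h5 : (fun y : V => ⟪y, w⟫) = fun y : V => ⟪w, y⟫ := by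
      funext y
      exact real_inner_comm _ _
    rw [h5]
    exact h4
  have h4 := (h2.add (h3.const_mul (2 * η))).add_const ⟪a, w⟫
  have h5 : (fun y => fderiv ℝ (perturbF φ η a) y w) =
      fun y => fderiv ℝ φ y w + 2 * η * ⟪y, w⟫ + ⟪a, w⟫ := by
    funext y
    exact Perturb_fderiv hφ η a y w
  rw [h5] at h1
  have h6 := congrArg (fun D : V →L[ℝ] ℝ => D u) (h1.unique h4)
  have h7 : hess (perturbF φ η a) x u w = hess φ x u w + 2 * η * ⟪w, u⟫ := h6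
  rw [h7, real_inner_comm]

omit [FiniteDimensional ℝ V] in
theorem Perturb_first {φ : V → ℝ} (hφ : ContDiff ℝ ∞ φ) (hc : ConvexOn ℝ univ φ)
    (x y : V) : φ x + fderiv ℝ φ x (y - x) ≤ φ y := by
  have h1 := hc.comp_affineMap (AffineMap.lineMap x y : ℝ →ᵃ[ℝ] V)
  have h2 : HasDerivAt (φ ∘ (AffineMap.lineMap x y : ℝ →ᵃ[ℝ] V)) (fderiv ℝ φ x (y - x)) 0 := by
    have h3 : HasFDerivAt φ (fderiv ℝ φ x) ((AffineMap.lineMap x y : ℝ →ᵃ[ℝ] V) 0) := by
      rw [AffineMap.lineMap_apply_zero]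
      exact ((hφ.differentiable (by simp)) x).hasFDerivAt
    exact h3.comp_hasDerivAt 0 AffineMap.hasDerivAt_lineMap
  have h3 := h1.le_slope_of_hasDerivAt (mem_univ _) (mem_univ _) zero_lt_one h2
  rw [slope_def_field] at h3
  simp only [Function.comp_apply, AffineMap.lineMap_apply_zero, AffineMap.lineMap_apply_one,
    sub_zero, div_one] at h3
  linarith

omit [FiniteDimensional ℝ V] in
theorem Perturb_uconv {φ : V → ℝ} (hφ : ContDiff ℝ ∞ φ) (hc : ConvexOn ℝ univ φ) {η : ℝ}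
    (hη : 0 < η) (a : V) : UConv (perturbF φ η a) η := by
  refine ⟨Perturb_smooth hφ η a, hη, fun x y => ?_⟩
  rw [Perturb_fderiv hφ]
  have h1 := Perturb_first hφ hc x y
  have h2 : ‖y‖ ^ 2 = ‖x‖ ^ 2 + 2 * ⟪x, y - x⟫ + ‖y - x‖ ^ 2 := by
    have h3 := norm_add_sq_real x (y - x)
    rwa [add_sub_cancel] at h3
  have h3 : ⟪a, y⟫ = ⟪a, x⟫ + ⟪a, y - x⟫ := by rw [inner_sub_right]; ring
  unfold perturbF
  rw [h3, h2]
  linarith

/-- the relatively critical points above a level are finitely many -/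
theorem Perturb_finite {F φ : V → ℝ} (hF : ContDiff ℝ ∞ F) (hφ : ContDiff ℝ ∞ φ)
    (hb : Bornology.IsBounded {x | F x ≤ 0}) (hreg : ∀ x, F x = 0 → gradient F x ≠ 0) (c : ℝ)
    (hφr : ∀ x, F x ≤ 0 → c ≤ φ x → fderiv ℝ φ x ≠ 0)
    (hnd : ∀ x μ, RelCrit F φ μ x → c ≤ φ x → ∀ w, fderiv ℝ φ x w = 0 →
      (∀ w', fderiv ℝ φ x w' = 0 → hess F x w w' + μ * hess φ x w w' = 0) → w = 0) :
    {x | c ≤ φ x ∧ ∃ μ, RelCrit F φ μ x}.Finite := by
  have hfd : ∀ x, F x = 0 → fderiv ℝ F x ≠ 0 := fun x hx h0 => hreg x hx (by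
    rw [gradient, h0, map_zero])
  have hF2 : Continuous (fderiv ℝ F) := (hF.fderiv_right (m := 1) (by norm_cast)).continuous
  have hφ2 : Continuous (fderiv ℝ φ) := (hφ.fderiv_right (m := 1) (by norm_cast)).continuous
  obtain ⟨Z, hZ⟩ : ∃ Z : Set V, Z = {x | c ≤ φ x ∧ ∃ μ, RelCrit F φ μ x} := ⟨_, rfl⟩
  rw [← hZ]
  by_contra hinf
  have hcpt : IsCompact {x | F x ≤ 0} :=
    Metric.isCompact_of_isClosed_isBounded (isClosed_le hF.continuous continuous_const) hb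
  obtain ⟨x, -, hacc⟩ := Set.Infinite.exists_accPt_of_subset_isCompact hinf hcpt fun y hy => by
    rw [hZ] at hy
    obtain ⟨-, μ, hy0, -⟩ := hy
    exact le_of_eq hy0
  have hfr := accPt_iff_frequently_nhdsNE.1 hacc
  have hcl : IsClosed {y | F y = 0 ∧ c ≤ φ y} :=
    (isClosed_eq hF.continuous continuous_const).inter (isClosed_le continuous_const hφ.continuous)
  have hx : F x = 0 ∧ c ≤ φ x := by
    have h1 : x ∈ closure Z := by
      rw [mem_closure_iff_frequently]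
      exact (hfr.filter_mono nhdsWithin_le_nhds)
    have h2 : Z ⊆ {y | F y = 0 ∧ c ≤ φ y} := fun y hy => by
      rw [hZ] at hy
      obtain ⟨hy1, μ, hy0, -⟩ := hy
      exact ⟨hy0, hy1⟩
    exact closure_minimal h2 hcl h1
  have hφ0 := hφr x hx.1.le hx.2
  rcases free_or_rel (φ := φ) hx.1 (hfd x hx.1) hφ0 with ⟨v, h1, h2⟩ | ⟨μ, hμ⟩
  · have e1 : ∀ᶠ y in 𝓝 x, fderiv ℝ F y v < 0 :=
      (hF2.clm_apply continuous_const).continuousAt.eventually_lt_const h1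
    have e2 : ∀ᶠ y in 𝓝 x, fderiv ℝ φ y v < 0 :=
      (hφ2.clm_apply continuous_const).continuousAt.eventually_lt_const h2
    obtain ⟨y, hyZ, hy1, hy2⟩ := (hfr.and_eventually
      (nhdsWithin_le_nhds (e1.and e2))).exists
    rw [hZ] at hyZ
    obtain ⟨-, ν, -, hν, hgy⟩ := hyZ
    rw [hgy v] at hy1
    have := mul_pos_of_neg_of_neg (neg_neg_of_pos hν) hy2
    linarith
  · have h1 := relCrit_isolated hF hφ hμ hφ0 (hnd x μ hμ hx.2)
    obtain ⟨y, hyZ, hy1⟩ := (hfr.and_eventually h1).exists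
    rw [hZ] at hyZ
    exact hy1 hyZ.2

/-- PROOF. `W = {F ≤ 0} ⊆ closedBall 0 R`. `φ' = φ + η ‖x‖ ^ 2 + ⟪a, x⟫` with `η (R ^ 2) ≤ ε / 2`, `‖a‖ R ≤ ε / 2`
and `a` from `exists_generic` (applied to `φ + η ‖·‖ ^ 2`), so `|φ' - φ| ≤ ε` on `W`; `UConv φ' η`.
(1) (`room_index`) For small `ε` every `x` with `F x = 0`, `φ' x ≥ - 3 ε`, `∇φ' x = - μ ∇F x`, `μ > 0` satisfies the index
condition `∀ U ≤ ker DF, dim U = 2 → ∃ u ∈ U, 0 < hess φ' x u u + μ * hess F x u u`: otherwise a sequence `ε_k → 0`, `x_k`, `μ_k`, orthonormal pairs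
spanning `U_k` with `hess φ' + μ_k hess F ≤ 0` on `U_k`; as `hess φ ≥ 0` (convexity) `μ_k hess F ≤ - 2 η_k` on
`U_k`, so `TwoNeg F x_k`; a limit point `x` is in the closure, `φ x ≥ 0 > φ q`, so `∇φ x ≠ 0`,
`μ_k → μ = ‖∇φ x‖ / ‖∇F x‖ > 0`, and `hess φ + μ hess F ≤ 0` on the limit `U`, against `RoomSad`.
(2) The set of these `x` is compact (`∇φ' ≠ 0` on `φ' ≥ - 3 ε > φ' q`) and discrete (nondegenerate),
so finite. Take `c ∈ (-2 ε, -ε)` not a height of such a point, `c' < c` close, `P` those with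
`φ' > c`. `PClass`: `InwP` from the index condition and nondegeneracy (file Ph/PIdx of helper86, or by hand: a
nondegenerate symmetric form on the 3-dimensional kernel without 2-dimensional nonpositive subspace); other zeros with `c' ≤ φ'` are free (`∇φ'` is not a negative multiple
of `∇F`; compare `two_of_level` in `Gd/Level.lean`). `φ' ≤ c` and `F ≤ 0` imply `φ ≤ c + ε < 0`. -/
theorem room_perturb (n : ℕ) (hn : Module.finrank ℝ V = n + 1) {F φ : V → ℝ}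
    (hF : ContDiff ℝ ∞ F) (hb : Bornology.IsBounded {x | F x ≤ 0})
    (hreg : ∀ x, F x = 0 → gradient F x ≠ 0) (hφ : ContDiff ℝ ∞ φ) (hc : ConvexOn ℝ univ φ)
    (hq : ∃ q, φ q < 0) (hS : RoomSad F φ) :
    ∃ (φ' : V → ℝ) (η c c' : ℝ) (P : Finset V), UConv φ' η ∧ c' < c ∧ (∃ q, φ' q < c') ∧
      PClass F φ' c' P ∧ (∀ p ∈ P, c < φ' p) ∧ ∀ x, F x ≤ 0 → φ' x ≤ c → φ x ≤ 0 := by
  obtain ⟨ε0, hε0, hidx⟩ := room_index hF hb hreg hφ hc hq hS
  obtain ⟨q, hq⟩ := hq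
  obtain ⟨R0, hR0⟩ := hb.subset_closedBall (0 : V)
  obtain ⟨R, hR⟩ : ∃ R : ℝ, R = max R0 0 + ‖q‖ + 1 := ⟨_, rfl⟩
  have hRpos : 1 ≤ R := by
    rw [hR]
    have := le_max_right R0 0
    have := norm_nonneg q
    linarith
  have hqR : ‖q‖ ≤ R := by
    rw [hR]
    have := le_max_right R0 0
    linarith
  have hWR : ∀ x, F x ≤ 0 → ‖x‖ ≤ R := by
    intro x hx
    have h1 := mem_closedBall_zero_iff.1 (hR0 hx)
    rw [hR]
    have := le_max_left R0 0
    have := norm_nonneg q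
    linarith
  obtain ⟨ε, hε, hε1, hε2⟩ : ∃ ε : ℝ, 0 < ε ∧ 8 * ε ≤ ε0 ∧ 8 * ε ≤ -φ q := by
    have h1 : 0 < min ε0 (-φ q) := lt_min hε0 (by linarith)
    have h2 := min_le_left ε0 (-φ q)
    have h3 := min_le_right ε0 (-φ q)
    exact ⟨min ε0 (-φ q) / 8, by linarith, by linarith, by linarith⟩
  obtain ⟨η, hη⟩ : ∃ η : ℝ, η = ε / (2 * R ^ 2) := ⟨_, rfl⟩
  have hR2 : 1 ≤ R ^ 2 := by nlinarith
  have hη0 : 0 < η := by
    rw [hη]
    positivity
  have hηR : η * R ^ 2 = ε / 2 := by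
    rw [hη]
    field_simp
  have hηε : η < ε0 := by
    have h1 : η ≤ η * R ^ 2 := le_mul_of_one_le_right hη0.le hR2
    linarith
  have hK : IsCompact {x | F x = 0} :=
    Metric.isCompact_of_isClosed_isBounded (isClosed_eq hF.continuous continuous_const)
      (hb.subset fun x hx => le_of_eq hx)
  have hδ : 0 < ε / (2 * R) := by positivity
  obtain ⟨a, ha, hgen⟩ := exists_generic n hn hF (Perturb_smooth hφ η (0 : V)) hreg hK hδ
  have haR : ‖a‖ * R ≤ ε / 2 := by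
    have h1 : ‖a‖ * R ≤ ε / (2 * R) * R := mul_le_mul_of_nonneg_right ha.le (by linarith)
    have h2 : ε / (2 * R) * R = ε / 2 := by field_simp
    linarith
  have haε : ‖a‖ < ε0 := by
    have h1 : ‖a‖ ≤ ‖a‖ * R := le_mul_of_one_le_right (norm_nonneg a) hRpos
    linarith
  have hclose : ∀ x, ‖x‖ ≤ R → |perturbF φ η a x - φ x| ≤ ε := by
    intro x hx
    have h1 : perturbF φ η a x - φ x = η * ‖x‖ ^ 2 + ⟪a, x⟫ := by
      unfold perturbF
      ring
    have h2 : |⟪a, x⟫| ≤ ε / 2 := by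
      refine (abs_real_inner_le_norm a x).trans ?_
      exact (mul_le_mul_of_nonneg_left hx (norm_nonneg a)).trans haR
    have h3 : η * ‖x‖ ^ 2 ≤ ε / 2 := by
      rw [← hηR]
      have : ‖x‖ ^ 2 ≤ R ^ 2 := pow_le_pow_left₀ (norm_nonneg x) hx 2
      exact mul_le_mul_of_nonneg_left this hη0.le
    have h4 : 0 ≤ η * ‖x‖ ^ 2 := by positivity
    rw [h1, abs_le]
    have h5 := abs_le.1 h2
    constructor <;> linarith [h5.1, h5.2]
  have hsm := Perturb_smooth hφ η a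
  have hU := Perturb_uconv hφ hc hη0 a
  have hq' : perturbF φ η a q < -(3 * ε) := by
    have h1 := (abs_le.1 (hclose q hqR)).2
    linarith
  have hφr : ∀ x, F x ≤ 0 → -(3 * ε) ≤ perturbF φ η a x → fderiv ℝ (perturbF φ η a) x ≠ 0 :=
    fun x _ hx => hU.fderiv_ne hq' hx
  -- relatively critical points
  have hrel : ∀ x μ, RelCrit F (perturbF φ η a) μ x → ∀ v,
      fderiv ℝ φ x v + 2 * η * ⟪x, v⟫ + ⟪a, v⟫ = -(μ⁻¹ * fderiv ℝ F x v) := by
    rintro x μ ⟨-, hμ, hg⟩ v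
    rw [hg v, ← Perturb_fderiv hφ]
    field_simp
  have hker : ∀ x μ, RelCrit F (perturbF φ η a) μ x → ∀ v,
      fderiv ℝ F x v = 0 ↔ fderiv ℝ (perturbF φ η a) x v = 0 := by
    rintro x μ ⟨-, hμ, hg⟩ v
    rw [hg v, neg_eq_zero, mul_eq_zero]
    exact ⟨fun h => h.resolve_left hμ.ne', Or.inr⟩
  have hnd : ∀ x μ, RelCrit F (perturbF φ η a) μ x → -(3 * ε) ≤ perturbF φ η a x →
      ∀ w, fderiv ℝ (perturbF φ η a) x w = 0 →
      (∀ w', fderiv ℝ (perturbF φ η a) x w' = 0 →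
        hess F x w w' + μ * hess (perturbF φ η a) x w w' = 0) → w = 0 := by
    intro x μ h _ w hw hw'
    by_contra hw0
    have hμ : 0 < μ := h.2.1
    obtain ⟨w1, h1, h2⟩ := hgen x h.1 μ⁻¹ (inv_pos.2 hμ) (fun v => by
      have h3 := hrel x μ h v
      rw [Perturb_fderiv hφ, inner_zero_left, add_zero]
      exact h3) w hw0 ((hker x μ h w).2 hw)
    apply h2
    have h4 := hw' w1 ((hker x μ h w1).1 h1)
    rw [Perturb_hess hφ] at h4 ⊢
    have h5 : μ * (hess φ x w w1 + 2 * η * ⟪w, w1⟫ + μ⁻¹ * hess F x w w1) = 0 := by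
      rw [mul_add, ← mul_assoc μ μ⁻¹, mul_inv_cancel₀ hμ.ne', one_mul]
      linarith
    exact (mul_eq_zero.1 h5).resolve_left hμ.ne'
  have htwo : ∀ x μ, RelCrit F (perturbF φ η a) μ x → -(3 * ε) ≤ perturbF φ η a x →
      ¬ ∃ U : Submodule ℝ V, Module.finrank ℝ U = 2 ∧ ∀ u ∈ U, u ≠ 0 →
        fderiv ℝ (perturbF φ η a) x u = 0 ∧
          hess F x u u + μ * hess (perturbF φ η a) x u u < 0 := by
    rintro x μ h hx ⟨U, hU2, hneg⟩
    have hμ : 0 < μ := h.2.1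
    have hxR := hWR x h.1.le
    have hφx : -ε0 ≤ φ x := by
      have h1 := (abs_le.1 (hclose x hxR)).2
      linarith
    obtain ⟨u, huU, hu⟩ := hidx η a hη0 hηε haε x h.1 hφx μ⁻¹ (inv_pos.2 hμ) (hrel x μ h) U hU2
      (fun u hu => by
        by_cases hu0 : u = 0
        · rw [hu0, map_zero]
        · exact (hker x μ h u).2 (hneg u hu hu0).1)
    have hu0 : u ≠ 0 := by
      rintro rfl
      simp [hess] at hu
    have h2 := (hneg u huU hu0).2
    rw [Perturb_hess hφ, real_inner_self_eq_norm_sq] at h2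
    have h3 := mul_pos hμ hu
    rw [mul_add, ← mul_assoc μ μ⁻¹, mul_inv_cancel₀ hμ.ne', one_mul] at h3
    linarith
  have hfin := Perturb_finite hF hsm hb hreg (-(3 * ε)) hφr hnd
  -- the levels
  obtain ⟨H, hH⟩ : ∃ H : Set ℝ,
      H = perturbF φ η a '' {x | -(3 * ε) ≤ perturbF φ η a x ∧ ∃ μ, RelCrit F (perturbF φ η a) μ x} :=
    ⟨_, rfl⟩
  have hHf : H.Finite := by
    rw [hH]
    exact hfin.image _
  obtain ⟨c, ⟨hc1, hc2⟩, hcH⟩ : ∃ c ∈ Ioo (-(3 * ε)) (-(2 * ε)), c ∉ H :=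
    ((Ioo_infinite (by linarith)).sdiff hHf).nonempty
  obtain ⟨r, hr, hrH⟩ := Metric.isOpen_iff.1 hHf.isClosed.isOpen_compl c hcH
  obtain ⟨c', hc'1, hc'2, hc'3⟩ : ∃ c' : ℝ, -(3 * ε) < c' ∧ c' < c ∧ c - c' < r := by
    have h1 : max (-(3 * ε)) (c - r) < c := max_lt hc1 (by linarith)
    obtain ⟨c', h2, h3⟩ := exists_between h1
    have h4 := le_max_left (-(3 * ε)) (c - r)
    have h5 := le_max_right (-(3 * ε)) (c - r)
    exact ⟨c', by linarith, h3, by linarith⟩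
  have hnoc : ∀ x μ, RelCrit F (perturbF φ η a) μ x → c' ≤ perturbF φ η a x →
      perturbF φ η a x ≤ c → False := by
    intro x μ h h1 h2
    have h3 : perturbF φ η a x ∈ Metric.ball c r := by
      rw [Metric.mem_ball, Real.dist_eq, abs_lt]
      constructor <;> linarith
    apply hrH h3
    rw [hH]
    exact ⟨x, ⟨by linarith, μ, h⟩, rfl⟩
  obtain ⟨P, hP⟩ := pclass_of_nondeg hF hsm hb hreg c' (fun x hx hx' => hφr x hx (by linarith))
    (fun x μ h hx => hnd x μ h (by linarith)) (fun x μ h hx => htwo x μ h (by linarith))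
    (fun x μ h hx => hnoc x μ h hx.ge (by linarith))
  refine ⟨perturbF φ η a, η, c, c', P, hU, hc'2, ⟨q, by linarith⟩, hP, ?_, ?_⟩
  · intro p hp
    by_contra hcon
    obtain ⟨μ, hμ, hg, -⟩ := (hP.inw p hp).idx
    exact hnoc p μ ⟨(hP.inw p hp).zero, hμ, hg⟩ (hP.high p hp).le (not_lt.1 hcon)
  · intro x hx hxc
    have h1 := (abs_le.1 (hclose x (hWR x hx))).1
    linarith

end Pool.Schoen
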