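import Pool.Agent.H.MP_6c077c_gt.Ph.PInd
import Pool.Agent.H.MP_6c077c_gt.Lz.Perturb
import Pool.Agent.H.MP_6c077c_gt.Lz.Erode
import Pool.Agent.H.MP_6c077c_gt.Lz.LineCore

/-! Room theorem: assembly. -/

set_option autoImplicit false

namespace Pool.Schoen

open Filter Set
open scoped Topology RealInnerProductSpace ContDiff

variable {V : Type*} [NormedAddCommGroup V] [InnerProductSpace ℝ V] [FiniteDimensional ℝ V]

/-- The gradient of a smooth function vanishes at a local maximum. -/
theorem Main_locmax {F : V → ℝ} {x : V} (h : IsLocalMax F x) : gradient F x = 0 := by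
  have h1 := h.fderiv_eq_zero
  unfold gradient
  rw [h1, map_zero]

/-- The base: without inward points above the level `c'` the body is carried below a level between
`c'` and `c`, where it is a union of components of `{F ≤ 0, φ ≤ s}`. -/
theorem room_base (hdim : Module.finrank ℝ V = 4)
    (hA : ∀ e : V, ‖e‖ = 1 → ∀ F : (ℝ ∙ e)ᗮ → ℝ, Dom F → IsPreconnected {x | 0 < F x} → IsBall F)
    {F φ : V → ℝ} (hF : ContDiff ℝ ∞ F) (hb : Bornology.IsBounded {x | F x ≤ 0})
    (hreg : ∀ x, F x = 0 → gradient F x ≠ 0) {η c c' : ℝ} (hφ : UConv φ η) (hcc : c' < c)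
    (hq : ∃ q, φ q < c') {P : Finset V} (hcl : PClass F φ c' P) (hP : ∀ p ∈ P, c < φ p)
    {v : V} (hv : ‖v‖ = 1)
    (hconv : ∀ (x : V) (r t : ℝ), 0 ≤ r → r ≤ t → F x ≤ 0 → φ x ≤ c → F (x + t • v) ≤ 0 →
      φ (x + t • v) ≤ c → F (x + r • v) ≤ 0)
    {g φ' : V → ℝ} (hg : PClass g φ' c ∅) (hlow : PLow g φ' F φ c) (hs : PSides g) :
    IsBall g := by
  have hFc := hF.continuous
  have hgc := hg.good.cont
  -- the class at the lower level
  have hg' : PClass g φ' c' ∅ := by
    refine ⟨hg.sm, hg.bdd, hg.good, fun p hp => absurd hp (Finset.notMem_empty p),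
      fun p hp => absurd hp (Finset.notMem_empty p), fun x hx hxc _ => ?_, fun x hx hxc => ?_⟩
    · rcases le_or_gt c (φ' x) with h | h
      · exact hg.free x hx h (Finset.notMem_empty x)
      · have h1 : φ x ≤ c := (hlow.1 x).1 h.le
        obtain ⟨h2, -, h4⟩ := hlow.2 x h1
        have h5 := h4 hx
        have h6 : F x = 0 := by rw [← h5.self_of_nhds, hx]
        have h7 : φ x = φ' x := h2.self_of_nhds.symm
        obtain ⟨w, hw, hw'⟩ := hcl.free x h6 (by rw [h7]; exact hxc) fun h8 => by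
          have := hP x h8
          linarith
        refine ⟨w, hw.congr h5.symm, ?_⟩
        rw [h2.fderiv_eq]
        exact hw'
    · rcases le_or_gt c (φ' x) with h | h
      · exact hg.reg x hx h
      · have h1 : φ x ≤ c := (hlow.1 x).1 h.le
        obtain ⟨h2, h3, -⟩ := hlow.2 x h1
        rw [h2.fderiv_eq]
        exact hcl.reg x (h3 hx) (by rw [← h2.self_of_nhds]; exact hxc)
  -- truncation
  obtain ⟨s, hs1, hs2⟩ := exists_between hcc
  have hhom := ptrunc_hom hg' (κ := 1) (s := s) one_pos hs1.le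
    fun p hp => absurd hp (Finset.notMem_empty p)
  set k := ptrunc g φ' 1 s with hk
  have hkv : ∀ x, k x = max (g x) (φ' x - s) := fun x => by
    rw [hk]
    unfold ptrunc
    rw [one_mul]
  have hkg : Good k := hhom.good_right
  have hkb : Bornology.IsBounded {x | k x ≤ 0} := hhom.bdd hg.bdd
  have hks := hs.hom (by omega) hhom
  -- below the level `s`
  have hin : ∀ x, k x ≤ 0 → g x ≤ 0 ∧ φ x ≤ s ∧ F x ≤ 0 := by
    intro x hx
    rw [hkv, max_le_iff] at hx
    have h1 : φ' x ≤ c := by linarith [hx.2]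
    have h2 : φ x ≤ c := (hlow.1 x).1 h1
    obtain ⟨h3, h4, -⟩ := hlow.2 x h2
    have h5 : φ' x = φ x := h3.self_of_nhds
    exact ⟨hx.1, by rw [← h5]; linarith [hx.2], h4 hx.1⟩
  have hφc : Continuous φ := hφ.smooth.continuous
  have hloc : ∀ x, k x = 0 → k =ᶠ[𝓝 x] fun y => max (F y) (φ y - s) := by
    intro x hx
    obtain ⟨h1, h2, h3⟩ := hin x hx.le
    have h4 : φ x ≤ c := by linarith
    obtain ⟨h5, -, h7⟩ := hlow.2 x h4
    rcases eq_or_lt_of_le h1 with h8 | h8
    · filter_upwards [h5, h7 h8] with y hy1 hy2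
      rw [hkv, hy1, hy2]
    · have h9 : F x < 0 := by
        refine lt_of_le_of_ne h3 fun h0 => hreg x h0 (Main_locmax ?_)
        have h10 : ∀ᶠ y in 𝓝 x, φ y < c := hφc.continuousAt.eventually_lt_const (by linarith)
        have h11 : ∀ᶠ y in 𝓝 x, g y < 0 := hgc.continuousAt.eventually_lt_const h8
        filter_upwards [h10, h11] with y hy1 hy2
        rw [h0]
        exact (hlow.2 y hy1.le).2.1 hy2.le
      have h12 : φ x - s = 0 := by
        have h13 := hkv x
        rw [hx, h5.self_of_nhds] at h13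
        rcases max_choice (g x) (φ x - s) with h14 | h14
        · rw [h14] at h13
          linarith
        · rw [h14] at h13
          exact h13.symm
      have hcs : Continuous fun y => φ y - s := hφc.sub continuous_const
      filter_upwards [h5, hgc.continuousAt.eventually_lt hcs.continuousAt (by rw [h12]; exact h8),
        hFc.continuousAt.eventually_lt hcs.continuousAt (by rw [h12]; exact h9)] with y hy1 hy2 hy3
      rw [hkv, hy1, max_eq_right hy2.le, max_eq_right hy3.le]
  -- convexity in the direction `v`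
  have hkc : ∀ (x : V) (r t : ℝ), 0 ≤ r → r ≤ t → k x ≤ 0 → k (x + t • v) ≤ 0 →
      k (x + r • v) ≤ 0 := by
    intro x r t hr hrt hx hxt
    obtain ⟨hg0, hφ0, hF0⟩ := hin x hx
    obtain ⟨hgt, hφt, hFt⟩ := hin _ hxt
    have hφr : ∀ r', 0 ≤ r' → r' ≤ t → φ (x + r' • v) ≤ s := by
      intro r' h0 h1
      rcases eq_or_lt_of_le (h0.trans h1) with ht | ht
      · have : r' = 0 := by linarith
        rw [this, zero_smul, add_zero]
        exact hφ0
      · have h2 := hφ.convexOn.2 (mem_univ x) (mem_univ (x + t • v))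
          (show (0 : ℝ) ≤ 1 - r' / t by rw [sub_nonneg, div_le_one ht]; exact h1)
          (show (0 : ℝ) ≤ r' / t by positivity) (by ring)
        have h3 : (1 - r' / t) • x + (r' / t) • (x + t • v) = x + r' • v := by
          rw [smul_add, smul_smul, div_mul_cancel₀ _ ht.ne', sub_smul, one_smul]
          abel
        rw [h3] at h2
        simp only [smul_eq_mul] at h2
        have h4 : 0 ≤ r' / t := by positivity
        have h5 : 0 ≤ 1 - r' / t := by rw [sub_nonneg, div_le_one ht]; exact h1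
        nlinarith
    have hFr : ∀ r', 0 ≤ r' → r' ≤ t → F (x + r' • v) ≤ 0 := fun r' h0 h1 =>
      hconv x r' t h0 h1 hF0 (by linarith) hFt (by linarith)
    -- the set of parameters in the body of `g` is clopen
    have hcl1 : IsPreconnected (Icc (0 : ℝ) t) := isPreconnected_Icc
    have hgc' : Continuous fun r' : ℝ => g (x + r' • v) := by fun_prop
    have hφc' : Continuous fun r' : ℝ => φ (x + r' • v) := by fun_prop
    have hkey : Icc (0 : ℝ) t ⊆ {r' | g (x + r' • v) ≤ 0} := by
      have hclopen : ∀ r' ∈ Icc (0 : ℝ) t, g (x + r' • v) ≤ 0 →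
          ∀ᶠ r'' in 𝓝 r', r'' ∈ Icc (0 : ℝ) t → g (x + r'' • v) ≤ 0 := by
        intro r' hr' hgr
        have h1 : φ (x + r' • v) ≤ c := by linarith [hφr r' hr'.1 hr'.2]
        rcases eq_or_lt_of_le hgr with h2 | h2
        · have h3 := (hlow.2 _ h1).2.2 h2
          have h4 : Continuous fun r'' : ℝ => x + r'' • v := by fun_prop
          filter_upwards [h4.continuousAt.eventually h3] with r'' hr'' hr3
          rw [hr'']
          exact hFr r'' hr3.1 hr3.2
        · filter_upwards [hgc'.continuousAt.eventually_lt_const h2] with r'' hr'' _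
          exact hr''.le
      by_contra hcon
      obtain ⟨r1, hr1, hr1'⟩ := not_subset.1 hcon
      have hr1g : 0 < g (x + r1 • v) := not_le.1 hr1'
      have h0 := hcl1 {r' | ∀ᶠ r'' in 𝓝 r', r'' ∈ Icc (0 : ℝ) t → g (x + r'' • v) ≤ 0}
        {r' | 0 < g (x + r' • v)} ?_ (isOpen_lt continuous_const hgc') ?_ ?_ ?_
      · obtain ⟨r2, hr2, h21, h22⟩ := h0
        have h3 := h21.self_of_nhds hr2
        have h4 : 0 < g (x + r2 • v) := h22
        linarith
      · rw [isOpen_iff_mem_nhds]
        intro r' hr'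
        exact eventually_eventually_nhds.2 hr'
      · intro r' hr'
        by_cases h : g (x + r' • v) ≤ 0
        · exact Or.inl (hclopen r' hr' h)
        · exact Or.inr (not_le.1 h)
      · refine ⟨0, ⟨le_rfl, hr.trans hrt⟩, hclopen 0 ⟨le_rfl, hr.trans hrt⟩ ?_⟩
        rw [zero_smul, add_zero]
        exact hg0
      · exact ⟨r1, hr1, hr1g⟩
    have hgr : g (x + r • v) ≤ 0 := hkey ⟨hr, hrt⟩
    have h1 := hφr r hr hrt
    have h2 : φ' (x + r • v) = φ (x + r • v) := (hlow.2 _ (by linarith)).1.self_of_nhds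
    rw [hkv, h2]
    exact max_le hgr (by linarith)
  -- erosion
  have hMc : IsCompact {x | F x = 0} := by
    have : ProperSpace V := FiniteDimensional.proper ℝ V
    refine Metric.isCompact_of_isClosed_isBounded (isClosed_eq hFc continuous_const)
      (hb.subset fun x hx => ?_)
    have h : F x = 0 := hx
    exact h.le
  obtain ⟨q, hq⟩ := hq
  have hψr : ∀ x, φ x - s = 0 → fderiv ℝ (fun y => φ y - s) x ≠ 0 := by
    intro x hx
    rw [fderiv_sub_const]
    exact hφ.fderiv_ne (q := q) (c := s) (hq.trans hs1) (by linarith)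
  obtain ⟨K, hkK, hKb, hKw⟩ := erode 3 hdim hF hreg hMc (hφ.sub_const s) hψr hkg hkb hloc hv hkc
  exact hhom.trans (hkK.trans (line_core hdim hA hkK.good_right hKb (hks.hom (by omega) hkK) hv hKw))

/-- The room theorem. -/
theorem room_ball (hdim : Module.finrank ℝ V = 4)
    (hA : ∀ e : V, ‖e‖ = 1 → ∀ F : (ℝ ∙ e)ᗮ → ℝ, Dom F → IsPreconnected {x | 0 < F x} → IsBall F)
    {F φ : V → ℝ} (hF : ContDiff ℝ ∞ F) (hb : Bornology.IsBounded {x | F x ≤ 0})
    (hreg : ∀ x, F x = 0 → gradient F x ≠ 0) (hs : PSides F)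
    (hφ : ContDiff ℝ ∞ φ) (hc : ConvexOn ℝ univ φ) (hq : ∃ q, φ q < 0) (hS : RoomSad F φ)
    {v : V} (hv : ‖v‖ = 1)
    (hconv : ∀ (x : V) (r t : ℝ), 0 ≤ r → r ≤ t → F x ≤ 0 → φ x ≤ 0 → F (x + t • v) ≤ 0 →
      φ (x + t • v) ≤ 0 → F (x + r • v) ≤ 0) : IsBall F := by
  obtain ⟨φ', η, c, c', P, hφ', hcc, hq', hcl, hP, hsub⟩ := room_perturb 3 hdim hF hb hreg hφ hc hq hS
  have hcl' : PClass F φ' c P :=
    ⟨hcl.sm, hcl.bdd, hcl.good, hcl.inw, hP, fun x hx hxc hxP => hcl.free x hx (hcc.le.trans hxc) hxP,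
      fun x hx hxc => hcl.reg x hx (hcc.le.trans hxc)⟩
  refine pind (by omega) (F := F) (φ := φ') (c := c) ?_ hcl' (PLow.rfl' F φ' c) hs
  intro g φ'' hg hlow hgs
  refine room_base hdim hA hF hb hreg hφ' hcc hq' hcl hP hv ?_ hg hlow hgs
  intro x r t hr hrt h1 h2 h3 h4
  exact hconv x r t hr hrt h1 (hsub x h1 h2) h3 (hsub _ h3 h4)

end Pool.Schoen
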