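import Pool.Agent.H.MP_6c077c_gt.Lz.Defs

/-! Convex functions: a uniformly convex function is made round near its minimum. -/

set_option autoImplicit false

namespace Pool.Schoen

open Filter Set
open scoped Topology RealInnerProductSpace ContDiff

variable {V : Type*} [NormedAddCommGroup V] [InnerProductSpace ℝ V] [FiniteDimensional ℝ V]

private theorem radMod_pos {a b : ℝ} (h : 0 < a * b) (ha : 0 < a) : 0 < b :=
  pos_of_mul_pos_right h ha.le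

/-- PROOF. `hφ.conv 0 x` gives `η * ‖x‖ ^ 2 ≤ φ x`, and `hφ.conv x 0` gives `φ x - Dφ x x + η * ‖x‖ ^ 2 ≤ 0`, so
`Dφ x x ≥ φ x + η * ‖x‖ ^ 2 ≥ 2 * η * ‖x‖ ^ 2`. Let `m = η / 2` and let `χ x = 1 - Real.smoothTransition (A * ‖x‖ ^ 2 - 1)`
with `A = 4 / δ ^ 2` (so `χ x = 1` for `‖x‖ ^ 2 ≤ δ ^ 2 / 4`, `χ x = 0` for `‖x‖ ^ 2 ≥ δ ^ 2 / 2`, and
`Dχ x x = - 2 A ‖x‖ ^ 2 * smoothTransition' ≤ 0`, as `Real.smoothTransition` is monotone).
`φ₁ x = χ x * (m * ‖x‖ ^ 2) + (1 - χ x) * φ x`. Then `m * ‖x‖ ^ 2 ≤ φ₁ x` and, for `x ≠ 0`,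
`Dφ₁ x x = Dχ x x * (m * ‖x‖ ^ 2 - φ x) + χ x * (2 * m * ‖x‖ ^ 2) + (1 - χ x) * Dφ x x > 0`.
`ρ x = sqrt (φ₁ x / (m * ‖x‖ ^ 2))` for `x ≠ 0`, `ρ 0 = 1`: `ρ = 1` for `‖x‖ ≤ δ / 2`, smooth (at `x ≠ 0` the argument of
the square root is at least `1`), `1 ≤ ρ`, `m * (ρ x * ‖x‖) ^ 2 = φ₁ x`. Differentiating this in the direction `x` at
`x ≠ 0`: `2 * m * ρ x * ‖x‖ ^ 2 * (Dρ x x + ρ x) = Dφ₁ x x > 0`. `hprop`: `ρ x * ‖x‖ ≥ ‖x‖`. For `δ ≤ ‖x‖` the function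
`χ` vanishes near `x`, so `φ₁ = φ` near `x`. -/
theorem radial_modify {φ : V → ℝ} {η : ℝ} (hφ : UConv φ η) (h0 : φ 0 = 0)
    (hc : fderiv ℝ φ 0 = 0) {δ : ℝ} (hδ : 0 < δ) :
    ∃ (m : ℝ) (ρ : V → ℝ), 0 < m ∧ ContDiff ℝ ∞ ρ ∧ (∀ x, 0 < ρ x) ∧
      (∀ x, 0 < ρ x + fderiv ℝ ρ x x) ∧ (∀ R : ℝ, ∃ r : ℝ, ∀ x, r ≤ ‖x‖ → R ≤ ρ x * ‖x‖) ∧
      ∀ x, δ ≤ ‖x‖ → φ =ᶠ[𝓝 x] fun y => m * (ρ y * ‖y‖) ^ 2 := by
  -- basic inequalities
  have F1 : ∀ x, η * ‖x‖ ^ 2 ≤ φ x := by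
    intro x
    have h := hφ.conv 0 x
    rw [h0, hc, sub_zero] at h
    simpa using h
  have F2 : ∀ x, 2 * η * ‖x‖ ^ 2 ≤ fderiv ℝ φ x x := by
    intro x
    have h := hφ.conv x 0
    rw [h0, zero_sub, map_neg, norm_neg] at h
    have h1 := F1 x
    linarith
  have hη := hφ.pos
  obtain ⟨m, hm⟩ : ∃ m : ℝ, m = η / 2 := ⟨_, rfl⟩
  have hm0 : 0 < m := by rw [hm]; linarith
  obtain ⟨A, hA⟩ : ∃ A : ℝ, A = 4 / δ ^ 2 := ⟨_, rfl⟩
  have hA0 : 0 < A := by rw [hA]; positivity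
  have hAδ : A * δ ^ 2 = 4 := by rw [hA]; field_simp
  set S : ℝ → ℝ := Real.smoothTransition with hS
  have hSc : ContDiff ℝ ∞ S := Real.smoothTransition.contDiff
  have hSd : ∀ t, 0 ≤ deriv S t := fun t => Real.smoothTransition.monotone.deriv_nonneg
  set σ : V → ℝ := fun x => S (A * ‖x‖ ^ 2 - 1) with hσ
  have hσ0 : ∀ x, 0 ≤ σ x := fun x => Real.smoothTransition.nonneg _
  have hσ1 : ∀ x, σ x ≤ 1 := fun x => Real.smoothTransition.le_one _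
  have hNc : ContDiff ℝ ∞ (fun x : V => ‖x‖ ^ 2) := contDiff_norm_sq ℝ
  have hσc : ContDiff ℝ ∞ σ := hSc.comp ((contDiff_const.mul hNc).sub contDiff_const)
  have hσin : ∀ x : V, ‖x‖ < δ / 2 → σ x = 0 := by
    intro x hx
    apply Real.smoothTransition.zero_of_nonpos
    have h1 : ‖x‖ ^ 2 ≤ (δ / 2) ^ 2 := by
      have := norm_nonneg x
      gcongr
    have h2 : A * ‖x‖ ^ 2 ≤ A * (δ / 2) ^ 2 := mul_le_mul_of_nonneg_left h1 hA0.le
    have h3 : A * (δ / 2) ^ 2 = A * δ ^ 2 / 4 := by ring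
    rw [h3, hAδ] at h2
    linarith
  have hσout : ∀ x : V, δ ^ 2 / 2 < ‖x‖ ^ 2 → σ x = 1 := by
    intro x hx
    apply Real.smoothTransition.one_of_one_le
    have h2 : A * (δ ^ 2 / 2) ≤ A * ‖x‖ ^ 2 := mul_le_mul_of_nonneg_left hx.le hA0.le
    have h3 : A * (δ ^ 2 / 2) = A * δ ^ 2 / 2 := by ring
    rw [h3, hAδ] at h2
    linarith
  set ψ : V → ℝ := fun x => φ x - m * ‖x‖ ^ 2 with hψ
  have hψ0 : ∀ x, 0 ≤ ψ x := by
    intro x
    have h1 := F1 x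
    have h2 : m * ‖x‖ ^ 2 ≤ η * ‖x‖ ^ 2 :=
      mul_le_mul_of_nonneg_right (by rw [hm]; linarith) (sq_nonneg _)
    simp only [hψ]
    linarith
  have hψc : ContDiff ℝ ∞ ψ := hφ.smooth.sub (contDiff_const.mul hNc)
  set q : V → ℝ := fun x => σ x * ψ x / (m * ‖x‖ ^ 2) with hq
  have hq0 : ∀ x, 0 ≤ q x := fun x =>
    div_nonneg (mul_nonneg (hσ0 x) (hψ0 x)) (mul_nonneg hm0.le (sq_nonneg _))
  have hqc : ContDiff ℝ ∞ q := by
    rw [contDiff_iff_contDiffAt]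
    intro x
    by_cases hx : ‖x‖ < δ / 2
    · have h1 : q =ᶠ[𝓝 x] fun _ => (0 : ℝ) := by
        have h2 : ∀ᶠ y : V in 𝓝 x, ‖y‖ < δ / 2 :=
          (continuous_norm.tendsto x).eventually (gt_mem_nhds hx)
        filter_upwards [h2] with y hy
        simp only [hq, hσin y hy, zero_mul, zero_div]
      exact contDiffAt_const.congr_of_eventuallyEq h1
    · have hx0 : x ≠ 0 := by
        rintro rfl
        rw [norm_zero] at hx
        exact hx (by linarith)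
      have h1 : m * ‖x‖ ^ 2 ≠ 0 := by
        have := norm_pos_iff.2 hx0
        positivity
      exact ((hσc.mul hψc).contDiffAt).div ((contDiff_const.mul hNc).contDiffAt) h1
  set ρ : V → ℝ := fun x => Real.sqrt (1 + q x) with hρ
  have hρc : ContDiff ℝ ∞ ρ := by
    refine (contDiff_const.add hqc).sqrt (fun x => ?_)
    have := hq0 x
    linarith
  have hρ1 : ∀ x, 1 ≤ ρ x := by
    intro x
    have := hq0 x
    exact Real.one_le_sqrt.2 (by linarith)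
  have hρsq : ∀ x, ρ x ^ 2 = 1 + q x := by
    intro x
    have := hq0 x
    exact Real.sq_sqrt (by linarith)
  -- the modified function
  have hG : ∀ x, m * (ρ x * ‖x‖) ^ 2 = m * ‖x‖ ^ 2 + σ x * ψ x := by
    intro x
    rw [mul_pow, hρsq]
    by_cases hx : x = 0
    · subst hx
      rw [norm_zero, hσin 0 (by rw [norm_zero]; linarith)]
      ring
    · have h1 : m * ‖x‖ ^ 2 ≠ 0 := by
        have := norm_pos_iff.2 hx
        positivity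
      have h2 : q x * (m * ‖x‖ ^ 2) = σ x * ψ x := div_mul_cancel₀ _ h1
      linarith
  have hσout' : ∀ x : V, δ ≤ ‖x‖ → δ ^ 2 / 2 < ‖x‖ ^ 2 := by
    intro x hx
    have h1 : δ ^ 2 ≤ ‖x‖ ^ 2 := by gcongr
    have h2 : 0 < δ ^ 2 := by positivity
    linarith
  refine ⟨m, ρ, hm0, hρc, fun x => lt_of_lt_of_le one_pos (hρ1 x), ?_, ?_, ?_⟩
  · intro x
    by_cases hx : x = 0
    · subst hx
      rw [map_zero, add_zero]
      exact lt_of_lt_of_le one_pos (hρ1 0)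
    have hnx : 0 < ‖x‖ ^ 2 := by
      have := norm_pos_iff.2 hx
      positivity
    -- derivatives
    obtain ⟨L, hL⟩ : ∃ L : V →L[ℝ] ℝ, L = 2 • (innerSL ℝ x) := ⟨_, rfl⟩
    have dN : HasFDerivAt (fun x : V => ‖x‖ ^ 2) L x := by
      rw [hL]
      exact (hasStrictFDerivAt_norm_sq x).hasFDerivAt
    have dNx : L x = 2 * ‖x‖ ^ 2 := by
      have h1 : (innerSL ℝ x) x = ‖x‖ ^ 2 := by
        rw [innerSL_apply_apply, real_inner_self_eq_norm_sq]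
      have h2 : L x = (2 : ℕ) • ((innerSL ℝ x) x) := by
        rw [hL]
        rfl
      rw [h2, h1, nsmul_eq_mul]
      norm_num
    have dσ : HasFDerivAt σ (fderiv ℝ σ x) x :=
      ((hσc.differentiable (by simp)) x).hasFDerivAt
    have dσx : 0 ≤ fderiv ℝ σ x x := by
      have e1 : HasFDerivAt (fun x : V => A * ‖x‖ ^ 2 - 1) (A • L) x :=
        (dN.const_mul A).sub_const 1
      have e2 : HasDerivAt S (deriv S (A * ‖x‖ ^ 2 - 1)) (A * ‖x‖ ^ 2 - 1) :=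
        ((hSc.differentiable (by simp)) _).hasDerivAt
      have e3 : HasFDerivAt σ (deriv S (A * ‖x‖ ^ 2 - 1) • (A • L)) x :=
        HasDerivAt.comp_hasFDerivAt (h₂ := S) (f := fun x : V => A * ‖x‖ ^ 2 - 1) x e2 e1
      have e4 : fderiv ℝ σ x x = deriv S (A * ‖x‖ ^ 2 - 1) * (A * L x) := by
        rw [e3.fderiv]
        rfl
      rw [e4, dNx]
      have := hSd (A * ‖x‖ ^ 2 - 1)
      positivity
    have dφ : HasFDerivAt φ (fderiv ℝ φ x) x :=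
      ((hφ.smooth.differentiable (by simp)) x).hasFDerivAt
    have dρ : HasFDerivAt ρ (fderiv ℝ ρ x) x :=
      ((hρc.differentiable (by simp)) x).hasFDerivAt
    have dψ : HasFDerivAt ψ (fderiv ℝ φ x - m • L) x :=
      dφ.sub (dN.const_mul m)
    have g1 : HasFDerivAt (fun x => m * ‖x‖ ^ 2 + σ x * ψ x)
        (m • L + (σ x • (fderiv ℝ φ x - m • L) + ψ x • fderiv ℝ σ x)) x :=
      (dN.const_mul m).add (dσ.mul dψ)
    have g2 : HasFDerivAt (fun x => ρ x ^ 2) ((2 * ρ x) • fderiv ℝ ρ x) x := by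
      have := dρ.pow 2
      simpa using this
    have g3 : HasFDerivAt (fun x => ρ x ^ 2 * (m * ‖x‖ ^ 2))
        (ρ x ^ 2 • (m • L) + (m * ‖x‖ ^ 2) • ((2 * ρ x) • fderiv ℝ ρ x)) x :=
      g2.mul (dN.const_mul m)
    have g4 : (fun x => ρ x ^ 2 * (m * ‖x‖ ^ 2)) = fun x => m * ‖x‖ ^ 2 + σ x * ψ x := by
      funext y
      rw [← hG y]
      ring
    rw [g4] at g3
    have g5 : ρ x ^ 2 * (m * L x) + (m * ‖x‖ ^ 2) * ((2 * ρ x) * fderiv ℝ ρ x x) =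
        m * L x + (σ x * (fderiv ℝ φ x x - m * L x) + ψ x * fderiv ℝ σ x x) :=
      congrArg (fun T : V →L[ℝ] ℝ => T x) (g3.unique g1)
    rw [dNx] at g5
    have k1 : 0 ≤ ψ x * fderiv ℝ σ x x := mul_nonneg (hψ0 x) dσx
    have k2 : σ x * (2 * η * ‖x‖ ^ 2) ≤ σ x * fderiv ℝ φ x x :=
      mul_le_mul_of_nonneg_left (F2 x) (hσ0 x)
    have k3 : 0 ≤ σ x * (η * ‖x‖ ^ 2) := mul_nonneg (hσ0 x) (mul_nonneg hη.le hnx.le)
    have k4 : 0 < m * (2 * ‖x‖ ^ 2) := by positivity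
    have hηm : η = 2 * m := by rw [hm]; ring
    have k5 : 0 < (2 * m * ‖x‖ ^ 2 * ρ x) * (ρ x + fderiv ℝ ρ x x) := by
      rw [hηm] at k2 k3
      nlinarith
    have k6 : 0 < 2 * m * ‖x‖ ^ 2 * ρ x := by
      have := hρ1 x
      have h7 : 0 < ρ x := by linarith
      positivity
    exact radMod_pos k5 k6
  · intro R
    refine ⟨R, fun x hx => ?_⟩
    have h1 := mul_le_mul_of_nonneg_right (hρ1 x) (norm_nonneg x)
    linarith
  · intro x hx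
    have h1 : ∀ᶠ y : V in 𝓝 x, δ ^ 2 / 2 < ‖y‖ ^ 2 :=
      (hNc.continuous.tendsto x).eventually (lt_mem_nhds (hσout' x hx))
    filter_upwards [h1] with y hy
    rw [hG y, hσout y hy]
    simp only [hψ]
    ring

end Pool.Schoen
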