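import Pool.Agent.H.MP_6c077c_gt.Lz.RadDif
import Pool.Agent.H.MP_6c077c_gt.Lz.RadMod

/-! Convex functions: away from its minimum a uniformly convex function is round up to a
diffeomorphism. -/

set_option autoImplicit false

namespace Pool.Schoen

open Filter Set
open scoped Topology RealInnerProductSpace ContDiff

variable {V : Type*} [NormedAddCommGroup V] [InnerProductSpace ℝ V]

theorem dif_trans (q : V) : Dif (fun x : V => x + q) (fun x : V => x - q) :=
  ⟨contDiff_id.add contDiff_const, contDiff_id.sub contDiff_const,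
    fun x => add_sub_cancel_right x q, fun x => sub_add_cancel x q⟩

theorem Dif.comp {Φ Ψ Φ' Ψ' : V → V} (h : Dif Φ Ψ) (h' : Dif Φ' Ψ') :
    Dif (fun x => Φ' (Φ x)) (fun x => Ψ (Ψ' x)) :=
  ⟨h'.smooth.comp h.smooth, h.smooth'.comp h'.smooth',
    fun x => by rw [h'.left, h.left], fun x => by rw [h.right, h'.right]⟩

theorem UConv.translate {φ : V → ℝ} {η : ℝ} (hφ : UConv φ η) (q : V) (k : ℝ) :
    UConv (fun x => φ (x + q) - k) η := by
  refine ⟨(hφ.smooth.comp (contDiff_id.add contDiff_const)).sub contDiff_const, hφ.pos,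
    fun x y => ?_⟩
  have h1 := hφ.conv (x + q) (y + q)
  have h2 : fderiv ℝ (fun x => φ (x + q) - k) x = fderiv ℝ φ (x + q) := by
    have h3 : fderiv ℝ (fun x => φ (x + q) - k) x = fderiv ℝ (fun x => φ (x + q)) x :=
      fderiv_sub_const k
    rw [h3, fderiv_comp_add_right]
  have h3 : y + q - (x + q) = y - x := by abel
  rw [h3] at h1
  show φ (x + q) - k + fderiv ℝ (fun x => φ (x + q) - k) x (y - x) + η * ‖y - x‖ ^ 2 ≤
    φ (y + q) - k
  rw [h2]
  linarith

variable [FiniteDimensional ℝ V]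

/-- A uniformly convex function has a critical point. -/
theorem UConv.exists_crit {φ : V → ℝ} {η : ℝ} (hφ : UConv φ η) : ∃ q, fderiv ℝ φ q = 0 := by
  have : ProperSpace V := FiniteDimensional.proper ℝ V
  obtain ⟨D, hD⟩ : ∃ D : ℝ, D = ‖fderiv ℝ φ 0‖ := ⟨_, rfl⟩
  have hD0 : 0 ≤ D := hD ▸ norm_nonneg _
  have hη := hφ.pos
  obtain ⟨R, hR⟩ : ∃ R : ℝ, R = D / η + 1 := ⟨_, rfl⟩
  have hR1 : 1 ≤ R := by
    rw [hR]
    have : 0 ≤ D / η := div_nonneg hD0 hη.le
    linarith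
  have hlow : ∀ x, R ≤ ‖x‖ → φ 0 < φ x := by
    intro x hx
    have h1 := hφ.conv 0 x
    rw [sub_zero] at h1
    have h2 : |fderiv ℝ φ 0 x| ≤ D * ‖x‖ := by
      rw [hD, ← Real.norm_eq_abs]
      exact (fderiv ℝ φ 0).le_opNorm x
    have h3 := (abs_le.1 h2).1
    have h4 : D < η * ‖x‖ := by
      have h5 : D + η ≤ η * ‖x‖ := by
        calc D + η = η * R := by rw [hR]; field_simp
          _ ≤ η * ‖x‖ := mul_le_mul_of_nonneg_left hx hη.le
      linarith
    have h6 : 0 < ‖x‖ := by linarith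
    have h7 : D * ‖x‖ < η * ‖x‖ * ‖x‖ := mul_lt_mul_of_pos_right h4 h6
    nlinarith
  obtain ⟨q, -, hq⟩ := (isCompact_closedBall (0 : V) R).exists_isMinOn
    ⟨0, Metric.mem_closedBall_self (by linarith)⟩ hφ.smooth.continuous.continuousOn
  refine ⟨q, IsLocalMin.fderiv_eq_zero (Filter.Eventually.of_forall fun x => ?_)⟩
  rcases le_or_gt R ‖x‖ with h | h
  · exact (hq (Metric.mem_closedBall_self (by linarith))).trans (hlow x h).le
  · exact hq (mem_closedBall_zero_iff.2 h.le)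

/-- Away from the minimum the function is `φ q + m ‖x - q‖ ^ 2` after a diffeomorphism. -/
theorem round_dif {φ : V → ℝ} {η : ℝ} (hφ : UConv φ η) {q : V} (hq : fderiv ℝ φ q = 0) {δ : ℝ}
    (hδ : 0 < δ) :
    ∃ (Φ Ψ : V → V) (m : ℝ), Dif Φ Ψ ∧ 0 < m ∧ ∀ x, δ ≤ ‖Φ x - q‖ →
      (fun y => φ (Φ y)) =ᶠ[𝓝 x] fun y => φ q + m * ‖y - q‖ ^ 2 := by
  have h1 := hφ.translate q (φ q)
  have h2 : fderiv ℝ (fun x => φ (x + q) - φ q) 0 = 0 := by
    have h3 : fderiv ℝ (fun x => φ (x + q) - φ q) 0 = fderiv ℝ (fun x => φ (x + q)) 0 :=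
      fderiv_sub_const _
    rw [h3, fderiv_comp_add_right, zero_add, hq]
  obtain ⟨m, ρ, hm, hρ, hpos, hmon, hprop, hρφ⟩ := radial_modify h1 (by simp) h2 hδ
  obtain ⟨Φ0, hd⟩ := radial_dif hρ hpos hmon hprop
  -- conjugation with the translation
  have hd1 := (dif_trans q).symm.comp (hd.comp (dif_trans q))
  refine ⟨_, _, m, hd1, hm, fun x hx => ?_⟩
  have hx' : δ ≤ ‖Φ0 (x - q)‖ := by
    have h3 : Φ0 (x - q) + q - q = Φ0 (x - q) := add_sub_cancel_right _ _
    rw [h3] at hx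
    exact hx
  have h3 := hρφ _ hx'
  have h4 : Continuous fun y : V => Φ0 (y - q) :=
    hd.continuous.comp (continuous_id.sub continuous_const)
  filter_upwards [h4.continuousAt.eventually h3] with y hy
  show φ (Φ0 (y - q) + q) = φ q + m * ‖y - q‖ ^ 2
  have h5 : ρ (Φ0 (y - q)) • Φ0 (y - q) = y - q := hd.left (y - q)
  have h6 : ρ (Φ0 (y - q)) * ‖Φ0 (y - q)‖ = ‖y - q‖ := by
    rw [← h5, norm_smul, Real.norm_of_nonneg (hpos _).le, h5]
  rw [h6] at hy
  linarith

end Pool.Schoen
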