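import Pool.Agent.H.MP_6c077c_gt.Lz.Perturb2
import Pool.Agent.H.MP_6c077c_gt.Lz.Radial
import Pool.Agent.H.MP_6c077c_gt.Ph.QBase

/-! Convex functions: the two-sided theorem. -/

set_option autoImplicit false

namespace Pool.Schoen

open Filter Set
open scoped Topology RealInnerProductSpace ContDiff

variable {V : Type*} [NormedAddCommGroup V] [InnerProductSpace ℝ V] [FiniteDimensional ℝ V]

/-- The two-sided theorem for a uniformly convex function in general position. -/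
theorem nice_two_ball (hdim : Module.finrank ℝ V = 4) {F φ : V → ℝ} {η c : ℝ}
    (hF : ContDiff ℝ ∞ F) (hb : Bornology.IsBounded {x | F x ≤ 0})
    (hreg : ∀ x, F x = 0 → gradient F x ≠ 0) (hs : PSides F) (hφ : UConv φ η)
    (h1 : RelNice F φ c) (h2 : RelNice F (fun x => -φ x) (-c)) : IsBall F := by
  have hη := hφ.pos
  obtain ⟨q, hq⟩ := hφ.exists_crit
  have hFq : 0 < F q := by
    by_contra hcon
    rcases le_or_gt c (φ q) with h | h
    · exact h1.reg q (not_lt.1 hcon) h hq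
    · refine h2.reg q (not_lt.1 hcon) (by linarith) ?_
      have h3 : fderiv ℝ (fun y => -φ y) q = -fderiv ℝ φ q := fderiv_fun_neg
      rw [h3, hq, neg_zero]
  obtain ⟨δ, hδ, hδF⟩ : ∃ δ : ℝ, 0 < δ ∧ ∀ x, F x ≤ 0 → δ ≤ ‖x - q‖ := by
    obtain ⟨r, hr0, hr⟩ := Metric.eventually_nhds_iff.1
      (hF.continuous.continuousAt.eventually_const_lt hFq)
    refine ⟨r, hr0, fun x hx => ?_⟩
    by_contra hcon
    have h3 := hr (show dist x q < r by rw [dist_eq_norm]; exact not_le.1 hcon)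
    linarith
  obtain ⟨Φ, Ψ, m, hd, hm, hround⟩ := round_dif hφ hq hδ
  have hloc : ∀ x, F (Φ x) ≤ 0 → (fun y => φ (Φ y)) =ᶠ[𝓝 x] fun y => φ q + m * ‖y - q‖ ^ 2 :=
    fun x hx => hround x (hδF _ hx)
  have hF' : ContDiff ℝ ∞ (fun x => F (Φ x)) := hF.comp hd.smooth
  have hb' : Bornology.IsBounded {x | F (Φ x) ≤ 0} := hd.bounded hb
  have hreg' : ∀ x, F (Φ x) = 0 → gradient (fun x => F (Φ x)) x ≠ 0 :=
    fun x hx => hd.reg hF (hreg (Φ x) hx)
  have hs' : PSides (fun x => F (Φ x)) := hs.comp_dif hd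
  have hsq : ContDiff ℝ ∞ fun x : V => ‖x - q‖ ^ 2 := (contDiff_id.sub contDiff_const).norm_sq ℝ
  have n1 := (h1.comp_dif hF hφ.smooth hd).congr_aff hsq hm hloc
  have n2 := (h2.comp_dif hF hφ.smooth.neg hd).congr_aff (ψ := fun x => -‖x - q‖ ^ 2)
    (k := -φ q) hsq.neg hm (fun x hx => by
      filter_upwards [hloc x hx] with y hy
      show -φ (Φ y) = -φ q + m * -‖y - q‖ ^ 2
      have hy' : φ (Φ y) = φ q + m * ‖y - q‖ ^ 2 := hy
      rw [hy']
      ring)
  -- a positive level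
  obtain ⟨d, hd0, hdF⟩ : ∃ d : ℝ, 0 < d ∧ ∀ x, F (Φ x) ≤ 0 → d < ‖x - q‖ ^ 2 := by
    refine ⟨η * δ ^ 2 / (2 * m), by positivity, fun x hx => ?_⟩
    have h3 : φ (Φ x) = φ q + m * ‖x - q‖ ^ 2 := (hloc x hx).self_of_nhds
    have h4 := hφ.conv q (Φ x)
    rw [hq, h3] at h4
    have h5 : (0 : V →L[ℝ] ℝ) (Φ x - q) = 0 := rfl
    rw [h5] at h4
    have h6 : δ ^ 2 ≤ ‖Φ x - q‖ ^ 2 := pow_le_pow_left₀ hδ.le (hδF _ hx) 2
    have h7 := mul_le_mul_of_nonneg_left h6 hη.le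
    have h8 : 0 < η * δ ^ 2 := by positivity
    rw [div_lt_iff₀ (by positivity)]
    nlinarith
  obtain ⟨t, ht, m1, m2⟩ : ∃ t : ℝ, 0 < t ∧ RelNice (fun x => F (Φ x)) (fun x => ‖x - q‖ ^ 2) t ∧
      RelNice (fun x => F (Φ x)) (fun x => -‖x - q‖ ^ 2) (-t) := by
    rcases lt_or_ge 0 ((c - φ q) / m) with h | h
    · refine ⟨_, h, n1, ?_⟩
      have e1 : (-c - -φ q) / m = -((c - φ q) / m) := by ring
      rw [e1] at n2
      exact n2
    · refine ⟨d, hd0, ⟨fun x hx hxd => n1.reg x hx (by linarith), fun x μ hr hxd =>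
        n1.nd x μ hr (by linarith), fun x μ hr hxd => n1.two x μ hr (by linarith), ?_⟩,
        ⟨fun x hx hxd => ?_, fun x μ hr hxd => ?_, fun x μ hr hxd => ?_, ?_⟩⟩
      · intro x μ hr h3
        have h4 := hdF x hr.1.le
        linarith
      · have h4 := hdF x hx
        linarith
      · have h4 := hdF x hr.1.le
        linarith
      · have h4 := hdF x hr.1.le
        linarith
      · intro x μ hr h3
        have h4 := hdF x hr.1.le
        linarith
  obtain ⟨P, hP⟩ := m1.pclass hF' hsq hb' hreg'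
  obtain ⟨Q, hQ⟩ := m2.pclass hF' hsq.neg hb' hreg'
  exact (isBall_comp_dif hd).1 (concentric_class hdim ht hP hQ hs')

/-- **Facing pairs for convex functions.** -/
theorem convex_two_ball (hdim : Module.finrank ℝ V = 4) {F φ : V → ℝ} (hF : ContDiff ℝ ∞ F)
    (hb : Bornology.IsBounded {x | F x ≤ 0}) (hreg : ∀ x, F x = 0 → gradient F x ≠ 0)
    (hs : PSides F) (hφ : ContDiff ℝ ∞ φ) (hc : ConvexOn ℝ univ φ)
    (hW : ∀ x, F x ≤ 0 → fderiv ℝ φ x ≠ 0) (hS : UpSad F φ) (hL : LowSad F φ) : IsBall F := by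
  obtain ⟨φ', η, c, h1, h2, h3⟩ := conv_perturb hF hb hreg hφ hc hW hS hL
  exact nice_two_ball hdim hF hb hreg hs h1 h2 h3

end Pool.Schoen
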