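import Pool.Agent.H.MP_6c077c_gt.Lz.Main
import Pool.Agent.H.MP_6c077c_gt.Lz.Main2
import Pool.Agent.H.MP_6c077c_gt.Al.Main

/-! Convex functions: the theorem. -/

set_option autoImplicit false

namespace Pool.Schoen

open Filter Set
open scoped Topology RealInnerProductSpace ContDiff

variable {V : Type*} [NormedAddCommGroup V] [InnerProductSpace ℝ V] [FiniteDimensional ℝ V]

/-- Alexander's theorem in the hyperplanes of a four-dimensional space. -/
theorem conv_perp (hdim : Module.finrank ℝ V = 4) :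
    ∀ e : V, ‖e‖ = 1 → ∀ F : (ℝ ∙ e)ᗮ → ℝ, Dom F → IsPreconnected {x | 0 < F x} → IsBall F := by
  intro e he F hF hc
  have he0 : e ≠ 0 := by
    rintro rfl
    rw [norm_zero] at he
    exact zero_ne_one he
  have : Fact (Module.finrank ℝ V = 3 + 1) := ⟨hdim⟩
  exact alexander (Submodule.finrank_orthogonal_span_singleton he0) F hF hc

/-- The room theorem, with the condition on the closure of the saddle pairs. -/
theorem room_up_ball (hdim : Module.finrank ℝ V = 4) {F φ : V → ℝ} (hF : ContDiff ℝ ∞ F)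
    (hb : Bornology.IsBounded {x | F x ≤ 0}) (hreg : ∀ x, F x = 0 → gradient F x ≠ 0)
    (hs : PSides F) (hφ : ContDiff ℝ ∞ φ) (hc : ConvexOn ℝ univ φ) (hq : ∃ q, φ q < 0)
    (hS : UpSad F φ) {v : V} (hv : ‖v‖ = 1)
    (hconv : ∀ (x : V) (r t : ℝ), 0 ≤ r → r ≤ t → F x ≤ 0 → φ x ≤ 0 → F (x + t • v) ≤ 0 →
      φ (x + t • v) ≤ 0 → F (x + r • v) ≤ 0) : IsBall F := by
  obtain ⟨φ', η, c, c', P, hφ', hcc, hq', hcl, hP, hsub⟩ := up_perturb hF hb hreg hφ hc hq hS
  have hcl' : PClass F φ' c P :=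
    ⟨hcl.sm, hcl.bdd, hcl.good, hcl.inw, hP, fun x hx hxc hxP => hcl.free x hx (hcc.le.trans hxc) hxP,
      fun x hx hxc => hcl.reg x hx (hcc.le.trans hxc)⟩
  refine pind (by omega) (F := F) (φ := φ') (c := c) ?_ hcl' (PLow.rfl' F φ' c) hs
  intro g φ'' hg hlow hgs
  refine room_base hdim (conv_perp hdim) hF hb hreg hφ' hcc hq' hcl hP hv ?_ hg hlow hgs
  intro x r t hr hrt h1 h2 h3 h4
  exact hconv x r t hr hrt h1 (hsub x h1 h2) h3 (hsub _ h3 h4)

/-- The body of `F` is convex in the direction `v` in the room `φ ≤ t`. -/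
def RoomConv (F φ : V → ℝ) (t : ℝ) (v : V) : Prop :=
  ∀ (x : V) (r s : ℝ), 0 ≤ r → r ≤ s → F x ≤ 0 → φ x ≤ t → F (x + s • v) ≤ 0 →
    φ (x + s • v) ≤ t → F (x + r • v) ≤ 0

omit [FiniteDimensional ℝ V] in
private theorem Main3_sub (φ : V → ℝ) (t : ℝ) (x : V) :
    fderiv ℝ (fun y => φ y - t) x = fderiv ℝ φ x := fderiv_sub_const t

omit [FiniteDimensional ℝ V] in
private theorem Main3_hess (φ : V → ℝ) (t : ℝ) (x u w : V) :
    hess (fun y => φ y - t) x u w = hess φ x u w := by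
  have h1 : fderiv ℝ (fun y => φ y - t) = fderiv ℝ φ := funext fun x => Main3_sub φ t x
  unfold hess
  rw [h1]

omit [FiniteDimensional ℝ V] in
theorem SadPair_sub (F φ : V → ℝ) (t : ℝ) : SadPair F (fun y => φ y - t) = SadPair F φ := by
  ext z
  simp only [SadPair, Main3_hess, Set.mem_ofPred_eq]

/-- **Convex functions.** `φ` is a smooth convex function, `t` a real number. If no pair `(x, μ)` in
the closure of the saddle pairs has `t ≤ φ x` and `Dφ = -μ DF` at `x`, and either the body is convex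
in one direction in the room `φ ≤ t` or `φ` has no critical point on the body and there is no zero
`x` of `F` with `φ x ≤ t`, `Dφ = μ DF` and `μ D²F - D²φ ≤ 0` on a plane in the kernel of `DF`, then the
body is a ball. -/
theorem convex_functions_ball (hdim : Module.finrank ℝ V = 4) {F φ : V → ℝ}
    (hF : ContDiff ℝ ∞ F) (hb : Bornology.IsBounded {x | F x ≤ 0})
    (hreg : ∀ x, F x = 0 → gradient F x ≠ 0) (hs : PSides F) (hφ : ContDiff ℝ ∞ φ)
    (hc : ConvexOn ℝ univ φ) (t : ℝ)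
    (h1 : ∀ (x : V) (μ : ℝ), (x, μ) ∈ closure (SadPair F φ) → 0 < μ → t ≤ φ x →
      ¬ ∀ v, fderiv ℝ φ x v = -(μ * fderiv ℝ F x v))
    (h2 : ((∃ q, φ q < t) ∧ ∃ v : V, v ≠ 0 ∧ RoomConv F φ t v) ∨
      ((∀ x, F x ≤ 0 → fderiv ℝ φ x ≠ 0) ∧ ∀ (x : V) (μ : ℝ), F x = 0 → 0 < μ → φ x ≤ t →
        (∀ v, fderiv ℝ φ x v = μ * fderiv ℝ F x v) →
        ¬ ∃ U : Submodule ℝ V, Module.finrank ℝ U = 2 ∧ ∀ u ∈ U, fderiv ℝ F x u = 0 ∧
          μ * hess F x u u ≤ hess φ x u u)) : IsBall F := by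
  have hφ' : ContDiff ℝ ∞ fun y => φ y - t := hφ.sub contDiff_const
  have hc' : ConvexOn ℝ univ fun y => φ y - t := by
    have h3 := hc.add_const (-t)
    have h4 : (fun y => φ y - t) = fun y => φ y + -t := funext fun y => sub_eq_add_neg _ _
    rw [h4]
    exact h3
  have hS : UpSad F fun y => φ y - t := by
    intro x μ hx hμ hxt hg
    rw [SadPair_sub] at hx
    rw [Main3_sub] at hg
    exact h1 x μ hx hμ (by linarith [sub_nonneg.1 hxt]) hg
  rcases h2 with ⟨⟨q, hq⟩, v, hv, hr⟩ | ⟨hW, hL⟩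
  · have hv0 : 0 < ‖v‖ := norm_pos_iff.2 hv
    refine room_up_ball hdim hF hb hreg hs hφ' hc' ⟨q, by linarith⟩ hS (v := ‖v‖⁻¹ • v) ?_ ?_
    · rw [norm_smul, norm_inv, norm_norm, inv_mul_cancel₀ hv0.ne']
    · intro x r s hr0 hrs hx hxt hxs hxst
      have e1 : ∀ a : ℝ, a • ‖v‖⁻¹ • v = (a * ‖v‖⁻¹) • v := fun a => smul_smul _ _ _
      rw [e1] at hxs hxst ⊢
      exact hr x _ _ (by positivity) (mul_le_mul_of_nonneg_right hrs (by positivity)) hx
        (by linarith [hxt]) hxs (by linarith [hxst])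
  · refine convex_two_ball hdim hF hb hreg hs hφ' hc' (fun x hx => ?_) hS ?_
    · rw [Main3_sub]
      exact hW x hx
    · intro x μ hx hμ hxt hg hU
      rw [Main3_sub] at hg
      simp only [Main3_hess] at hU
      exact hL x μ hx hμ (by linarith [hxt]) hg hU

end Pool.Schoen
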