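import Pool.Agent.H.MP_6c077c_gt.Ph.PIdx
import Pool.Agent.H.MP_6c077c_gt.Ph.PStr

/-! Convex functions: the conditions on the relatively critical points, and their transport. -/

set_option autoImplicit false

namespace Pool.Schoen

open Filter Set
open scoped Topology RealInnerProductSpace ContDiff

variable {V : Type*} [NormedAddCommGroup V] [InnerProductSpace ℝ V]

/-- The relatively critical points at or above the level `c` are above `c`, nondegenerate and without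
a negative definite plane. -/
structure RelNice (F φ : V → ℝ) (c : ℝ) : Prop where
  reg : ∀ x, F x ≤ 0 → c ≤ φ x → fderiv ℝ φ x ≠ 0
  nd : ∀ x μ, RelCrit F φ μ x → c ≤ φ x → ∀ w, fderiv ℝ φ x w = 0 →
    (∀ w', fderiv ℝ φ x w' = 0 → hess F x w w' + μ * hess φ x w w' = 0) → w = 0
  two : ∀ x μ, RelCrit F φ μ x → c ≤ φ x →
    ¬ ∃ U : Submodule ℝ V, Module.finrank ℝ U = 2 ∧ ∀ u ∈ U, u ≠ 0 →
      fderiv ℝ φ x u = 0 ∧ hess F x u u + μ * hess φ x u u < 0
  lev : ∀ x μ, RelCrit F φ μ x → φ x ≠ c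

theorem RelNice.pclass [FiniteDimensional ℝ V] {F φ : V → ℝ} {c : ℝ} (h : RelNice F φ c)
    (hF : ContDiff ℝ ∞ F) (hφ : ContDiff ℝ ∞ φ) (hb : Bornology.IsBounded {x | F x ≤ 0})
    (hreg : ∀ x, F x = 0 → gradient F x ≠ 0) : ∃ P : Finset V, PClass F φ c P :=
  pclass_of_nondeg hF hφ hb hreg c h.reg h.nd h.two h.lev

/-- The second derivative of a composition at a critical point. -/
theorem hess_comp_crit {G : V → ℝ} {Φ : V → V} {p : V} (hG : ContDiff ℝ ∞ G)
    (hΦ : ContDiff ℝ ∞ Φ) (h0 : fderiv ℝ G (Φ p) = 0) (w w' : V) :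
    hess (fun x => G (Φ x)) p w w' =
      hess G (Φ p) (fderiv ℝ Φ p w) (fderiv ℝ Φ p w') := by
  have hΦd : ∀ x, HasFDerivAt Φ (fderiv ℝ Φ x) x := fun x =>
    ((hΦ.differentiable (by simp)) x).hasFDerivAt
  have h1 : fderiv ℝ (fun y => G (Φ y)) = fun x => (fderiv ℝ G (Φ x)).comp (fderiv ℝ Φ x) := by
    funext x
    exact (((hG.differentiable (by simp)) (Φ x)).hasFDerivAt.comp x (hΦd x)).fderiv
  have hG' : HasFDerivAt (fderiv ℝ G) (fderiv ℝ (fderiv ℝ G) (Φ p)) (Φ p) := by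
    have h2 : ContDiff ℝ ∞ (fderiv ℝ G) := hG.fderiv_right (by simp)
    exact ((h2.differentiable (by simp)) _).hasFDerivAt
  have h4 : HasFDerivAt (fun x => fderiv ℝ G (Φ x))
      ((fderiv ℝ (fderiv ℝ G) (Φ p)).comp (fderiv ℝ Φ p)) p := hG'.comp p (hΦd p)
  have h5 : HasFDerivAt (fderiv ℝ Φ) (fderiv ℝ (fderiv ℝ Φ) p) p := by
    have h6 : ContDiff ℝ ∞ (fderiv ℝ Φ) := hΦ.fderiv_right (by simp)
    exact ((h6.differentiable (by simp)) p).hasFDerivAt
  have h7 := h4.clm_comp h5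
  unfold hess
  rw [h1, h7.fderiv, h0]
  simp

theorem RelNice.comp_dif {F φ : V → ℝ} {c : ℝ} (h : RelNice F φ c) (hF : ContDiff ℝ ∞ F)
    (hφ : ContDiff ℝ ∞ φ) {Φ Ψ : V → V} (hd : Dif Φ Ψ) :
    RelNice (fun x => F (Φ x)) (fun x => φ (Φ x)) c := by
  have hrel : ∀ x μ, RelCrit (fun x => F (Φ x)) (fun x => φ (Φ x)) μ x → RelCrit F φ μ (Φ x) := by
    rintro x μ ⟨h1, h2, h3⟩
    refine ⟨h1, h2, fun v => ?_⟩
    have h4 := h3 (fderiv ℝ Ψ (Φ x) v)
    rw [hd.fderiv_comp hF, hd.fderiv_comp hφ, hd.fderiv_right] at h4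
    exact h4
  have hhess : ∀ x μ, RelCrit F φ μ (Φ x) → ∀ w w',
      hess (fun x => F (Φ x)) x w w' + μ * hess (fun x => φ (Φ x)) x w w' =
        hess F (Φ x) (fderiv ℝ Φ x w) (fderiv ℝ Φ x w') +
          μ * hess φ (Φ x) (fderiv ℝ Φ x w) (fderiv ℝ Φ x w') := by
    rintro x μ ⟨h1, h2, h3⟩ w w'
    have hG : ContDiff ℝ ∞ (fun y => F y + μ * φ y) := hF.add (contDiff_const.mul hφ)
    have h0 : fderiv ℝ (fun y => F y + μ * φ y) (Φ x) = 0 := by
      have e1 := (((hF.differentiable (by simp)) (Φ x)).hasFDerivAt.add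
        (((hφ.differentiable (by simp)) (Φ x)).hasFDerivAt.const_mul μ)).fderiv
      have e2 : fderiv ℝ (fun y => F y + μ * φ y) (Φ x) = _ := e1
      rw [e2]
      ext v
      show fderiv ℝ F (Φ x) v + μ * fderiv ℝ φ (Φ x) v = 0
      rw [h3 v]
      ring
    have e3 := hess_comp_crit hG hd.smooth h0 w w'
    have e4 := hess_add_mul (f := fun y => F (Φ y)) (g := fun y => φ (Φ y)) (p := x)
      ((hF.comp hd.smooth).contDiffAt.of_le (by norm_cast))
      ((hφ.comp hd.smooth).contDiffAt.of_le (by norm_cast)) μ w w'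
    have e5 := hess_add_mul (f := F) (g := φ) (p := Φ x)
      (hF.contDiffAt.of_le (by norm_cast)) (hφ.contDiffAt.of_le (by norm_cast)) μ
      (fderiv ℝ Φ x w) (fderiv ℝ Φ x w')
    rw [← e4, ← e5]
    exact e3
  refine ⟨fun x hx hxc => hd.fderiv_ne hφ (h.reg (Φ x) hx hxc), ?_, ?_, ?_⟩
  · intro x μ hx hxc w hw hw'
    have h1 := hrel x μ hx
    have h2 : fderiv ℝ Φ x w = 0 := by
      refine h.nd (Φ x) μ h1 hxc _ ?_ ?_
      · rw [← hd.fderiv_comp hφ]
        exact hw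
      · intro w' h3
        have h4 := hw' (fderiv ℝ Ψ (Φ x) w') (by
          rw [hd.fderiv_comp hφ, hd.fderiv_right]
          exact h3)
        rw [hhess x μ h1, hd.fderiv_right] at h4
        exact h4
    have h3 := hd.fderiv_left x w
    rw [h2, map_zero] at h3
    exact h3.symm
  · rintro x μ hx hxc ⟨U, hU, hneg⟩
    have h1 := hrel x μ hx
    have hinj : Function.Injective (fderiv ℝ Φ x : V →ₗ[ℝ] V) := by
      intro a b hab
      have e1 := hd.fderiv_left x a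
      have e2 := hd.fderiv_left x b
      have e3 : fderiv ℝ Φ x a = fderiv ℝ Φ x b := hab
      rw [← e1, e3, e2]
    refine h.two (Φ x) μ h1 hxc ⟨U.map (fderiv ℝ Φ x : V →ₗ[ℝ] V), ?_, ?_⟩
    · rw [← (Submodule.equivMapOfInjective _ hinj U).finrank_eq, hU]
    · rintro _ ⟨u, hu, rfl⟩ hu0
      have hu1 : u ≠ 0 := by
        rintro rfl
        exact hu0 (map_zero _)
      obtain ⟨e1, e2⟩ := hneg u hu hu1
      rw [hhess x μ h1] at e2
      rw [hd.fderiv_comp hφ] at e1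
      exact ⟨e1, e2⟩
  · intro x μ hx
    exact h.lev (Φ x) μ (hrel x μ hx)

/-- Near the body `φ = k + m ψ`. -/
theorem RelNice.congr_aff {F φ ψ : V → ℝ} {c k m : ℝ} (h : RelNice F φ c) (hψ : ContDiff ℝ ∞ ψ)
    (hm : 0 < m) (he : ∀ x, F x ≤ 0 → φ =ᶠ[𝓝 x] fun y => k + m * ψ y) :
    RelNice F ψ ((c - k) / m) := by
  have hd : ∀ x, F x ≤ 0 → ∀ v, fderiv ℝ φ x v = m * fderiv ℝ ψ x v := by
    intro x hx v
    have e1 := ((((hψ.differentiable (by simp)) x).hasFDerivAt.const_mul m).const_add k).fderiv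
    have e2 : fderiv ℝ (fun y => k + m * ψ y) x = _ := e1
    rw [(he x hx).fderiv_eq, e2]
    rfl
  have hh : ∀ x, F x ≤ 0 → ∀ w w', hess φ x w w' = m * hess ψ x w w' := by
    intro x hx w w'
    have e1 : fderiv ℝ φ =ᶠ[𝓝 x] fun y => m • fderiv ℝ ψ y := by
      filter_upwards [(he x hx).eventuallyEq_nhds] with y hy
      rw [hy.fderiv_eq]
      exact ((((hψ.differentiable (by simp)) y).hasFDerivAt.const_mul m).const_add k).fderiv
    have e2 : ContDiff ℝ ∞ (fderiv ℝ ψ) := hψ.fderiv_right (by simp)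
    have e3 := (((e2.differentiable (by simp)) x).hasFDerivAt.const_smul m).fderiv
    have e4 : fderiv ℝ (fun y => m • fderiv ℝ ψ y) x = _ := e3
    unfold hess
    rw [e1.fderiv_eq, e4]
    rfl
  have hv : ∀ x, F x ≤ 0 → φ x = k + m * ψ x := fun x hx => (he x hx).self_of_nhds
  have hlev : ∀ x, F x ≤ 0 → (c - k) / m ≤ ψ x → c ≤ φ x := by
    intro x hx h1
    rw [div_le_iff₀ hm] at h1
    rw [hv x hx]
    linarith
  have hrel : ∀ x μ, RelCrit F ψ μ x → RelCrit F φ (μ / m) x := by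
    rintro x μ ⟨h1, h2, h3⟩
    refine ⟨h1, div_pos h2 hm, fun v => ?_⟩
    rw [h3 v, hd x h1.le]
    field_simp
  refine ⟨?_, ?_, ?_, ?_⟩
  · intro x hx hxc h0
    apply h.reg x hx (hlev x hx hxc)
    ext v
    rw [hd x hx, h0]
    simp
  · intro x μ hx hxc w hw hw'
    refine h.nd x _ (hrel x μ hx) (hlev x hx.1.le hxc) w (by rw [hd x hx.1.le, hw, mul_zero]) ?_
    intro w' h1
    rw [hd x hx.1.le] at h1
    have h2 := hw' w' ((mul_eq_zero.1 h1).resolve_left hm.ne')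
    rw [hh x hx.1.le]
    have h3 : μ / m * (m * hess ψ x w w') = μ * hess ψ x w w' := by field_simp
    rw [h3]
    exact h2
  · rintro x μ hx hxc ⟨U, hU, hneg⟩
    refine h.two x _ (hrel x μ hx) (hlev x hx.1.le hxc) ⟨U, hU, fun u hu hu0 => ?_⟩
    obtain ⟨e1, e2⟩ := hneg u hu hu0
    refine ⟨by rw [hd x hx.1.le, e1, mul_zero], ?_⟩
    rw [hh x hx.1.le]
    have h3 : μ / m * (m * hess ψ x u u) = μ * hess ψ x u u := by field_simp
    rw [h3]
    exact e2
  · intro x μ hx h0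
    refine h.lev x _ (hrel x μ hx) ?_
    rw [hv x hx.1.le, h0]
    field_simp
    ring

end Pool.Schoen
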