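import Pool.Agent.H.MP_6c077c_gt.Lz.Perturb
import Pool.Agent.H.MP_6c077c_gt.Lz.Idx2
import Pool.Agent.H.MP_6c077c_gt.Lz.Rel

/-! Convex functions: perturbation, with the conditions on saddle pairs on one or on both sides. -/

set_option autoImplicit false

namespace Pool.Schoen

open Filter Set
open scoped Topology RealInnerProductSpace ContDiff

variable {V : Type*} [NormedAddCommGroup V] [InnerProductSpace ℝ V]

theorem conv_hess_neg {G : V → ℝ} (x u w : V) : hess (fun y => -G y) x u w = -hess G x u w := by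
  have h1 : fderiv ℝ (fun y => -G y) = fun y => -fderiv ℝ G y := by
    funext y
    exact fderiv_fun_neg
  unfold hess
  rw [h1, fderiv_fun_neg]
  rfl

theorem conv_fderiv_neg {G : V → ℝ} (x v : V) :
    fderiv ℝ (fun y => -G y) x v = -fderiv ℝ G x v := by
  have h1 : fderiv ℝ (fun y => -G y) x = -fderiv ℝ G x := fderiv_fun_neg
  rw [h1]
  rfl

variable [FiniteDimensional ℝ V]

/-- Outside of a finite set of levels. -/
theorem relNice_levels {F φ : V → ℝ} (hF : ContDiff ℝ ∞ F) (hφ : ContDiff ℝ ∞ φ)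
    (hb : Bornology.IsBounded {x | F x ≤ 0}) (hreg : ∀ x, F x = 0 → gradient F x ≠ 0) (c₀ : ℝ)
    (hφr : ∀ x, F x ≤ 0 → c₀ ≤ φ x → fderiv ℝ φ x ≠ 0)
    (hnd : ∀ x μ, RelCrit F φ μ x → c₀ ≤ φ x → ∀ w, fderiv ℝ φ x w = 0 →
      (∀ w', fderiv ℝ φ x w' = 0 → hess F x w w' + μ * hess φ x w w' = 0) → w = 0)
    (htwo : ∀ x μ, RelCrit F φ μ x → c₀ ≤ φ x →
      ¬ ∃ U : Submodule ℝ V, Module.finrank ℝ U = 2 ∧ ∀ u ∈ U, u ≠ 0 →
        fderiv ℝ φ x u = 0 ∧ hess F x u u + μ * hess φ x u u < 0) :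
    ∃ H : Set ℝ, H.Finite ∧ ∀ c, c₀ ≤ c → c ∉ H → RelNice F φ c := by
  refine ⟨φ '' {x | c₀ ≤ φ x ∧ ∃ μ, RelCrit F φ μ x},
    (Perturb_finite hF hφ hb hreg c₀ hφr hnd).image _, fun c hc hcH => ⟨?_, ?_, ?_, ?_⟩⟩
  · exact fun x hx hxc => hφr x hx (hc.trans hxc)
  · exact fun x μ h hxc => hnd x μ h (hc.trans hxc)
  · exact fun x μ h hxc => htwo x μ h (hc.trans hxc)
  · intro x μ h hxc
    exact hcH ⟨x, ⟨by rw [hxc]; exact hc, μ, h⟩, hxc⟩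

/-- A small generic perturbation. -/
theorem perturb_exists {F φ : V → ℝ} (hF : ContDiff ℝ ∞ F) (hφ : ContDiff ℝ ∞ φ)
    (hreg : ∀ x, F x = 0 → gradient F x ≠ 0) {R : ℝ} (hR : 1 ≤ R) {ε : ℝ} (hε : 0 < ε) :
    ∃ (η : ℝ) (a : V), 0 < η ∧ η < ε ∧ ‖a‖ < ε ∧
      (∀ x, ‖x‖ ≤ R → |perturbF φ η a x - φ x| ≤ ε) ∧
      (∀ x, ‖x‖ ≤ R → ∀ v, |fderiv ℝ (perturbF φ η a) x v - fderiv ℝ φ x v| ≤ ε * ‖v‖) ∧
      ∀ x μ, F x = 0 → (∀ v, fderiv ℝ (perturbF φ η a) x v = -(μ * fderiv ℝ F x v)) →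
        ∀ w, fderiv ℝ F x w = 0 →
        (∀ w', fderiv ℝ F x w' = 0 → hess (perturbF φ η a) x w w' + μ * hess F x w w' = 0) →
        w = 0 := by
  have hR0 : 0 < R := by linarith
  obtain ⟨η, hη⟩ : ∃ η : ℝ, η = ε / (4 * R ^ 2) := ⟨_, rfl⟩
  have hR2 : 1 ≤ R ^ 2 := by nlinarith
  have hRR : R ≤ R ^ 2 := by nlinarith
  have hη0 : 0 < η := by
    rw [hη]
    positivity
  have hηR2 : η * R ^ 2 = ε / 4 := by
    rw [hη]
    field_simp
  have hηR : η * R ≤ ε / 4 := by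
    rw [← hηR2]
    exact mul_le_mul_of_nonneg_left hRR hη0.le
  have hη1 : η ≤ ε / 4 := by
    have h1 : η ≤ η * R := le_mul_of_one_le_right hη0.le hR
    linarith
  have hδ : 0 < ε / (2 * R) := by positivity
  obtain ⟨a, ha, hgen⟩ := sard_exists' hF (Perturb_smooth hφ η (0 : V)) hreg hδ
  have haR : ‖a‖ * R ≤ ε / 2 := by
    have h1 : ‖a‖ * R ≤ ε / (2 * R) * R := mul_le_mul_of_nonneg_right ha.le (by linarith)
    have h2 : ε / (2 * R) * R = ε / 2 := by field_simp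
    linarith
  have ha1 : ‖a‖ ≤ ε / 2 := by
    have h1 : ‖a‖ ≤ ‖a‖ * R := le_mul_of_one_le_right (norm_nonneg a) hR
    linarith
  refine ⟨η, a, hη0, by linarith, by linarith, ?_, ?_, ?_⟩
  · intro x hx
    have h1 : perturbF φ η a x - φ x = η * ‖x‖ ^ 2 + ⟪a, x⟫ := by
      unfold perturbF
      ring
    have h2 : |⟪a, x⟫| ≤ ε / 2 := by
      refine (abs_real_inner_le_norm a x).trans ?_
      exact (mul_le_mul_of_nonneg_left hx (norm_nonneg a)).trans haR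
    have h3 : η * ‖x‖ ^ 2 ≤ ε / 4 := by
      rw [← hηR2]
      have : ‖x‖ ^ 2 ≤ R ^ 2 := pow_le_pow_left₀ (norm_nonneg x) hx 2
      exact mul_le_mul_of_nonneg_left this hη0.le
    have h4 : 0 ≤ η * ‖x‖ ^ 2 := by positivity
    rw [h1, abs_le]
    have h5 := abs_le.1 h2
    constructor <;> linarith [h5.1, h5.2]
  · intro x hx v
    rw [Perturb_fderiv hφ]
    have h1 : fderiv ℝ φ x v + 2 * η * ⟪x, v⟫ + ⟪a, v⟫ - fderiv ℝ φ x v =
        2 * η * ⟪x, v⟫ + ⟪a, v⟫ := by ring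
    rw [h1]
    have h2 : |⟪a, v⟫| ≤ ‖a‖ * ‖v‖ := abs_real_inner_le_norm a v
    have h3 : |⟪x, v⟫| ≤ ‖x‖ * ‖v‖ := abs_real_inner_le_norm x v
    have h4 : |2 * η * ⟪x, v⟫| ≤ 2 * η * (R * ‖v‖) := by
      rw [abs_mul, abs_of_pos (by positivity : 0 < 2 * η)]
      refine mul_le_mul_of_nonneg_left (h3.trans ?_) (by positivity)
      exact mul_le_mul_of_nonneg_right hx (norm_nonneg v)
    have h5 : 2 * η * (R * ‖v‖) ≤ ε / 2 * ‖v‖ := by
      have := mul_le_mul_of_nonneg_right hηR (norm_nonneg v)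
      nlinarith
    have h6 : ‖a‖ * ‖v‖ ≤ ε / 2 * ‖v‖ := mul_le_mul_of_nonneg_right ha1 (norm_nonneg v)
    refine (abs_add_le _ _).trans ?_
    linarith
  · intro x μ hx hxa w hw hw'
    refine hgen x μ hx (fun v => ?_) w hw fun w' h1 => ?_
    · rw [Perturb_fderiv hφ, inner_zero_left, add_zero, ← hxa v, Perturb_fderiv hφ]
    · have h2 := hw' w' h1
      rw [Perturb_hess hφ] at h2 ⊢
      exact h2

/-- The nondegeneracy in the form of `RelNice`. -/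
theorem perturb_nd {F ψ : V → ℝ} {x : V} {μ : ℝ}
    (h : ∀ ν, F x = 0 → (∀ v, fderiv ℝ ψ x v = -(ν * fderiv ℝ F x v)) →
        ∀ w, fderiv ℝ F x w = 0 →
        (∀ w', fderiv ℝ F x w' = 0 → hess ψ x w w' + ν * hess F x w w' = 0) → w = 0)
    (hr : RelCrit F ψ μ x) (w : V) (hw : fderiv ℝ ψ x w = 0)
    (hw' : ∀ w', fderiv ℝ ψ x w' = 0 → hess F x w w' + μ * hess ψ x w w' = 0) : w = 0 := by
  obtain ⟨hx, hμ, hg⟩ := hr
  refine h μ⁻¹ hx (fun v => ?_) w (by rw [hg w, hw, mul_zero, neg_zero]) fun w' h1 => ?_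
  · rw [hg v]
    field_simp
  · rw [hg w', neg_eq_zero] at h1
    have h4 := hw' w' ((mul_eq_zero.1 h1).resolve_left hμ.ne')
    have h5 : μ * (hess ψ x w w' + μ⁻¹ * hess F x w w') = 0 := by
      rw [mul_add, ← mul_assoc μ μ⁻¹, mul_inv_cancel₀ hμ.ne', one_mul]
      linarith
    exact (mul_eq_zero.1 h5).resolve_left hμ.ne'

/-- The absence of negative planes in the form of `RelNice`. -/
theorem perturb_two {F ψ : V → ℝ} {x : V} {μ : ℝ}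
    (h : ∀ ν, 0 < ν → (∀ v, fderiv ℝ ψ x v = -(ν * fderiv ℝ F x v)) →
      ∀ U : Submodule ℝ V, Module.finrank ℝ U = 2 → (∀ u ∈ U, fderiv ℝ F x u = 0) →
        ∃ u ∈ U, 0 < hess ψ x u u + ν * hess F x u u)
    (hr : RelCrit F ψ μ x) :
    ¬ ∃ U : Submodule ℝ V, Module.finrank ℝ U = 2 ∧ ∀ u ∈ U, u ≠ 0 →
      fderiv ℝ ψ x u = 0 ∧ hess F x u u + μ * hess ψ x u u < 0 := by
  rintro ⟨U, hU2, hneg⟩
  obtain ⟨hx, hμ, hg⟩ := hr
  obtain ⟨u, huU, hu⟩ := h μ⁻¹ (inv_pos.2 hμ) (fun v => by rw [hg v]; field_simp) U hU2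
    (fun u hu => by
      by_cases hu0 : u = 0
      · rw [hu0, map_zero]
      · rw [hg u, (hneg u hu hu0).1, mul_zero, neg_zero])
  have hu0 : u ≠ 0 := by
    rintro rfl
    simp [hess] at hu
  have h2 := (hneg u huU hu0).2
  have h3 := mul_pos hμ hu
  rw [mul_add, ← mul_assoc μ μ⁻¹, mul_inv_cancel₀ hμ.ne', one_mul] at h3
  linarith

/-- The upper condition: no pair in the closure of the saddle pairs at or above the level `0` has
opposite normals. -/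
def UpSad (F φ : V → ℝ) : Prop :=
  ∀ (x : V) (μ : ℝ), (x, μ) ∈ closure (SadPair F φ) → 0 < μ → 0 ≤ φ x →
    ¬ ∀ v, fderiv ℝ φ x v = -(μ * fderiv ℝ F x v)

/-- The lower condition. -/
def LowSad (F φ : V → ℝ) : Prop :=
  ∀ (x : V) (μ : ℝ), F x = 0 → 0 < μ → φ x ≤ 0 → (∀ v, fderiv ℝ φ x v = μ * fderiv ℝ F x v) →
    ¬ ∃ U : Submodule ℝ V, Module.finrank ℝ U = 2 ∧ ∀ u ∈ U, fderiv ℝ F x u = 0 ∧
      μ * hess F x u u ≤ hess φ x u u

/-- The stability of the upper condition. -/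
theorem up_index {F φ : V → ℝ} (hF : ContDiff ℝ ∞ F) (hb : Bornology.IsBounded {x | F x ≤ 0})
    (hreg : ∀ x, F x = 0 → gradient F x ≠ 0) (hφ : ContDiff ℝ ∞ φ)
    (hφr : ∀ x, F x = 0 → 0 ≤ φ x → fderiv ℝ φ x ≠ 0) (hS : UpSad F φ) :
    ∃ ε : ℝ, 0 < ε ∧ ∀ (η : ℝ) (a : V), 0 < η → |η| < ε → ‖a‖ < ε → ∀ x, F x = 0 →
      -ε ≤ φ x → ∀ μ : ℝ, 0 < μ →
      (∀ v, fderiv ℝ φ x v + 2 * η * ⟪x, v⟫ + ⟪a, v⟫ = -(μ * fderiv ℝ F x v)) →
      ∀ U : Submodule ℝ V, Module.finrank ℝ U = 2 → (∀ u ∈ U, fderiv ℝ F x u = 0) →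
        ∃ u ∈ U, 0 < hess φ x u u + 2 * η * ‖u‖ ^ 2 + μ * hess F x u u := by
  refine idx_gen hF hb hreg hφ hφr (fun η => 0 < η) (SadPair F φ) ?_ ?_
  · intro η x μ U hη hx hμ hU hker hle
    refine ⟨hx, hμ, U, hU, fun u hu hu0 => ⟨hker u hu, ?_⟩⟩
    have h1 := hle u hu
    have h2 : 0 < ‖u‖ := norm_pos_iff.2 hu0
    have h3 : 0 < 2 * η * ‖u‖ ^ 2 := by positivity
    show hess φ x u u + μ * hess F x u u < 0
    linarith
  · intro x μ hcl _ hx0 hμ hg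
    exact absurd hg (hS x μ hcl hμ hx0)

/-- The stability of the lower condition. -/
theorem low_index {F φ : V → ℝ} (hF : ContDiff ℝ ∞ F) (hb : Bornology.IsBounded {x | F x ≤ 0})
    (hreg : ∀ x, F x = 0 → gradient F x ≠ 0) (hφ : ContDiff ℝ ∞ φ)
    (hφr : ∀ x, F x = 0 → φ x ≤ 0 → fderiv ℝ φ x ≠ 0) (hS : LowSad F φ) :
    ∃ ε : ℝ, 0 < ε ∧ ∀ (η : ℝ) (a : V), |η| < ε → ‖a‖ < ε → ∀ x, F x = 0 →
      -ε ≤ -φ x → ∀ μ : ℝ, 0 < μ →
      (∀ v, -(fderiv ℝ φ x v + 2 * η * ⟪x, v⟫ + ⟪a, v⟫) = -(μ * fderiv ℝ F x v)) →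
      ∀ U : Submodule ℝ V, Module.finrank ℝ U = 2 → (∀ u ∈ U, fderiv ℝ F x u = 0) →
        ∃ u ∈ U, 0 < -(hess φ x u u + 2 * η * ‖u‖ ^ 2) + μ * hess F x u u := by
  obtain ⟨ε, hε, h⟩ := idx_gen hF hb hreg (φ := fun x => -φ x) hφ.neg
    (fun x hx hx0 h0 => hφr x hx (by simpa using hx0) (by
      have h1 : fderiv ℝ (fun y => -φ y) x = -fderiv ℝ φ x := fderiv_fun_neg
      rw [h1] at h0
      exact neg_eq_zero.1 h0)) (fun _ => True) univ (fun _ _ _ _ _ _ _ _ _ _ => mem_univ _) (by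
    intro x μ _ hx hx0 hμ hg U hU hker
    by_contra hcon
    push Not at hcon
    refine hS x μ hx hμ (by simpa using hx0) (fun v => ?_) ⟨U, hU, fun u hu => ⟨hker u hu, ?_⟩⟩
    · have h1 := hg v
      rw [conv_fderiv_neg] at h1
      linarith
    · have h1 := hcon u hu
      rw [conv_hess_neg] at h1
      linarith)
  refine ⟨ε, hε, fun η a hη ha x hx hx0 μ hμ hg U hU hker => ?_⟩
  obtain ⟨u, hu, h1⟩ := h (-η) (-a) trivial (by rwa [abs_neg]) (by rwa [norm_neg]) x hx hx0 μ hμ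
    (fun v => by
      rw [conv_fderiv_neg, inner_neg_left, ← hg v]
      ring) U hU hker
  refine ⟨u, hu, ?_⟩
  rw [conv_hess_neg] at h1
  linarith

theorem perturb_up {F φ : V → ℝ} (hφ : ContDiff ℝ ∞ φ) {ε : ℝ}
    (h : ∀ (η : ℝ) (a : V), 0 < η → |η| < ε → ‖a‖ < ε → ∀ x, F x = 0 →
      -ε ≤ φ x → ∀ μ : ℝ, 0 < μ →
      (∀ v, fderiv ℝ φ x v + 2 * η * ⟪x, v⟫ + ⟪a, v⟫ = -(μ * fderiv ℝ F x v)) →
      ∀ U : Submodule ℝ V, Module.finrank ℝ U = 2 → (∀ u ∈ U, fderiv ℝ F x u = 0) →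
        ∃ u ∈ U, 0 < hess φ x u u + 2 * η * ‖u‖ ^ 2 + μ * hess F x u u)
    {η : ℝ} {a : V} (hη : 0 < η) (hηε : η < ε) (ha : ‖a‖ < ε) {x : V} {μ : ℝ}
    (hr : RelCrit F (perturbF φ η a) μ x) (hx : -ε ≤ φ x) :
    ¬ ∃ U : Submodule ℝ V, Module.finrank ℝ U = 2 ∧ ∀ u ∈ U, u ≠ 0 →
      fderiv ℝ (perturbF φ η a) x u = 0 ∧ hess F x u u + μ * hess (perturbF φ η a) x u u < 0 := by
  refine perturb_two (fun ν hν hg U hU hker => ?_) hr
  obtain ⟨u, hu, h1⟩ := h η a hη (by rwa [abs_of_pos hη]) ha x hr.1 hx ν hν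
    (fun v => by rw [← hg v, Perturb_fderiv hφ]) U hU hker
  refine ⟨u, hu, ?_⟩
  rw [Perturb_hess hφ, real_inner_self_eq_norm_sq]
  exact h1

theorem perturb_low {F φ : V → ℝ} (hφ : ContDiff ℝ ∞ φ) {ε : ℝ}
    (h : ∀ (η : ℝ) (a : V), |η| < ε → ‖a‖ < ε → ∀ x, F x = 0 →
      -ε ≤ -φ x → ∀ μ : ℝ, 0 < μ →
      (∀ v, -(fderiv ℝ φ x v + 2 * η * ⟪x, v⟫ + ⟪a, v⟫) = -(μ * fderiv ℝ F x v)) →
      ∀ U : Submodule ℝ V, Module.finrank ℝ U = 2 → (∀ u ∈ U, fderiv ℝ F x u = 0) →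
        ∃ u ∈ U, 0 < -(hess φ x u u + 2 * η * ‖u‖ ^ 2) + μ * hess F x u u)
    {η : ℝ} {a : V} (hη : 0 < η) (hηε : η < ε) (ha : ‖a‖ < ε) {x : V} {μ : ℝ}
    (hr : RelCrit F (fun y => -perturbF φ η a y) μ x) (hx : -ε ≤ -φ x) :
    ¬ ∃ U : Submodule ℝ V, Module.finrank ℝ U = 2 ∧ ∀ u ∈ U, u ≠ 0 →
      fderiv ℝ (fun y => -perturbF φ η a y) x u = 0 ∧
        hess F x u u + μ * hess (fun y => -perturbF φ η a y) x u u < 0 := by
  refine perturb_two (fun ν hν hg U hU hker => ?_) hr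
  obtain ⟨u, hu, h1⟩ := h η a (by rwa [abs_of_pos hη]) ha x hr.1 hx ν hν
    (fun v => by rw [← hg v, conv_fderiv_neg, Perturb_fderiv hφ]) U hU hker
  refine ⟨u, hu, ?_⟩
  rw [conv_hess_neg, Perturb_hess hφ, real_inner_self_eq_norm_sq]
  exact h1

/-- The one-sided perturbation. -/
theorem up_perturb {F φ : V → ℝ} (hF : ContDiff ℝ ∞ F) (hb : Bornology.IsBounded {x | F x ≤ 0})
    (hreg : ∀ x, F x = 0 → gradient F x ≠ 0) (hφ : ContDiff ℝ ∞ φ) (hc : ConvexOn ℝ univ φ)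
    (hq : ∃ q, φ q < 0) (hS : UpSad F φ) :
    ∃ (φ' : V → ℝ) (η c c' : ℝ) (P : Finset V), UConv φ' η ∧ c' < c ∧ (∃ q, φ' q < c') ∧
      PClass F φ' c' P ∧ (∀ p ∈ P, c < φ' p) ∧ ∀ x, F x ≤ 0 → φ' x ≤ c → φ x ≤ 0 := by
  obtain ⟨q, hq⟩ := hq
  have hφr : ∀ x, F x = 0 → 0 ≤ φ x → fderiv ℝ φ x ≠ 0 := by
    intro x _ hx h0
    have h1 := RoomIdx_le hφ hc x q
    rw [h0] at h1
    have h2 : (0 : V →L[ℝ] ℝ) (q - x) = 0 := rfl
    linarith
  obtain ⟨ε0, hε0, hidx⟩ := up_index hF hb hreg hφ hφr hS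
  obtain ⟨R0, hR0⟩ := hb.subset_closedBall (0 : V)
  obtain ⟨R, hR⟩ : ∃ R : ℝ, R = max R0 0 + ‖q‖ + 1 := ⟨_, rfl⟩
  have hRpos : 1 ≤ R := by
    rw [hR]
    have := le_max_right R0 0
    have := norm_nonneg q
    linarith
  have hqR : ‖q‖ ≤ R := by
    rw [hR]
    have := le_max_right R0 0
    linarith
  have hWR : ∀ x, F x ≤ 0 → ‖x‖ ≤ R := by
    intro x hx
    have h1 := mem_closedBall_zero_iff.1 (hR0 hx)
    rw [hR]
    have := le_max_left R0 0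
    have := norm_nonneg q
    linarith
  obtain ⟨ε, hε, hε1, hε2⟩ : ∃ ε : ℝ, 0 < ε ∧ 8 * ε ≤ ε0 ∧ 8 * ε ≤ -φ q := by
    have h1 : 0 < min ε0 (-φ q) := lt_min hε0 (by linarith)
    have h2 := min_le_left ε0 (-φ q)
    have h3 := min_le_right ε0 (-φ q)
    exact ⟨min ε0 (-φ q) / 8, by linarith, by linarith, by linarith⟩
  obtain ⟨η, a, hη0, hηε, haε, hclose, -, hgen⟩ := perturb_exists hF hφ hreg hRpos hε
  have hsm := Perturb_smooth hφ η a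
  have hU := Perturb_uconv hφ hc hη0 a
  have hq' : perturbF φ η a q < -(3 * ε) := by
    have h1 := (abs_le.1 (hclose q hqR)).2
    linarith
  have hφr' : ∀ x, F x ≤ 0 → -(3 * ε) ≤ perturbF φ η a x → fderiv ℝ (perturbF φ η a) x ≠ 0 :=
    fun x _ hx => hU.fderiv_ne hq' hx
  obtain ⟨H, hHf, hH⟩ := relNice_levels hF hsm hb hreg (-(3 * ε)) hφr'
    (fun x μ hr _ w hw hw' => perturb_nd (fun ν => hgen x ν) hr w hw hw')
    (fun x μ hr hx => perturb_up hφ hidx hη0 (by linarith) (by linarith) hr (by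
      have h1 := (abs_le.1 (hclose x (hWR x hr.1.le))).2
      linarith))
  obtain ⟨c, ⟨hc1, hc2⟩, hcH⟩ : ∃ c ∈ Ioo (-(3 * ε)) (-(2 * ε)), c ∉ H :=
    ((Ioo_infinite (by linarith)).sdiff hHf).nonempty
  -- a lower level without heights in between
  obtain ⟨Pc, hPc⟩ := (hH c hc1.le hcH).pclass hF hsm hb hreg
  have hfin := Perturb_finite hF hsm hb hreg (-(3 * ε)) hφr'
    (fun x μ hr _ w hw hw' => perturb_nd (fun ν => hgen x ν) hr w hw hw')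
  obtain ⟨H', hH'⟩ : ∃ H' : Set ℝ, H' = perturbF φ η a ''
    {x | -(3 * ε) ≤ perturbF φ η a x ∧ ∃ μ, RelCrit F (perturbF φ η a) μ x} := ⟨_, rfl⟩
  have hHf' : H'.Finite := by
    rw [hH']
    exact hfin.image _
  have hcH' : c ∉ H' := by
    rw [hH']
    rintro ⟨x, ⟨-, μ, hr⟩, hxc⟩
    exact (hH c hc1.le hcH).lev x μ hr hxc
  obtain ⟨r, hr, hrH⟩ := Metric.isOpen_iff.1 hHf'.isClosed.isOpen_compl c hcH'
  obtain ⟨c', ⟨hc'1, hc'2⟩, hc'H⟩ : ∃ c' ∈ Ioo (max (-(3 * ε)) (c - r)) c, c' ∉ H :=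
    ((Ioo_infinite (max_lt hc1 (by linarith))).sdiff hHf).nonempty
  have hc'3 : -(3 * ε) < c' := (le_max_left _ _).trans_lt hc'1
  have hc'4 : c - r < c' := (le_max_right _ _).trans_lt hc'1
  have hnoc : ∀ x μ, RelCrit F (perturbF φ η a) μ x → c' ≤ perturbF φ η a x →
      perturbF φ η a x ≤ c → False := by
    intro x μ h h1 h2
    have h3 : perturbF φ η a x ∈ Metric.ball c r := by
      rw [Metric.mem_ball, Real.dist_eq, abs_lt]
      constructor <;> linarith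
    apply hrH h3
    rw [hH']
    exact ⟨x, ⟨by linarith, μ, h⟩, rfl⟩
  obtain ⟨P, hP⟩ := (hH c' hc'3.le hc'H).pclass hF hsm hb hreg
  refine ⟨perturbF φ η a, η, c, c', P, hU, hc'2, ⟨q, by linarith⟩, hP, ?_, ?_⟩
  · intro p hp
    by_contra hcon
    obtain ⟨μ, hμ, hg, -⟩ := (hP.inw p hp).idx
    exact hnoc p μ ⟨(hP.inw p hp).zero, hμ, hg⟩ (hP.high p hp).le (not_lt.1 hcon)
  · intro x hx hxc
    have h1 := (abs_le.1 (hclose x (hWR x hx))).1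
    linarith

/-- The two-sided perturbation. -/
theorem conv_perturb {F φ : V → ℝ} (hF : ContDiff ℝ ∞ F) (hb : Bornology.IsBounded {x | F x ≤ 0})
    (hreg : ∀ x, F x = 0 → gradient F x ≠ 0) (hφ : ContDiff ℝ ∞ φ) (hc : ConvexOn ℝ univ φ)
    (hW : ∀ x, F x ≤ 0 → fderiv ℝ φ x ≠ 0) (hS : UpSad F φ) (hL : LowSad F φ) :
    ∃ (φ' : V → ℝ) (η c : ℝ), UConv φ' η ∧ RelNice F φ' c ∧ RelNice F (fun x => -φ' x) (-c) := by
  obtain ⟨ε1, hε1, hidx1⟩ := up_index hF hb hreg hφ (fun x hx _ => hW x hx.le) hS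
  obtain ⟨ε2, hε2, hidx2⟩ := low_index hF hb hreg hφ (fun x hx _ => hW x hx.le) hL
  obtain ⟨R0, hR0⟩ := hb.subset_closedBall (0 : V)
  obtain ⟨R, hR⟩ : ∃ R : ℝ, R = max R0 0 + 1 := ⟨_, rfl⟩
  have hRpos : 1 ≤ R := by
    rw [hR]
    have := le_max_right R0 0
    linarith
  have hWR : ∀ x, F x ≤ 0 → ‖x‖ ≤ R := by
    intro x hx
    have h1 := mem_closedBall_zero_iff.1 (hR0 hx)
    rw [hR]
    have := le_max_left R0 0
    linarith
  have hcpt : IsCompact {x | F x ≤ 0} :=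
    Metric.isCompact_of_isClosed_isBounded (isClosed_le hF.continuous continuous_const) hb
  obtain ⟨m, hm, hmW⟩ : ∃ m : ℝ, 0 < m ∧ ∀ x, F x ≤ 0 → m ≤ ‖fderiv ℝ φ x‖ := by
    rcases Set.eq_empty_or_nonempty {x | F x ≤ 0} with h0 | h0
    · refine ⟨1, one_pos, fun x hx => ?_⟩
      have : x ∈ {x | F x ≤ 0} := hx
      rw [h0] at this
      exact absurd this (Set.notMem_empty x)
    · have hcont : Continuous fun x => ‖fderiv ℝ φ x‖ :=
        ((hφ.fderiv_right (m := 1) (by norm_cast)).continuous).norm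
      obtain ⟨x0, hx0, hmin⟩ := hcpt.exists_isMinOn h0 hcont.continuousOn
      exact ⟨‖fderiv ℝ φ x0‖, norm_pos_iff.2 (hW x0 hx0), fun x hx => hmin hx⟩
  obtain ⟨ε, hε, hεm, hε1', hε2'⟩ : ∃ ε : ℝ, 0 < ε ∧ 8 * ε ≤ m ∧ 8 * ε ≤ ε1 ∧ 8 * ε ≤ ε2 := by
    have h1 : 0 < min m (min ε1 ε2) := lt_min hm (lt_min hε1 hε2)
    have h2 := min_le_left m (min ε1 ε2)
    have h3 := (min_le_right m (min ε1 ε2)).trans (min_le_left ε1 ε2)
    have h4 := (min_le_right m (min ε1 ε2)).trans (min_le_right ε1 ε2)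
    exact ⟨min m (min ε1 ε2) / 8, by linarith, by linarith, by linarith, by linarith⟩
  obtain ⟨η, a, hη0, hηε, haε, hclose, hclose', hgen⟩ := perturb_exists hF hφ hreg hRpos hε
  have hsm := Perturb_smooth hφ η a
  have hU := Perturb_uconv hφ hc hη0 a
  have hφr' : ∀ x, F x ≤ 0 → fderiv ℝ (perturbF φ η a) x ≠ 0 := by
    intro x hx h0
    have h1 : ‖fderiv ℝ φ x‖ ≤ ε := by
      refine ContinuousLinearMap.opNorm_le_bound _ hε.le fun v => ?_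
      have h2 := hclose' x (hWR x hx) v
      rw [h0] at h2
      have h3 : (0 : V →L[ℝ] ℝ) v - fderiv ℝ φ x v = -fderiv ℝ φ x v := zero_sub _
      rw [h3, abs_neg] at h2
      exact h2
    have h2 := hmW x hx
    linarith
  obtain ⟨H1, hH1f, hH1⟩ := relNice_levels hF hsm hb hreg (-(3 * ε)) (fun x hx _ => hφr' x hx)
    (fun x μ hr _ w hw hw' => perturb_nd (fun ν => hgen x ν) hr w hw hw')
    (fun x μ hr hx => perturb_up hφ hidx1 hη0 (by linarith) (by linarith) hr (by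
      have h1 := (abs_le.1 (hclose x (hWR x hr.1.le))).2
      linarith))
  obtain ⟨H2, hH2f, hH2⟩ := relNice_levels hF hsm.neg hb hreg (-(3 * ε)) (fun x hx _ => by
      have h1 : fderiv ℝ (fun y => -perturbF φ η a y) x = -fderiv ℝ (perturbF φ η a) x :=
        fderiv_fun_neg
      show fderiv ℝ (fun y => -perturbF φ η a y) x ≠ 0
      rw [h1]
      exact neg_ne_zero.2 (hφr' x hx))
    (fun x μ hr _ w hw hw' => by
      refine perturb_nd (ψ := fun y => -perturbF φ η a y) (μ := μ) ?_ hr w hw hw'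
      intro ν hx hg w hw hw'
      refine hgen x (-ν) hx (fun v => ?_) w hw fun w' h1 => ?_
      · have h2 := hg v
        rw [conv_fderiv_neg] at h2
        linarith
      · have h2 := hw' w' h1
        rw [conv_hess_neg] at h2
        linarith)
    (fun x μ hr hx => perturb_low hφ hidx2 hη0 (by linarith) (by linarith) hr (by
      have h1 := (abs_le.1 (hclose x (hWR x hr.1.le))).1
      have h2 : -(3 * ε) ≤ -perturbF φ η a x := hx
      linarith))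
  have hH3f : ((fun c : ℝ => -c) '' H2).Finite := hH2f.image _
  obtain ⟨c, ⟨hc1, hc2⟩, hcH⟩ : ∃ c ∈ Ioo (-ε) ε, c ∉ H1 ∪ (fun c : ℝ => -c) '' H2 :=
    ((Ioo_infinite (by linarith)).sdiff (hH1f.union hH3f)).nonempty
  refine ⟨perturbF φ η a, η, c, hU, hH1 c (by linarith) fun h => hcH (Or.inl h),
    hH2 (-c) (by linarith) fun h => hcH (Or.inr ⟨-c, h, by simp⟩)⟩

end Pool.Schoen
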