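import Pool.Agent.H.MP_6c077c_gt.Lz.Defs
import Pool.Agent.H.MP_6c077c_gt.Al.Diffeo

/-! Convex functions: radial diffeomorphisms. -/

set_option autoImplicit false

namespace Pool.Schoen

open Filter Set
open scoped Topology RealInnerProductSpace ContDiff

variable {V : Type*} [NormedAddCommGroup V] [InnerProductSpace ℝ V] [FiniteDimensional ℝ V]

omit [FiniteDimensional ℝ V] in
theorem radDif_deriv {ρ : V → ℝ} (hρ : ContDiff ℝ ∞ ρ) (x : V) (r : ℝ) :
    HasDerivAt (fun r : ℝ => ρ (r • x) * r) (ρ (r • x) + fderiv ℝ ρ (r • x) (r • x)) r := by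
  have h1 : HasFDerivAt ρ (fderiv ℝ ρ (r • x)) (r • x) :=
    (hρ.differentiable (by simp)).differentiableAt.hasFDerivAt
  have h2 : HasDerivAt (fun r : ℝ => r • x) ((1 : ℝ) • x) r := (hasDerivAt_id r).smul_const x
  have h3 : HasDerivAt (fun r : ℝ => ρ (r • x)) (fderiv ℝ ρ (r • x) ((1 : ℝ) • x)) r :=
    h1.comp_hasDerivAt r h2
  have h4 := h3.mul (hasDerivAt_id r)
  refine h4.congr_deriv ?_
  rw [one_smul, map_smul, smul_eq_mul]
  simp only [id]
  ring

omit [FiniteDimensional ℝ V] in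
theorem radDif_mono {ρ : V → ℝ} (hρ : ContDiff ℝ ∞ ρ)
    (hmon : ∀ x, 0 < ρ x + fderiv ℝ ρ x x) (x : V) :
    StrictMono fun r : ℝ => ρ (r • x) * r := by
  refine strictMono_of_deriv_pos fun r => ?_
  rw [(radDif_deriv hρ x r).deriv]
  exact hmon _

omit [FiniteDimensional ℝ V] in
theorem radDif_inj {ρ : V → ℝ} (hρ : ContDiff ℝ ∞ ρ) (hpos : ∀ x, 0 < ρ x)
    (hmon : ∀ x, 0 < ρ x + fderiv ℝ ρ x x) : Function.Injective fun x => ρ x • x := by
  intro x y hxy
  have h0 : ρ x • x = ρ y • y := hxy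
  by_cases hx : x = 0
  · rw [hx, smul_zero] at h0
    rcases smul_eq_zero.1 h0.symm with h | h
    · exact absurd h (hpos y).ne'
    · rw [hx, h]
  · have h1 : y = (ρ x / ρ y) • x := by
      rw [div_eq_inv_mul, mul_smul, h0, smul_smul, inv_mul_cancel₀ (hpos y).ne', one_smul]
    set t := ρ x / ρ y with ht
    have h2 : ρ ((1 : ℝ) • x) * 1 = ρ (t • x) * t := by
      rw [one_smul, mul_one, ← h1, ht]
      field_simp [(hpos y).ne']
    have h3 : (1 : ℝ) = t := (radDif_mono hρ hmon x).injective h2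
    rw [h1, ← h3, one_smul]

omit [FiniteDimensional ℝ V] in
theorem radDif_surj {ρ : V → ℝ} (hρ : ContDiff ℝ ∞ ρ)
    (hprop : ∀ R : ℝ, ∃ r : ℝ, ∀ x, r ≤ ‖x‖ → R ≤ ρ x * ‖x‖) :
    Function.Surjective fun x => ρ x • x := by
  intro y
  by_cases hy : y = 0
  · exact ⟨0, by show ρ 0 • (0 : V) = y; rw [smul_zero, hy]⟩
  · have hn : 0 < ‖y‖ := norm_pos_iff.2 hy
    obtain ⟨r₀, hr₀⟩ := hprop ‖y‖
    set r := max r₀ 0 / ‖y‖ with hr
    have hr0 : 0 ≤ r := div_nonneg (le_max_right _ _) hn.le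
    have h1 : ‖r • y‖ = max r₀ 0 := by
      rw [norm_smul, Real.norm_eq_abs, abs_of_nonneg hr0, hr, div_mul_cancel₀ _ hn.ne']
    have h2 := hr₀ (r • y) (by rw [h1]; exact le_max_left _ _)
    have h3 : 1 ≤ ρ (r • y) * r := by
      rw [norm_smul, Real.norm_eq_abs, abs_of_nonneg hr0] at h2
      by_contra hcon
      have h4 := mul_lt_mul_of_pos_right (not_le.1 hcon) hn
      linarith
    have hcont : Continuous fun r : ℝ => ρ (r • y) * r :=
      continuous_iff_continuousAt.2 fun r => (radDif_deriv hρ y r).continuousAt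
    have h5 := intermediate_value_Icc hr0 hcont.continuousOn
    obtain ⟨s, -, hs⟩ := h5 (show (1 : ℝ) ∈ Icc (ρ ((0 : ℝ) • y) * 0) (ρ (r • y) * r) from
      ⟨by rw [mul_zero]; exact zero_le_one, h3⟩)
    refine ⟨s • y, ?_⟩
    show ρ (s • y) • s • y = y
    have hs' : ρ (s • y) * s = 1 := hs
    rw [smul_smul, hs', one_smul]

/-- PROOF. `Ψ x = ρ x • x`. For `‖ω‖ = 1` the function `r ↦ ρ (r • ω) * r` has the derivative
`ρ (r • ω) + fderiv ℝ ρ (r • ω) (r • ω) > 0`, is `0` at `0` and unbounded on `[0, ∞)` (`hprop`), so it maps `[0, ∞)`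
bijectively to `[0, ∞)`; as `ρ > 0`, `Ψ` is bijective (`Ψ x` is on the ray of `x`). `Ψ` is smooth;
`DΨ x v = ρ x • v + (Dρ x v) • x` is injective: if it is `0` then `v = s • x`, so `(s * (ρ x + Dρ x x)) • x = 0`, so
`s = 0` or `x = 0`, `v = 0`. So it is a continuous linear equivalence (finite dimension). Let `Φ` be the inverse
function of `Ψ`. Near `y₀ = Ψ x₀` the local inverse `g` (`HasStrictFDerivAt.toOpenPartialHomeomorph` /
`ContDiffAt.toOpenPartialHomeomorph`, `ContDiffAt.to_localInverse`) has `Ψ (g y) = y`, so `g y = Φ y` (injective): `Φ` is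
smooth at `y₀`. -/
theorem radial_dif {ρ : V → ℝ} (hρ : ContDiff ℝ ∞ ρ) (hpos : ∀ x, 0 < ρ x)
    (hmon : ∀ x, 0 < ρ x + fderiv ℝ ρ x x) (hprop : ∀ R : ℝ, ∃ r : ℝ, ∀ x, r ≤ ‖x‖ → R ≤ ρ x * ‖x‖) :
    ∃ Φ : V → V, Dif Φ (fun x => ρ x • x) := by
  haveI : CompleteSpace V := FiniteDimensional.complete ℝ V
  have hb : Function.Bijective fun x => ρ x • x :=
    ⟨radDif_inj hρ hpos hmon, radDif_surj hρ hprop⟩
  have hsm : ContDiff ℝ ∞ fun x => ρ x • x := hρ.smul contDiff_id
  let e := Equiv.ofBijective _ hb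
  have he : ∀ x, e x = ρ x • x := fun x => rfl
  refine ⟨e.symm, ?_, hsm, fun y => e.apply_symm_apply y, fun x => e.symm_apply_apply x⟩
  rw [contDiff_iff_contDiffAt]
  intro y
  obtain ⟨x, rfl⟩ := e.surjective y
  have hd : HasFDerivAt (fun x => ρ x • x)
      (ρ x • ContinuousLinearMap.id ℝ V + (fderiv ℝ ρ x).smulRight x) x :=
    (hρ.differentiable (by simp)).differentiableAt.hasFDerivAt.smul (hasFDerivAt_id x)
  set D := ρ x • ContinuousLinearMap.id ℝ V + (fderiv ℝ ρ x).smulRight x with hD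
  have hDv : ∀ v, D v = ρ x • v + (fderiv ℝ ρ x v) • x := fun v => rfl
  have hinj : Function.Injective D := by
    rw [injective_iff_map_eq_zero]
    intro v hv
    rw [hDv] at hv
    have h1 : v = (-(fderiv ℝ ρ x v) / ρ x) • x := by
      have h2 : ρ x • v = (-(fderiv ℝ ρ x v)) • x := by
        rw [neg_smul]
        exact eq_neg_of_add_eq_zero_left hv
      rw [div_eq_inv_mul, mul_smul, ← h2, smul_smul, inv_mul_cancel₀ (hpos x).ne', one_smul]
    set s := -(fderiv ℝ ρ x v) / ρ x with hs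
    have h3 : (s * (ρ x + fderiv ℝ ρ x x)) • x = 0 := by
      rw [h1, map_smul, smul_eq_mul, smul_smul, ← add_smul] at hv
      rw [← hv]
      congr 1
      ring
    rcases smul_eq_zero.1 h3 with h4 | h4
    · rcases mul_eq_zero.1 h4 with h5 | h5
      · rw [h1, h5, zero_smul]
      · exact absurd h5 (hmon x).ne'
    · rw [h1, h4, smul_zero]
  have hsurj : Function.Surjective D :=
    (LinearMap.injective_iff_surjective (f := (D : V →ₗ[ℝ] V))).1 hinj
  let D' : V ≃L[ℝ] V := ContinuousLinearEquiv.ofBijective D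
    (LinearMap.ker_eq_bot.2 hinj) (LinearMap.range_eq_top.2 hsurj)
  have hD' : (D' : V →L[ℝ] V) = D := ContinuousLinearEquiv.coe_ofBijective _ _ _
  have hd' : HasFDerivAt (fun x => ρ x • x) (D' : V →L[ℝ] V) x := by
    rw [hD']
    exact hd
  have hn : (∞ : WithTop ℕ∞) ≠ 0 := by simp
  have h1 := hsm.contDiffAt (x := x) |>.to_localInverse hd' hn
  refine h1.congr_of_eventuallyEq ?_
  have h2 := (hsm.contDiffAt (x := x) |>.hasStrictFDerivAt' hd' hn).eventually_right_inverse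
  filter_upwards [h2] with z hz
  apply e.injective
  rw [e.apply_symm_apply]
  exact hz.symm

end Pool.Schoen
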