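import Pool.Agent.H.MP_6c077c_gt.Ph.PDefs
import Pool.Agent.H.MP_6c077c_gt.AreaLoc
import Pool.Agent.H.MP_6c077c_gt.Al.Start

/-! Sard for the normal map of a level set: for almost every `a` the function `φ + ⟪a, ·⟫` has only
nondegenerate critical points on `{F = 0}`. -/

set_option autoImplicit false

namespace Pool.Schoen

open Filter Set MeasureTheory
open scoped Topology RealInnerProductSpace ContDiff

variable {V : Type*} [NormedAddCommGroup V] [InnerProductSpace ℝ V] [FiniteDimensional ℝ V]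

/-- The derivative of the gradient. -/
noncomputable def SDgr (F : V → ℝ) (x : V) : V →L[ℝ] V := fderiv ℝ (gradient F) x

theorem SD_hasFDerivAt {F : V → ℝ} (hF : ContDiff ℝ ∞ F) (x : V) :
    HasFDerivAt (gradient F) (SDgr F x) x :=
  ((gradient_contDiff F (hF.of_le (by norm_cast))).differentiable (by simp) x).hasFDerivAt

theorem SDgr_inner {F : V → ℝ} (hF : ContDiff ℝ ∞ F) (x v w : V) :
    ⟪SDgr F x v, w⟫ = hess F x v w := by
  have h1 : HasFDerivAt (fun y => ⟪gradient F y, w⟫) (fderiv ℝ (fun y => ⟪gradient F y, w⟫) x) x :=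
    ((SD_hasFDerivAt hF x).inner ℝ (hasFDerivAt_const w x)).differentiableAt.hasFDerivAt
  have h2 : fderiv ℝ (fun y => ⟪gradient F y, w⟫) x v = ⟪SDgr F x v, w⟫ := by
    have h3 := ((SD_hasFDerivAt hF x).inner ℝ (hasFDerivAt_const w x)).fderiv
    rw [h3]
    simp [fderivInnerCLM_apply]
  have h4 : (fun y => ⟪gradient F y, w⟫) = fun y => fderiv ℝ F y w := by
    funext y
    rw [gradient, InnerProductSpace.toDual_symm_apply]
  have h5 : HasFDerivAt (fderiv ℝ F) (fderiv ℝ (fderiv ℝ F) x) x :=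
    ((hF.fderiv_right (m := ∞) (by simp)).differentiable (by simp) x).hasFDerivAt
  have h6 := (h5.clm_apply (hasFDerivAt_const w x)).fderiv
  rw [← h2, h4, h6, hess]
  simp

/-- The chart: the height is replaced by `F`. -/
noncomputable def SDH (F : V → ℝ) (e x : V) : V := x + (F x - ⟪e, x⟫) • e

/-- The derivative of the chart. -/
noncomputable def SDHd (F : V → ℝ) (e x : V) : V →L[ℝ] V :=
  ContinuousLinearMap.id ℝ V + (fderiv ℝ F x - innerSL ℝ e).smulRight e

omit [FiniteDimensional ℝ V] in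
theorem SDHd_apply (F : V → ℝ) (e x v : V) :
    SDHd F e x v = v + (fderiv ℝ F x v - ⟪e, v⟫) • e := by
  simp [SDHd]

omit [FiniteDimensional ℝ V] in
theorem SDH_contDiff {F : V → ℝ} (hF : ContDiff ℝ ∞ F) (e : V) : ContDiff ℝ ∞ (SDH F e) :=
  contDiff_id.add ((hF.sub (contDiff_const.inner ℝ contDiff_id)).smul contDiff_const)

omit [FiniteDimensional ℝ V] in
theorem SDH_hasFDerivAt {F : V → ℝ} (hF : ContDiff ℝ ∞ F) (e x : V) :
    HasFDerivAt (SDH F e) (SDHd F e x) x := by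
  have h1 : HasFDerivAt F (fderiv ℝ F x) x := (hF.differentiable (by simp) x).hasFDerivAt
  exact (hasFDerivAt_id x).add ((h1.sub (innerSL ℝ e).hasFDerivAt).smul_const e)

omit [FiniteDimensional ℝ V] in
theorem SDHd_inner {e : V} (he : ‖e‖ = 1) (F : V → ℝ) (x v : V) :
    ⟪e, SDHd F e x v⟫ = fderiv ℝ F x v := by
  rw [SDHd_apply, inner_add_right, real_inner_smul_right, real_inner_self_eq_norm_sq, he]
  ring

omit [FiniteDimensional ℝ V] in
theorem SDH_inner {e : V} (he : ‖e‖ = 1) (F : V → ℝ) (x : V) : ⟪e, SDH F e x⟫ = F x := by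
  rw [SDH, inner_add_right, real_inner_smul_right, real_inner_self_eq_norm_sq, he]
  ring

omit [FiniteDimensional ℝ V] in
theorem SDHd_inj {e : V} (he : ‖e‖ = 1) {F : V → ℝ} {x : V} (hx : fderiv ℝ F x e ≠ 0) :
    Function.Injective (SDHd F e x) := by
  rw [injective_iff_map_eq_zero]
  intro v hv
  have h1 := SDHd_inner he F x v
  rw [hv, inner_zero_right] at h1
  rw [SDHd_apply, ← h1, zero_sub] at hv
  have h2 : v = ⟪e, v⟫ • e := by
    rw [neg_smul, ← sub_eq_add_neg, sub_eq_zero] at hv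
    exact hv
  have h3 : fderiv ℝ F x v = ⟪e, v⟫ * fderiv ℝ F x e := by
    conv_lhs => rw [h2]
    rw [map_smul, smul_eq_mul]
  rw [← h1] at h3
  have h4 : ⟪e, v⟫ = 0 := by
    rcases mul_eq_zero.1 h3.symm with h | h
    · exact h
    · exact absurd h hx
  rw [h4, zero_smul] at h2
  exact h2

/-- The derivative of the chart as an equivalence. -/
theorem SD_equiv {A : V →L[ℝ] V} (hA : Function.Injective A) :
    ∃ L : V ≃L[ℝ] V, (L : V →L[ℝ] V) = A := by
  refine ⟨(LinearEquiv.ofInjectiveEndo (A : V →ₗ[ℝ] V) hA).toContinuousLinearEquiv, ?_⟩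
  ext v
  rfl

/-- A continuous linear endomorphism with a kernel has determinant zero. -/
theorem SD_det {A : V →L[ℝ] V} {v : V} (hv : v ≠ 0) (h : A v = 0) : A.det = 0 := by
  by_contra hd
  have h1 : Function.Injective (A : V →ₗ[ℝ] V) := by
    have := (LinearMap.equivOfDetNeZero (A : V →ₗ[ℝ] V) hd).injective
    intro a b hab
    exact this hab
  exact hv (h1 (by rw [map_zero]; exact h))

omit [FiniteDimensional ℝ V] in
/-- Vectors orthogonal to a hyperplane. -/
theorem SD_parallel {g y : V} (hg : g ≠ 0) (h : ∀ w, ⟪g, w⟫ = 0 → ⟪y, w⟫ = 0) :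
    ∃ c : ℝ, y = c • g := by
  refine ⟨⟪g, y⟫ / ⟪g, g⟫, ?_⟩
  have hgg : ⟪g, g⟫ ≠ 0 := inner_self_ne_zero.2 hg
  have h1 : ⟪g, y - (⟪g, y⟫ / ⟪g, g⟫) • g⟫ = 0 := by
    rw [inner_sub_right, real_inner_smul_right, div_mul_cancel₀ _ hgg, sub_self]
  have h2 := h _ h1
  have h3 : ⟪y - (⟪g, y⟫ / ⟪g, g⟫) • g, y - (⟪g, y⟫ / ⟪g, g⟫) • g⟫ = 0 := by
    rw [inner_sub_left, h2, real_inner_smul_left, h1, mul_zero, sub_zero]
  exact sub_eq_zero.1 (inner_self_eq_zero.1 h3)

variable [MeasurableSpace V] [BorelSpace V]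

/-- The set of the bad `a` coming from a set of points. -/
def SDbad (F φ : V → ℝ) (S : Set V) : Set V :=
  {a | ∃ x ∈ S, ∃ μ : ℝ, F x = 0 ∧ gradient φ x + a + μ • gradient F x = 0 ∧
    ∃ w, w ≠ 0 ∧ ⟪gradient F x, w⟫ = 0 ∧
      ∀ w', ⟪gradient F x, w'⟫ = 0 → hess φ x w w' + μ * hess F x w w' = 0}

/-- Near a point of the level set. -/
theorem SD_local {F φ : V → ℝ} (hF : ContDiff ℝ ∞ F) (hφ : ContDiff ℝ ∞ φ) {x₀ : V}
    (hx₀ : gradient F x₀ ≠ 0) :
    ∃ S ∈ 𝓝 x₀, (volume : Measure V) (SDbad F φ S) = 0 := by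
  obtain ⟨e, he, hx₀e⟩ : ∃ e : V, ‖e‖ = 1 ∧ fderiv ℝ F x₀ e ≠ 0 := by
    refine ⟨‖gradient F x₀‖⁻¹ • gradient F x₀, norm_smul_inv_norm hx₀, ?_⟩
    rw [fderiv_eq_inner_gradient, real_inner_smul_right, real_inner_self_eq_norm_sq]
    have := norm_pos_iff.2 hx₀
    positivity
  obtain ⟨L, hL⟩ := SD_equiv (SDHd_inj he hx₀e)
  have hd : HasFDerivAt (SDH F e) (L : V →L[ℝ] V) x₀ := by
    rw [hL]
    exact SDH_hasFDerivAt hF e x₀
  have hc := (SDH_contDiff hF e).contDiffAt (x := x₀)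
  obtain ⟨P, hP⟩ : ∃ P, P = hc.toOpenPartialHomeomorph (SDH F e) hd (by simp) := ⟨_, rfl⟩
  have hPc : ∀ x, P x = SDH F e x := by
    intro x
    rw [hP]
    rfl
  have hx₀P : x₀ ∈ P.source := by
    rw [hP]
    exact hc.mem_toOpenPartialHomeomorph_source hd (by simp)
  have hopen : IsOpen {x | fderiv ℝ F x e ≠ 0} := by
    have h1 : Continuous fun x => fderiv ℝ F x e :=
      (hF.continuous_fderiv (by simp)).clm_apply continuous_const
    exact isOpen_ne_fun h1 continuous_const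
  refine ⟨P.source ∩ {x | fderiv ℝ F x e ≠ 0}, (P.open_source.inter hopen).mem_nhds ⟨hx₀P, hx₀e⟩,
    ?_⟩
  -- the projection and the parametrisation
  obtain ⟨p, hp⟩ : ∃ p : V →L[ℝ] V, ∀ z, p z = z - ⟪e, z⟫ • e :=
    ⟨ContinuousLinearMap.id ℝ V - (innerSL ℝ e).smulRight e, fun z => by simp⟩
  obtain ⟨Λ, hΛ⟩ : ∃ Λ : V → V, ∀ z, Λ z = -(⟪e, z⟫ • gradient F (P.symm (p z))) -
    gradient φ (P.symm (p z)) := ⟨_, fun _ => rfl⟩
  obtain ⟨T, hT⟩ : ∃ T : Set V, T = {z | p z ∈ P.target ∧ fderiv ℝ F (P.symm (p z)) e ≠ 0} :=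
    ⟨_, rfl⟩
  have key : ∀ z ∈ T, ∃ D : V →L[ℝ] V, HasFDerivAt Λ D z ∧ ∃ G : V →L[ℝ] V,
      (∀ w, G (SDHd F e (P.symm (p z)) w) = w) ∧ ∀ dz, D dz =
        -(⟪e, z⟫ • SDgr F (P.symm (p z)) (G (p dz))) - ⟪e, dz⟫ • gradient F (P.symm (p z)) -
          SDgr φ (P.symm (p z)) (G (p dz)) := by
    intro z hz
    rw [hT] at hz
    obtain ⟨hz1, hz2⟩ := hz
    obtain ⟨Lz, hLz⟩ := SD_equiv (SDHd_inj he hz2)
    have h1 : HasFDerivAt P (Lz : V →L[ℝ] V) (P.symm (p z)) := by
      have h0 : (P : V → V) = SDH F e := funext hPc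
      rw [hLz, h0]
      exact SDH_hasFDerivAt hF e _
    have h2 : HasFDerivAt P.symm (Lz.symm : V →L[ℝ] V) (p z) := P.hasFDerivAt_symm hz1 h1
    have h3 : HasFDerivAt (fun z => P.symm (p z)) ((Lz.symm : V →L[ℝ] V) ∘L p) z :=
      h2.comp z p.hasFDerivAt
    have h4 : HasFDerivAt (fun z => gradient F (P.symm (p z)))
        (SDgr F (P.symm (p z)) ∘L ((Lz.symm : V →L[ℝ] V) ∘L p)) z :=
      (SD_hasFDerivAt hF _).comp z h3
    have h5 : HasFDerivAt (fun z => gradient φ (P.symm (p z)))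
        (SDgr φ (P.symm (p z)) ∘L ((Lz.symm : V →L[ℝ] V) ∘L p)) z :=
      (SD_hasFDerivAt hφ _).comp z h3
    have h6 : HasFDerivAt (fun z : V => ⟪e, z⟫) (innerSL ℝ e) z := (innerSL ℝ e).hasFDerivAt
    have h7 := ((h6.smul h4).neg).sub h5
    have hΛ' : Λ = -((fun z => ⟪e, z⟫) • fun z => gradient F (P.symm (p z))) -
        fun z => gradient φ (P.symm (p z)) := funext hΛ
    rw [← hΛ'] at h7
    refine ⟨_, h7, (Lz.symm : V →L[ℝ] V), fun w => ?_, fun dz => ?_⟩
    · rw [← hLz]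
      exact Lz.symm_apply_apply w
    · simp
      abel
  choose! D hD G hG hDf using key
  -- the critical set
  obtain ⟨Cr, hCr⟩ : ∃ Cr : Set V, Cr = {z | z ∈ T ∧ (D z).det = 0} := ⟨_, rfl⟩
  have hnull : (volume : Measure V) (Λ '' Cr) = 0 := by
    refine addHaar_image_eq_zero_of_det_fderivWithin_eq_zero volume (f' := D) (fun z hz => ?_)
      (fun z hz => ?_)
    · rw [hCr] at hz
      exact (hD z hz.1).hasFDerivWithinAt
    · rw [hCr] at hz
      exact hz.2
  refine measure_mono_null ?_ hnull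
  rintro a ⟨x, ⟨hxP, hxe⟩, μ, hx0, hxa, w, hw, hgw, hform⟩
  have hHe : ⟪e, SDH F e x⟫ = 0 := by rw [SDH_inner he, hx0]
  have hpe : p (SDH F e x + μ • e) = SDH F e x := by
    rw [hp, inner_add_right, hHe, real_inner_smul_right, real_inner_self_eq_norm_sq, he]
    simp
  have hsy : P.symm (p (SDH F e x + μ • e)) = x := by
    rw [hpe, ← hPc]
    exact P.left_inv hxP
  have hze : ⟪e, SDH F e x + μ • e⟫ = μ := by
    rw [inner_add_right, hHe, real_inner_smul_right, real_inner_self_eq_norm_sq, he]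
    simp
  have hzT : SDH F e x + μ • e ∈ T := by
    rw [hT]
    refine ⟨?_, ?_⟩
    · rw [hpe, ← hPc]
      exact P.map_source hxP
    · rw [hsy]
      exact hxe
  refine ⟨SDH F e x + μ • e, ?_, ?_⟩
  · rw [hCr]
    refine ⟨hzT, ?_⟩
    -- the kernel
    have hg0 : gradient F x ≠ 0 := by
      intro h0
      apply hxe
      show fderiv ℝ F x e = 0
      rw [fderiv_eq_inner_gradient, h0, inner_zero_left]
    obtain ⟨c, hc'⟩ := SD_parallel hg0 (y := μ • SDgr F x w + SDgr φ x w) (fun w' hw' => by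
      rw [inner_add_left, real_inner_smul_left, SDgr_inner hF, SDgr_inner hφ]
      have := hform w' hw'
      linarith)
    have hHw : ⟪e, SDHd F e x w⟫ = 0 := by
      rw [SDHd_inner he, fderiv_eq_inner_gradient, hgw]
    have hpw : ∀ l : ℝ, p (SDHd F e x w + l • e) = SDHd F e x w := by
      intro l
      rw [hp, inner_add_right, hHw, real_inner_smul_right, real_inner_self_eq_norm_sq, he]
      simp
    have hGw := hG _ hzT w
    rw [hsy] at hGw
    refine SD_det (v := SDHd F e x w + (-c) • e) ?_ ?_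
    · intro h0
      have h1 := hpw (-c)
      rw [h0, map_zero] at h1
      rw [← h1, map_zero] at hGw
      exact hw hGw.symm
    · rw [hDf _ hzT, hsy, hpw, hGw, hze]
      have h2 : ⟪e, SDHd F e x w + (-c) • e⟫ = -c := by
        rw [inner_add_right, hHw, real_inner_smul_right, real_inner_self_eq_norm_sq, he]
        simp
      rw [h2]
      have h3 : -(μ • SDgr F x w) - (-c) • gradient F x - SDgr φ x w =
          c • gradient F x - (μ • SDgr F x w + SDgr φ x w) := by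
        rw [neg_smul]
        abel
      rw [h3, hc', sub_self]
  · rw [hΛ, hsy, hze]
    have h4 : a = -(μ • gradient F x) - gradient φ x := by
      have h5 : gradient φ x + a + μ • gradient F x = 0 := hxa
      have h6 : a = (gradient φ x + a + μ • gradient F x) - μ • gradient F x - gradient φ x := by
        abel
      rw [h6, h5]
      abel
    exact h4.symm

/-- **Sard for the normal map.** -/
theorem sard_null {F φ : V → ℝ} (hF : ContDiff ℝ ∞ F) (hφ : ContDiff ℝ ∞ φ)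
    (hreg : ∀ x, F x = 0 → gradient F x ≠ 0) :
    (volume : Measure V) (SDbad F φ univ) = 0 := by
  have : ProperSpace V := FiniteDimensional.proper ℝ V
  choose! S hS hS0 using fun x (hx : x ∈ {x | F x = 0}) => SD_local (φ := φ) hF hφ (hreg x hx)
  obtain ⟨t, hts, ht, hcov⟩ := TopologicalSpace.countable_cover_nhdsWithin
    (s := {x | F x = 0}) (f := S) fun x hx => mem_nhdsWithin_of_mem_nhds (hS x hx)
  refine measure_mono_null ?_ ((measure_biUnion_null_iff ht).2 fun x hx => hS0 x (hts hx))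
  rintro a ⟨x, -, μ, hx0, h⟩
  obtain ⟨y, hy, hxy⟩ := mem_iUnion₂.1 (hcov hx0)
  exact mem_iUnion₂.2 ⟨y, hy, x, hxy, μ, hx0, h⟩

omit [MeasurableSpace V] [BorelSpace V] in
/-- A small `a` such that all critical points of `φ + ⟪a, ·⟫` on `{F = 0}` are nondegenerate. -/
theorem sard_exists {F φ : V → ℝ} (hF : ContDiff ℝ ∞ F) (hφ : ContDiff ℝ ∞ φ)
    (hreg : ∀ x, F x = 0 → gradient F x ≠ 0) {δ : ℝ} (hδ : 0 < δ) :
    ∃ a : V, ‖a‖ < δ ∧ ∀ (x : V) (μ : ℝ), F x = 0 →
      gradient φ x + a + μ • gradient F x = 0 → ∀ w, ⟪gradient F x, w⟫ = 0 →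
      (∀ w', ⟪gradient F x, w'⟫ = 0 → hess φ x w w' + μ * hess F x w w' = 0) → w = 0 := by
  let : MeasurableSpace V := borel V
  have : BorelSpace V := ⟨rfl⟩
  have h0 := sard_null hF hφ hreg
  have h1 : ∃ a ∈ Metric.ball (0 : V) δ, a ∉ SDbad F φ univ := by
    by_contra hcon
    push Not at hcon
    have h2 : Metric.ball (0 : V) δ ⊆ SDbad F φ univ := fun a ha => hcon a ha
    have h3 := measure_mono_null h2 h0
    exact (Metric.measure_ball_pos volume (0 : V) hδ).ne' h3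
  obtain ⟨a, ha, hab⟩ := h1
  refine ⟨a, by simpa using ha, fun x μ hx hxa w hw hform => ?_⟩
  by_contra hw0
  exact hab ⟨x, mem_univ x, μ, hx, hxa, w, hw0, hw, hform⟩

omit [MeasurableSpace V] [BorelSpace V] in
/-- The same with derivatives. -/
theorem sard_exists' {F φ : V → ℝ} (hF : ContDiff ℝ ∞ F) (hφ : ContDiff ℝ ∞ φ)
    (hreg : ∀ x, F x = 0 → gradient F x ≠ 0) {δ : ℝ} (hδ : 0 < δ) :
    ∃ a : V, ‖a‖ < δ ∧ ∀ (x : V) (μ : ℝ), F x = 0 →
      (∀ v, fderiv ℝ φ x v + ⟪a, v⟫ = -(μ * fderiv ℝ F x v)) → ∀ w, fderiv ℝ F x w = 0 →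
      (∀ w', fderiv ℝ F x w' = 0 → hess φ x w w' + μ * hess F x w w' = 0) → w = 0 := by
  obtain ⟨a, ha, h⟩ := sard_exists hF hφ hreg hδ
  refine ⟨a, ha, fun x μ hx hxa w hw hform => h x μ hx ?_ w ?_ fun w' hw' => hform w' ?_⟩
  · refine ext_inner_right ℝ fun v => ?_
    rw [inner_add_left, inner_add_left, real_inner_smul_left, inner_zero_left,
      ← fderiv_eq_inner_gradient, ← fderiv_eq_inner_gradient, hxa v]
    ring
  · rw [← fderiv_eq_inner_gradient, hw]
  · rw [fderiv_eq_inner_gradient, hw']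

end Pool.Schoen
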