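import Pool.Agent.H.MP_6c077c_gt.Lz.Defs
import Pool.Agent.H.MP_6c077c_gt.Lz.SardN

/-! Room theorem: genericity of a linear perturbation of the height. -/

set_option autoImplicit false

namespace Pool.Schoen

open Filter Set
open scoped Topology RealInnerProductSpace ContDiff

variable {V : Type*} [NormedAddCommGroup V] [InnerProductSpace ℝ V] [FiniteDimensional ℝ V]

theorem exists_generic (n : ℕ) (hn : Module.finrank ℝ V = n + 1) {F φ : V → ℝ}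
    (hF : ContDiff ℝ ∞ F) (hφ : ContDiff ℝ ∞ φ) (hreg : ∀ x, F x = 0 → gradient F x ≠ 0)
    (hK : IsCompact {x | F x = 0}) {δ : ℝ} (hδ : 0 < δ) :
    ∃ a : V, ‖a‖ < δ ∧ ∀ x, F x = 0 → ∀ μ : ℝ, 0 < μ →
      (∀ v, fderiv ℝ φ x v + ⟪a, v⟫ = -(μ * fderiv ℝ F x v)) →
      ∀ u, u ≠ 0 → fderiv ℝ F x u = 0 →
        ∃ w, fderiv ℝ F x w = 0 ∧ hess φ x u w + μ * hess F x u w ≠ 0 := by
  obtain ⟨a, ha, h⟩ := sard_exists' hF hφ hreg hδ
  refine ⟨a, ha, fun x hx μ _ hxa u hu0 hu => ?_⟩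
  by_contra hcon
  push Not at hcon
  exact hu0 (h x μ hx hxa u hu hcon)

end Pool.Schoen
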