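import Pool.Agent.H.MP_6c077c_gt.Ix.Dz

/-! Room theorem: minima over translation windows. -/

set_option autoImplicit false

namespace Pool.Schoen

open Filter Set
open scoped Topology RealInnerProductSpace

variable {V : Type*} [NormedAddCommGroup V] [InnerProductSpace ℝ V]

/-- The minimum of `k` over the points `x + s • v`, `|s| ≤ t`. -/
noncomputable def winV (k : V → ℝ) (v : V) (t : ℝ) (x : V) : ℝ :=
  sInf ((fun u : ℝ => k (x + (t * u) • v)) '' Icc (-1) 1)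

theorem winV_continuous {k : V → ℝ} (hk : Continuous k) (v : V) :
    Continuous fun p : ℝ × V => winV k v p.1 p.2 := by
  unfold winV
  refine IsCompact.continuous_sInf (f := fun (p : ℝ × V) (u : ℝ) => k (p.2 + (p.1 * u) • v))
    isCompact_Icc ?_
  have : Continuous fun q : (ℝ × V) × ℝ => k (q.1.2 + (q.1.1 * q.2) • v) := by fun_prop
  exact this

theorem winV_min {k : V → ℝ} (hk : Continuous k) (v : V) (t : ℝ) (x : V) :
    ∃ u ∈ Icc (-1 : ℝ) 1, k (x + (t * u) • v) = winV k v t x ∧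
      ∀ u' ∈ Icc (-1 : ℝ) 1, winV k v t x ≤ k (x + (t * u') • v) := by
  have hc : ContinuousOn (fun u : ℝ => k (x + (t * u) • v)) (Icc (-1) 1) := by fun_prop
  obtain ⟨u, hu, h1, h2⟩ := isCompact_Icc.exists_sInf_image_eq_and_le
    (nonempty_Icc.2 (by norm_num : (-1 : ℝ) ≤ 1)) hc
  refine ⟨u, hu, h1.symm, fun u' hu' => ?_⟩
  unfold winV
  rw [h1]
  exact h2 u' hu'

theorem winV_le {k : V → ℝ} (hk : Continuous k) (v : V) {t σ : ℝ} (hσ : |σ| ≤ t) (x : V) :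
    winV k v t x ≤ k (x + σ • v) := by
  obtain ⟨u, hu, h1, h2⟩ := winV_min hk v t x
  rcases (abs_nonneg σ |>.trans hσ).eq_or_lt with h | h
  · have h3 : σ = 0 := abs_nonpos_iff.1 (hσ.trans h.symm.le)
    have := h2 0 (by norm_num)
    rw [mul_zero] at this
    rwa [h3]
  · have := h2 (σ / t) ?_
    · rwa [mul_div_cancel₀ _ h.ne'] at this
    · rw [abs_le] at hσ
      constructor
      · rw [le_div_iff₀ h]
        linarith
      · rw [div_le_iff₀ h]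
        linarith

theorem winV_zero (k : V → ℝ) (v x : V) : winV k v 0 x = k x := by
  unfold winV
  have h : (fun u : ℝ => k (x + (0 * u) • v)) '' Icc (-1) 1 = {k x} := by
    ext y
    constructor
    · rintro ⟨u, -, rfl⟩
      simp
    · rintro rfl
      exact ⟨0, by norm_num, by simp⟩
  rw [h, csInf_singleton]

theorem winV_attained {k : V → ℝ} (hk : Continuous k) (v : V) {t : ℝ} (ht : 0 ≤ t) (x : V) :
    ∃ σ : ℝ, |σ| ≤ t ∧ k (x + σ • v) = winV k v t x := by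
  obtain ⟨u, hu, h1, -⟩ := winV_min hk v t x
  refine ⟨t * u, ?_, h1⟩
  rw [abs_mul, abs_of_nonneg ht]
  have : |u| ≤ 1 := abs_le.2 hu
  nlinarith

/-- Descent directions of the window minima. -/
theorem winV_desc {k : V → ℝ} (hk : Continuous k) {t₀ : ℝ} {x v w : V} (ht₀ : 0 ≤ t₀)
    (hz : winV k v t₀ x = 0)
    (hw : ∀ σ : ℝ, |σ| ≤ t₀ → k (x + σ • v) = 0 →
      ∃ a : ℝ, Desc1 k (x + σ • v) (w + a • v) ∧ (σ < t₀ ∨ a ≤ 0) ∧ (-t₀ < σ ∨ 0 ≤ a))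
    {l : Filter ℝ} (hl : l ≤ 𝓝 t₀) (hl' : ∀ᶠ t in l, 0 ≤ t) :
    Desc (fun t y => winV k v t y) l x w := by
  set L : Filter (ℝ × (V × (V × ℝ))) := l ×ˢ (𝓝 x ×ˢ (𝓝 w ×ˢ 𝓝[>] (0 : ℝ))) with hL
  have Lpos : ∀ᶠ q : ℝ × (V × (V × ℝ)) in L, 0 < q.2.2.2 := by
    have h1 : Tendsto (fun q : ℝ × (V × (V × ℝ)) => q.2.2.2) L (𝓝[>] 0) :=
      (tendsto_snd.comp tendsto_snd).comp tendsto_snd
    exact h1.eventually self_mem_nhdsWithin
  suffices h : ∃ c : ℝ, 0 < c ∧ ∀ᶠ q : ℝ × (V × (V × ℝ)) in L, ∀ u ∈ Icc (-1 : ℝ) 1,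
      k (q.2.1 + (q.1 * u) • v) = winV k v q.1 q.2.1 →
      winV k v q.1 (q.2.1 + q.2.2.2 • q.2.2.1) ≤ winV k v q.1 q.2.1 - c * q.2.2.2 by
    obtain ⟨c, hc, h⟩ := h
    refine ⟨c, hc, ?_⟩
    filter_upwards [h] with q hq
    obtain ⟨u, hu, h1, -⟩ := winV_min hk v q.1 q.2.1
    exact hq u hu h1
  refine isCompact_Icc.induction_on (p := fun S : Set ℝ => ∃ c : ℝ, 0 < c ∧
      ∀ᶠ q : ℝ × (V × (V × ℝ)) in L, ∀ u ∈ S,
      k (q.2.1 + (q.1 * u) • v) = winV k v q.1 q.2.1 →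
      winV k v q.1 (q.2.1 + q.2.2.2 • q.2.2.1) ≤ winV k v q.1 q.2.1 - c * q.2.2.2) ?_ ?_ ?_ ?_
  · exact ⟨1, one_pos, Filter.Eventually.of_forall fun q u hu => absurd hu (notMem_empty u)⟩
  · rintro S T hST ⟨c, hc, h⟩
    exact ⟨c, hc, h.mono fun q hq u hu => hq u (hST hu)⟩
  · rintro S T ⟨c, hc, h⟩ ⟨c', hc', h'⟩
    refine ⟨min c c', lt_min hc hc', ?_⟩
    filter_upwards [h, h', Lpos] with q hq hq' hpos u hu h1
    rcases hu with hu | hu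
    · have h2 := hq u hu h1
      have h3 := mul_le_mul_of_nonneg_right (min_le_left c c') hpos.le
      linarith
    · have h2 := hq' u hu h1
      have h3 := mul_le_mul_of_nonneg_right (min_le_right c c') hpos.le
      linarith
  intro u₀ hu₀
  have hσ₀ : |t₀ * u₀| ≤ t₀ := by
    rw [abs_mul, abs_of_nonneg ht₀]
    have : |u₀| ≤ 1 := abs_le.2 hu₀
    nlinarith
  set LU : Filter ((ℝ × (V × (V × ℝ))) × ℝ) := L ×ˢ 𝓝[Icc (-1) 1] u₀ with hLU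
  suffices h : ∃ c : ℝ, 0 < c ∧ ∀ᶠ z : (ℝ × (V × (V × ℝ))) × ℝ in LU,
      k (z.1.2.1 + (z.1.1 * z.2) • v) = winV k v z.1.1 z.1.2.1 →
      winV k v z.1.1 (z.1.2.1 + z.1.2.2.2 • z.1.2.2.1) ≤
        winV k v z.1.1 z.1.2.1 - c * z.1.2.2.2 by
    obtain ⟨c, hc, h⟩ := h
    obtain ⟨pa, hpa, pb, hpb, h1⟩ := Filter.eventually_prod_iff.1 h
    exact ⟨{u | pb u}, hpb, c, hc, hpa.mono fun q hq u hu => h1 hq hu⟩
  have T1 : Tendsto (fun z : (ℝ × (V × (V × ℝ))) × ℝ => z.1.1) LU (𝓝 t₀) :=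
    (tendsto_fst.mono_right hl).comp (tendsto_fst (f := L))
  have T2 : Tendsto (fun z : (ℝ × (V × (V × ℝ))) × ℝ => z.1.2.1) LU (𝓝 x) :=
    (tendsto_fst.comp (tendsto_snd (f := l))).comp (tendsto_fst (f := L))
  have T3 : Tendsto (fun z : (ℝ × (V × (V × ℝ))) × ℝ => z.1.2.2.1) LU (𝓝 w) :=
    ((tendsto_fst.comp tendsto_snd).comp (tendsto_snd (f := l))).comp (tendsto_fst (f := L))
  have T4' : Tendsto (fun z : (ℝ × (V × (V × ℝ))) × ℝ => z.1.2.2.2) LU (𝓝[>] 0) :=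
    ((tendsto_snd.comp tendsto_snd).comp (tendsto_snd (f := l))).comp (tendsto_fst (f := L))
  have T4 : Tendsto (fun z : (ℝ × (V × (V × ℝ))) × ℝ => z.1.2.2.2) LU (𝓝 0) :=
    T4'.mono_right nhdsWithin_le_nhds
  have T5 : Tendsto (fun z : (ℝ × (V × (V × ℝ))) × ℝ => z.2) LU (𝓝 u₀) :=
    tendsto_snd.mono_right nhdsWithin_le_nhds
  have T6 : ∀ᶠ z : (ℝ × (V × (V × ℝ))) × ℝ in LU, z.2 ∈ Icc (-1 : ℝ) 1 :=
    tendsto_snd.eventually self_mem_nhdsWithin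
  have T7 : ∀ᶠ z : (ℝ × (V × (V × ℝ))) × ℝ in LU, 0 ≤ z.1.1 :=
    (tendsto_fst.comp (tendsto_fst (f := L))).eventually hl'
  have T8 : ∀ᶠ z : (ℝ × (V × (V × ℝ))) × ℝ in LU, 0 < z.1.2.2.2 :=
    (tendsto_fst (f := L)).eventually Lpos
  have Tσ : Tendsto (fun z : (ℝ × (V × (V × ℝ))) × ℝ => z.1.1 * z.2) LU (𝓝 (t₀ * u₀)) := T1.mul T5
  have Tx : Tendsto (fun z : (ℝ × (V × (V × ℝ))) × ℝ => z.1.2.1 + (z.1.1 * z.2) • v) LU
      (𝓝 (x + (t₀ * u₀) • v)) := T2.add (Tσ.smul_const v)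
  by_cases hk0 : k (x + (t₀ * u₀) • v) = 0
  swap
  · -- not a minimum point
    have h1 : winV k v t₀ x < k (x + (t₀ * u₀) • v) := by
      refine lt_of_le_of_ne (winV_le hk v hσ₀ x) ?_
      rw [hz]
      exact fun h => hk0 h.symm
    have c0 : Tendsto (fun z : (ℝ × (V × (V × ℝ))) × ℝ => ((z.1.1, z.1.2.1) : ℝ × V)) LU
        (𝓝 (t₀, x)) := T1.prodMk_nhds T2
    have c3 : Tendsto (fun p : ℝ × V => winV k v p.1 p.2) (𝓝 (t₀, x)) (𝓝 (winV k v t₀ x)) :=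
      (winV_continuous hk v).tendsto (t₀, x)
    have c1 := c3.comp c0
    have c2 := (hk.tendsto _).comp Tx
    have c4 := c1.eventually_lt c2 h1
    refine ⟨1, one_pos, c4.mono fun z hz h6 => ?_⟩
    simp only [Function.comp_apply] at hz
    rw [h6] at hz
    exact absurd hz (lt_irrefl _)
  obtain ⟨a, ⟨c, hc, hc'⟩, ha, ha'⟩ := hw _ hσ₀ hk0
  refine ⟨c, hc, ?_⟩
  have TW : Tendsto (fun z : (ℝ × (V × (V × ℝ))) × ℝ => z.1.2.2.1 + a • v) LU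
      (𝓝 (w + a • v)) := T3.add_const _
  have hall : Tendsto (fun z : (ℝ × (V × (V × ℝ))) × ℝ =>
      (((), (z.1.2.1 + (z.1.1 * z.2) • v, (z.1.2.2.1 + a • v, z.1.2.2.2))) :
        Unit × (V × (V × ℝ)))) LU
      (⊤ ×ˢ (𝓝 (x + (t₀ * u₀) • v) ×ˢ (𝓝 (w + a • v) ×ˢ 𝓝[>] (0 : ℝ)))) :=
    tendsto_top.prodMk (Tx.prodMk (TW.prodMk T4'))
  have Tsum : Tendsto (fun z : (ℝ × (V × (V × ℝ))) × ℝ => z.1.1 * z.2 + a * z.1.2.2.2) LU
      (𝓝 (t₀ * u₀)) := by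
    have := Tσ.add (T4.const_mul a)
    rwa [mul_zero, add_zero] at this
  have hup : ∀ᶠ z in LU, z.1.1 * z.2 + a * z.1.2.2.2 ≤ z.1.1 := by
    rcases ha with h | h
    · exact (Tsum.eventually_lt T1 h).mono fun z hz => hz.le
    · filter_upwards [T6, T7, T8] with z h6 h7 h8
      have h9 := h6.2
      nlinarith [mul_nonneg h7 (sub_nonneg.2 h9), mul_nonneg (neg_nonneg.2 h) h8.le]
  have hlo : ∀ᶠ z in LU, -z.1.1 ≤ z.1.1 * z.2 + a * z.1.2.2.2 := by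
    rcases ha' with h | h
    · exact (T1.neg.eventually_lt Tsum h).mono fun z hz => hz.le
    · filter_upwards [T6, T7, T8] with z h6 h7 h8
      have h9 := h6.1
      nlinarith [mul_nonneg h7 (sub_nonneg.2 h9), mul_nonneg h h8.le]
  filter_upwards [hall.eventually hc', hup, hlo, T8] with z hq h2 h3 h4 h8
  have h5 := winV_le hk v (abs_le.2 ⟨h3, h2⟩) (z.1.2.1 + z.1.2.2.2 • z.1.2.2.1)
  have h6 : z.1.2.1 + z.1.2.2.2 • z.1.2.2.1 + (z.1.1 * z.2 + a * z.1.2.2.2) • v =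
      z.1.2.1 + (z.1.1 * z.2) • v + z.1.2.2.2 • (z.1.2.2.1 + a • v) := by
    rw [add_smul, smul_add, smul_smul, mul_comm z.1.2.2.2 a]
    abel
  rw [h6] at h5
  rw [h8] at hq
  exact h5.trans hq

end Pool.Schoen
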